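import Mathlib

/-!
Packing cuts in bipartite multigraphs (edges are elements of a type `E`, with ends `a e`, `b e`).
-/

namespace Run7.h543.Bip

open Finset

variable {E V : Type*} [DecidableEq E] [DecidableEq V]

/-- parity of the degree of `v` in `J` -/
def bd (a b : E → V) (J : Finset E) (v : V) : ZMod 2 :=
  ∑ e ∈ J, ((if a e = v then 1 else 0) + (if b e = v then 1 else 0))

variable {a b : E → V}

omit [DecidableEq V] in
lemma sum_symmDiff (J K : Finset E) (f : E → ZMod 2) :
    ∑ e ∈ symmDiff J K, f e = ∑ e ∈ J, f e + ∑ e ∈ K, f e := by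
  have h1 : ∑ e ∈ symmDiff J K, f e = ∑ e ∈ J \ K, f e + ∑ e ∈ K \ J, f e := by
    rw [← Finset.sum_union (Finset.disjoint_left.2 (fun x hx hx' =>
      (Finset.mem_sdiff.1 hx').2 (Finset.mem_sdiff.1 hx).1))]
    rfl
  have e1 := Finset.sum_inter_add_sum_sdiff J K f
  have e2 := Finset.sum_inter_add_sum_sdiff K J f
  rw [Finset.inter_comm K J] at e2
  rw [h1, ← e1, ← e2]
  generalize ∑ e ∈ J \ K, f e = A
  generalize ∑ e ∈ K \ J, f e = B
  generalize ∑ e ∈ J ∩ K, f e = C
  revert A B C
  decide

lemma bd_symmDiff (J K : Finset E) (v : V) :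
    bd a b (symmDiff J K) v = bd a b J v + bd a b K v := sum_symmDiff J K _

omit [DecidableEq E] in
@[simp] lemma bd_empty (v : V) : bd a b ∅ v = 0 := by simp [bd]

omit [DecidableEq E] in
lemma bd_singleton (e : E) (v : V) :
    bd a b {e} v = (if a e = v then 1 else 0) + (if b e = v then 1 else 0) := by simp [bd]

/-- weight of `C` with respect to `F` -/
def w (F C : Finset E) : ℤ := ∑ e ∈ C, if e ∈ F then (-1 : ℤ) else 1

omit [DecidableEq V] in
lemma card_symmDiff_eq (F C : Finset E) : ((symmDiff F C).card : ℤ) = F.card + w F C := by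
  have h1 : (symmDiff F C).card = (F \ C).card + (C \ F).card := by
    rw [← Finset.card_union_of_disjoint (Finset.disjoint_left.2 (fun x hx hx' =>
      (Finset.mem_sdiff.1 hx').2 (Finset.mem_sdiff.1 hx).1))]
    rfl
  have h2 : w F C = ((C \ F).card : ℤ) - ((C ∩ F).card : ℤ) := by
    unfold w
    rw [← Finset.sum_inter_add_sum_sdiff C F]
    rw [Finset.sum_congr rfl (g := fun _ => (-1 : ℤ)) (fun x hx => by
      rw [if_pos (Finset.mem_inter.1 hx).2]),
      Finset.sum_congr (s₁ := C \ F) rfl (g := fun _ => (1 : ℤ)) (fun x hx => by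
      rw [if_neg (Finset.mem_sdiff.1 hx).2])]
    simp only [Finset.sum_const, nsmul_eq_mul]
    ring
  have h3 := Finset.card_sdiff_add_card_inter F C
  rw [Finset.inter_comm] at h3
  rw [h1, h2]
  push_cast
  have h4 : ((F \ C).card : ℤ) + (C ∩ F).card = F.card := by exact_mod_cast h3
  linarith

omit [DecidableEq V] in
lemma w_sdiff {F P D : Finset E} (h : P ⊆ D) : w F D = w F P + w F (D \ P) := by
  unfold w
  rw [add_comm]
  exact (Finset.sum_sdiff h).symm

lemma bd_sdiff {P D : Finset E} (h : P ⊆ D) (v : V) :
    bd a b D v = bd a b P v + bd a b (D \ P) v := by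
  unfold bd
  rw [add_comm]
  exact (Finset.sum_sdiff h).symm

/-- reachability along edges of `D` -/
def Reach (a b : E → V) (D : Finset E) : V → V → Prop :=
  Relation.ReflTransGen (fun p q => ∃ e ∈ D, (a e = p ∧ b e = q) ∨ (a e = q ∧ b e = p))

lemma exists_join {D : Finset E} {x y : V} (h : Reach a b D x y) :
    ∃ P ⊆ D, ∀ v, bd a b P v = (if x = v then 1 else 0) + (if y = v then 1 else 0) := by
  induction h with
  | refl =>
    refine ⟨∅, by simp, fun v => ?_⟩
    have : ∀ z : ZMod 2, 0 = z + z := by decide
    simp only [bd_empty]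
    exact this _
  | tail _ hs ih =>
    rename_i p q
    obtain ⟨P, hP, hPb⟩ := ih
    obtain ⟨e, he, hee⟩ := hs
    refine ⟨symmDiff P {e}, ?_, fun v => ?_⟩
    · intro d hd
      rw [Finset.mem_symmDiff, Finset.mem_singleton] at hd
      rcases hd with hd | hd
      · exact hP hd.1
      · rw [hd.1]; exact he
    · rw [bd_symmDiff, hPb, bd_singleton]
      have : ∀ x y z : ZMod 2, x + y + (y + z) = x + z := by decide
      rcases hee with ⟨rfl, rfl⟩ | ⟨rfl, rfl⟩
      · exact this _ _ _
      · rw [add_comm (if a e = v then (1 : ZMod 2) else 0)]; exact this _ _ _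

omit [DecidableEq E] in
lemma closed_sum [Fintype V] (κ : V → Prop) [DecidablePred κ] {D : Finset E}
    (hκ : ∀ e ∈ D, κ (a e) ↔ κ (b e)) : ∑ v ∈ univ.filter κ, bd a b D v = 0 := by
  unfold bd
  rw [Finset.sum_comm]
  apply Finset.sum_eq_zero
  intro e he
  rw [Finset.sum_add_distrib]
  have h1 : ∀ x : V, ∑ v ∈ univ.filter κ, (if x = v then (1 : ZMod 2) else 0)
      = if κ x then 1 else 0 := by
    intro x
    rw [Finset.sum_ite_eq]
    simp
  rw [h1, h1]
  by_cases h : κ (a e)
  · rw [if_pos h, if_pos ((hκ e he).1 h)]; decide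
  · rw [if_neg h, if_neg (fun h' => h ((hκ e he).2 h'))]; simp

omit [DecidableEq E] [DecidableEq V] in
lemma reach_closed {D : Finset E} {x : V} : ∀ e ∈ D, Reach a b D x (a e) ↔ Reach a b D x (b e) := by
  intro e he
  constructor
  · intro h
    exact h.tail ⟨e, he, Or.inl ⟨rfl, rfl⟩⟩
  · intro h
    exact h.tail ⟨e, he, Or.inr ⟨rfl, rfl⟩⟩

omit [DecidableEq E] in
lemma exists_other [Fintype V] {D : Finset E} {x : V} (hx : bd a b D x = 1) :
    ∃ y, y ≠ x ∧ Reach a b D x y ∧ bd a b D y = 1 := by
  classical
  by_contra hcon
  push Not at hcon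
  have h1 := closed_sum (a := a) (b := b) (fun v => Reach a b D x v) (D := D) reach_closed
  rw [Finset.sum_eq_single x] at h1
  · rw [hx] at h1; exact absurd h1 (by decide)
  · intro y hy hne
    have h2 := hcon y hne (Finset.mem_filter.1 hy).2
    have h3 : ∀ z : ZMod 2, z ≠ 1 → z = 0 := by decide
    exact h3 _ h2
  · intro h
    exfalso
    apply h
    rw [Finset.mem_filter]
    exact ⟨Finset.mem_univ _, Relation.ReflTransGen.refl⟩

/-- minimum edge sets for their boundary -/
def IsMin (a b : E → V) (E₀ F : Finset E) : Prop :=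
  F ⊆ E₀ ∧ ∀ J ⊆ E₀, (∀ v, bd a b J v = bd a b F v) → F.card ≤ J.card

lemma IsMin.w_nonneg {E₀ F C : Finset E} (h : IsMin a b E₀ F) (hC : C ⊆ E₀)
    (hC0 : ∀ v, bd a b C v = 0) : 0 ≤ w F C := by
  have h1 := h.2 (symmDiff F C) (by
    intro d hd
    rw [Finset.mem_symmDiff] at hd
    rcases hd with hd | hd
    · exact h.1 hd.1
    · exact hC hd.1) (fun v => by rw [bd_symmDiff, hC0, add_zero])
  have h2 := card_symmDiff_eq F C
  have h3 : (F.card : ℤ) ≤ (symmDiff F C).card := by exact_mod_cast h1
  linarith

/-- incidence -/
def inc (a b : E → V) (e : E) (u : V) : Prop := a e = u ∨ b e = u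

omit [DecidableEq E] in
lemma exists_end {e : E} {u : V} (h : inc a b e u) :
    ∃ v, (∀ z, bd a b {e} z = (if u = z then 1 else 0) + (if v = z then 1 else 0)) ∧
      ((a e = u ∧ b e = v) ∨ (b e = u ∧ a e = v)) := by
  rcases h with h | h
  · exact ⟨b e, fun z => by rw [bd_singleton, h], Or.inl ⟨h, rfl⟩⟩
  · exact ⟨a e, fun z => by rw [bd_singleton, h, add_comm], Or.inr ⟨h, rfl⟩⟩

lemma bd_erase {J : Finset E} {e : E} (he : e ∈ J) (v : V) :
    bd a b (J.erase e) v = bd a b J v + bd a b {e} v := by
  have h1 := bd_sdiff (a := a) (b := b) (P := {e}) (D := J) (by simpa using he) v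
  rw [Finset.sdiff_singleton_eq_erase] at h1
  rw [h1]
  generalize bd a b {e} v = A
  generalize bd a b (J.erase e) v = B
  revert A B
  decide

/-- The key claim: a minimum join has exactly one edge at a vertex `u` closest to `x0`. -/
lemma one_edge [Fintype V] {E₀ F J : Finset E} (hF : IsMin a b E₀ F) {x0 u : V} (hJE : J ⊆ E₀)
    (hJ : ∀ v, bd a b J v = bd a b F v + (if x0 = v then 1 else 0) + (if u = v then 1 else 0))
    (hmin : ∀ u' J', J' ⊆ E₀ → (∀ v, bd a b J' v = bd a b F v + (if x0 = v then 1 else 0) +
      (if u' = v then 1 else 0)) → J.card ≤ J'.card) (hne : u ≠ x0) :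
    (∀ e ∈ J, ¬ inc a b e u) ∧ ∃ e ∈ F, inc a b e u ∧ ∀ e' ∈ F, inc a b e' u → e' = e := by
  classical
  have hJu : ∀ e ∈ J, ¬ inc a b e u := by
    intro e he hinc
    obtain ⟨v, hv, -⟩ := exists_end hinc
    have h1 := hmin v (J.erase e) ((Finset.erase_subset _ _).trans hJE) (fun z => by
      rw [bd_erase he, hJ, hv]
      have : ∀ p q r s : ZMod 2, p + q + r + (r + s) = p + q + s := by decide
      exact this _ _ _ _)
    rw [Finset.card_erase_of_mem he] at h1
    have : 0 < J.card := Finset.card_pos.2 ⟨e, he⟩
    omega
  refine ⟨hJu, ?_⟩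
  have hno : ∀ K : Finset E, (∀ e ∈ K, ¬ inc a b e u) → bd a b K u = 0 := by
    intro K hK
    unfold bd
    apply Finset.sum_eq_zero
    intro e he
    have := hK e he
    unfold inc at this
    push Not at this
    simp [this.1, this.2]
  have hFu : bd a b F u = 1 := by
    have h1 := hJ u
    rw [hno J hJu, if_neg (Ne.symm hne), if_pos rfl] at h1
    generalize bd a b F u = A at h1
    revert h1 A
    decide
  obtain ⟨e1, he1, hi1⟩ : ∃ e ∈ F, inc a b e u := by
    by_contra hcon
    push Not at hcon
    rw [hno F hcon] at hFu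
    exact absurd hFu (by decide)
  refine ⟨e1, he1, hi1, ?_⟩
  by_contra hcon
  push Not at hcon
  obtain ⟨e2, he2, hi2, hne21⟩ := hcon
  obtain ⟨v1, hv1, hv1'⟩ := exists_end hi1
  obtain ⟨v2, hv2, hv2'⟩ := exists_end hi2
  set D := symmDiff F J with hD
  have hDE : D ⊆ E₀ := by
    intro d hd
    rw [hD, Finset.mem_symmDiff] at hd
    rcases hd with hd | hd
    · exact hF.1 hd.1
    · exact hJE hd.1
  have hDb : ∀ v, bd a b D v = (if x0 = v then 1 else 0) + (if u = v then 1 else 0) := by
    intro v
    rw [hD, bd_symmDiff, hJ]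
    generalize bd a b F v = A
    generalize (if x0 = v then (1 : ZMod 2) else 0) = B
    generalize (if u = v then (1 : ZMod 2) else 0) = C
    revert A B C
    decide
  have he1D : e1 ∈ D := by
    rw [hD, Finset.mem_symmDiff]; exact Or.inl ⟨he1, fun h => hJu e1 h hi1⟩
  have he2D : e2 ∈ D := by
    rw [hD, Finset.mem_symmDiff]; exact Or.inl ⟨he2, fun h => hJu e2 h hi2⟩
  set D2 := (D.erase e1).erase e2 with hD2
  have he2D' : e2 ∈ D.erase e1 := Finset.mem_erase.2 ⟨hne21, he2D⟩
  have hD2b : ∀ v, bd a b D2 v = (if x0 = v then 1 else 0) + (if u = v then 1 else 0) +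
      (if v1 = v then 1 else 0) + (if v2 = v then 1 else 0) := by
    intro v
    rw [hD2, bd_erase he2D', bd_erase he1D, hDb, hv1, hv2]
    generalize (if x0 = v then (1 : ZMod 2) else 0) = A
    generalize (if u = v then (1 : ZMod 2) else 0) = B
    generalize (if v1 = v then (1 : ZMod 2) else 0) = C
    generalize (if v2 = v then (1 : ZMod 2) else 0) = D
    revert A B C D
    decide
  -- a join avoiding one of the two edges
  have hP : ∃ e ∈ F, inc a b e u ∧ ∃ P ⊆ D, e ∉ P ∧
      ∀ v, bd a b P v = (if x0 = v then 1 else 0) + (if u = v then 1 else 0) := by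
    by_cases hr : Reach a b D2 x0 u
    · obtain ⟨P, hP1, hP2⟩ := exists_join hr
      refine ⟨e1, he1, hi1, P, hP1.trans ((Finset.erase_subset _ _).trans
        (Finset.erase_subset _ _)), ?_, hP2⟩
      intro h
      have := hP1 h
      rw [hD2, Finset.mem_erase, Finset.mem_erase] at this
      exact this.2.1 rfl
    · have h1 := closed_sum (a := a) (b := b) (fun v => Reach a b D2 x0 v) (D := D2) reach_closed
      simp only [hD2b, Finset.sum_add_distrib, Finset.sum_ite_eq, Finset.mem_filter,
        Finset.mem_univ, true_and, hr, if_false] at h1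
      rw [if_pos (show Reach a b D2 x0 x0 from Relation.ReflTransGen.refl)] at h1
      have aux : ∀ (e e' : E) (v : V), e ∈ F → e' ∈ F → inc a b e u → e' ≠ e → e' ∈ D →
          (∀ z, bd a b {e'} z = (if u = z then 1 else 0) + (if v = z then 1 else 0)) →
          (e ∉ D2) → Reach a b D2 x0 v → ∃ e ∈ F, inc a b e u ∧ ∃ P ⊆ D, e ∉ P ∧
          ∀ v, bd a b P v = (if x0 = v then 1 else 0) + (if u = v then 1 else 0) := by
        intro e e' v he he' hi hne' heD' hv heD2 hr'
        obtain ⟨P, hP1, hP2⟩ := exists_join hr'
        refine ⟨e, he, hi, symmDiff P {e'}, ?_, ?_, ?_⟩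
        · intro d hd
          rw [Finset.mem_symmDiff, Finset.mem_singleton] at hd
          rcases hd with hd | hd
          · have := hP1 hd.1
            rw [hD2, Finset.mem_erase, Finset.mem_erase] at this
            exact this.2.2
          · rw [hd.1]; exact heD'
        · rw [Finset.mem_symmDiff, Finset.mem_singleton]
          rintro (h3 | h3)
          · exact heD2 (hP1 h3.1)
          · exact hne' h3.1.symm
        · intro z
          rw [bd_symmDiff, hP2, hv]
          generalize (if x0 = z then (1 : ZMod 2) else 0) = A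
          generalize (if v = z then (1 : ZMod 2) else 0) = B
          generalize (if u = z then (1 : ZMod 2) else 0) = C
          revert A B C
          decide
      by_cases hr1 : Reach a b D2 x0 v1
      · exact aux e2 e1 v1 he2 he1 hi2 (Ne.symm hne21) he1D hv1 (by simp [hD2]) hr1
      · by_cases hr2 : Reach a b D2 x0 v2
        · exact aux e1 e2 v2 he1 he2 hi1 hne21 he2D hv2 (by simp [hD2]) hr2
        · rw [if_neg hr1, if_neg hr2] at h1
          exact absurd h1 (by decide)
  obtain ⟨e, he, hi, P, hPD, heP, hPb⟩ := hP
  have hw1 : w F D = w F P + w F (D \ P) := w_sdiff hPD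
  have hw2 : 0 ≤ w F (D \ P) := by
    apply hF.w_nonneg (Finset.sdiff_subset.trans hDE)
    intro v
    have h1 := bd_sdiff (a := a) (b := b) hPD v
    rw [hDb, hPb] at h1
    generalize bd a b (D \ P) v = A at h1
    generalize (if x0 = v then (1 : ZMod 2) else 0) = B at h1
    generalize (if u = v then (1 : ZMod 2) else 0) = C at h1
    revert h1
    revert A B C
    decide
  have hw3 := card_symmDiff_eq F D
  have hw4 := card_symmDiff_eq F P
  have hFD : symmDiff F D = J := by rw [hD, symmDiff_symmDiff_cancel_left]
  rw [hFD] at hw3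
  obtain ⟨v, hv, -⟩ := exists_end hi
  have heFP : e ∈ symmDiff F P := by rw [Finset.mem_symmDiff]; exact Or.inl ⟨he, heP⟩
  have h1 := hmin v ((symmDiff F P).erase e) ?_ (fun z => by
    rw [bd_erase heFP, bd_symmDiff, hPb, hv]
    generalize bd a b F z = A
    generalize (if x0 = z then (1 : ZMod 2) else 0) = B
    generalize (if u = z then (1 : ZMod 2) else 0) = C
    generalize (if v = z then (1 : ZMod 2) else 0) = D
    revert A B C D
    decide)
  · rw [Finset.card_erase_of_mem heFP] at h1
    have : 0 < (symmDiff F P).card := Finset.card_pos.2 ⟨e, heFP⟩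
    omega
  · intro d hd
    have := Finset.mem_of_mem_erase hd
    rw [Finset.mem_symmDiff] at this
    rcases this with h2 | h2
    · exact hF.1 h2.1
    · exact hDE (hPD h2.1)

omit [DecidableEq E] in
/-- parity of sizes in bipartite graphs -/
lemma card_parity [Fintype V] (c : V → Bool) {J : Finset E} (hc : ∀ e ∈ J, c (a e) ≠ c (b e)) :
    (J.card : ZMod 2) = ∑ v ∈ univ.filter (fun v => c v = true), bd a b J v := by
  unfold bd
  rw [Finset.sum_comm, Finset.card_eq_sum_ones, Nat.cast_sum]
  apply Finset.sum_congr rfl
  intro e he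
  rw [Finset.sum_add_distrib]
  have h1 : ∀ x : V, ∑ v ∈ univ.filter (fun v => c v = true), (if x = v then (1 : ZMod 2) else 0)
      = if c x = true then 1 else 0 := by
    intro x
    rw [Finset.sum_ite_eq]
    simp
  rw [h1, h1]
  have h2 := hc e he
  revert h2
  generalize c (a e) = p
  generalize c (b e) = q
  revert p q
  decide

omit [DecidableEq V] in
lemma w_parity (F C : Finset E) : ((w F C : ℤ) : ZMod 2) = (C.card : ZMod 2) := by
  unfold w
  rw [Finset.card_eq_sum_ones]
  push_cast
  apply Finset.sum_congr rfl
  intro e _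
  split_ifs <;> decide

/-- **Seymour's theorem for bipartite graphs**, for minimum edge sets. -/
theorem packing [Fintype V] : ∀ (n : ℕ) (E₀ F : Finset E) (a b : E → V) (c : V → Bool),
    F.card = n → (∀ e ∈ E₀, c (a e) ≠ c (b e)) → IsMin a b E₀ F →
    ∃ X : E → V → Prop, (∀ e ∈ F, ¬ (X e (a e) ↔ X e (b e))) ∧
      ∀ e ∈ F, ∀ e' ∈ F, e ≠ e' → ∀ d ∈ E₀, ¬ (X e (a d) ↔ X e (b d)) →
        (X e' (a d) ↔ X e' (b d)) := by
  classical
  intro n
  induction n with
  | zero =>
    intro E₀ F a b c hF0 _ _
    rw [Finset.card_eq_zero] at hF0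
    subst hF0
    exact ⟨fun _ _ => True, by simp, by simp⟩
  | succ n ih =>
    intro E₀ F a b c hFn hc hF
    have hl : ∀ e ∈ E₀, a e ≠ b e := fun e he h => hc e he (by rw [h])
    obtain ⟨e0, he0⟩ : F.Nonempty := Finset.card_pos.1 (by omega)
    set x0 := a e0 with hx0
    -- choose the closest vertex
    let good : V × Finset E → Prop := fun p => p.2 ⊆ E₀ ∧
      ∀ v, bd a b p.2 v = bd a b F v + (if x0 = v then 1 else 0) + (if p.1 = v then 1 else 0)
    have hgood0 : good (b e0, F.erase e0) := by
      refine ⟨(Finset.erase_subset _ _).trans hF.1, fun v => ?_⟩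
      rw [bd_erase he0, bd_singleton, ← hx0, add_assoc]
    obtain ⟨⟨u, J⟩, hgJ, hminJ⟩ : ∃ p : V × Finset E, good p ∧
        ∀ q, good q → p.2.card ≤ q.2.card := by
      obtain ⟨p, hp, hmin⟩ := Finset.exists_min_image
        ((univ ×ˢ E₀.powerset).filter good) (fun p => p.2.card)
        ⟨(b e0, F.erase e0), by
          rw [Finset.mem_filter, Finset.mem_product, Finset.mem_powerset]
          exact ⟨⟨Finset.mem_univ _, hgood0.1⟩, hgood0⟩⟩
      rw [Finset.mem_filter] at hp
      refine ⟨p, hp.2, fun q hq => hmin q ?_⟩
      rw [Finset.mem_filter, Finset.mem_product, Finset.mem_powerset]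
      exact ⟨⟨Finset.mem_univ _, hq.1⟩, hq⟩
    obtain ⟨hJE, hJb⟩ := hgJ
    simp only at hJE hJb
    have hmin : ∀ u' J', J' ⊆ E₀ → (∀ v, bd a b J' v = bd a b F v + (if x0 = v then 1 else 0) +
        (if u' = v then 1 else 0)) → J.card ≤ J'.card := fun u' J' h1 h2 =>
      hminJ (u', J') ⟨h1, h2⟩
    have hne : u ≠ x0 := by
      rintro rfl
      have h1 : F.card ≤ J.card := by
        apply hF.2 J hJE
        intro v
        rw [hJb]
        have : ∀ p q : ZMod 2, p + q + q = p := by decide
        exact this _ _
      have h2 := hmin (b e0) (F.erase e0) hgood0.1 hgood0.2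
      rw [Finset.card_erase_of_mem he0] at h2
      omega
    obtain ⟨hJu, e, he, hi, huniq⟩ := one_edge hF hJE hJb hmin hne
    obtain ⟨v, hv, hvend⟩ := exists_end hi
    have hvu : v ≠ u := by
      rintro rfl
      rcases hvend with h | h
      · exact hl e (hF.1 he) (by rw [h.1, h.2])
      · exact hl e (hF.1 he) (by rw [h.1, h.2])
    -- neighbours of `u`
    let N : V → Prop := fun x => ∃ d ∈ E₀, (a d = u ∧ b d = x) ∨ (b d = u ∧ a d = x)
    have hNv : N v := ⟨e, hF.1 he, hvend⟩
    have hNc : ∀ x, N x → c x ≠ c u := by
      rintro x ⟨d, hd, (⟨h1, h2⟩ | ⟨h1, h2⟩)⟩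
      · rw [← h1, ← h2]; exact (hc d hd).symm
      · rw [← h1, ← h2]; exact hc d hd
    set E₁ := E₀.filter (fun d => ¬ inc a b d u) with hE₁
    have hE₁m : ∀ d, d ∈ E₁ ↔ d ∈ E₀ ∧ ¬ inc a b d u := by intro d; simp [hE₁]
    have hE₁E : E₁ ⊆ E₀ := Finset.filter_subset _ _
    have hE₁u : ∀ K ⊆ E₁, bd a b K u = 0 := by
      intro K hK
      unfold bd
      apply Finset.sum_eq_zero
      intro d hd
      have := ((hE₁m d).1 (hK hd)).2
      unfold inc at this
      push Not at this
      simp [this.1, this.2]
    -- paths between neighbours of `u` avoiding `u` have nonnegative weight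
    have hpath : ∀ P ⊆ E₁, ∀ x y, x ≠ y → N x → N y →
        (∀ z, bd a b P z = (if x = z then 1 else 0) + (if y = z then 1 else 0)) → 0 ≤ w F P := by
      intro P hP x y hxy hx hy hPb
      have hpick : ∀ x, N x → ∃ d ∈ E₀, inc a b d u ∧
          (∀ z, bd a b {d} z = (if u = z then 1 else 0) + (if x = z then 1 else 0)) ∧
          (d = e ∨ d ∉ F) := by
        rintro x ⟨d, hd, hdd⟩
        have hdi : inc a b d u := by
          rcases hdd with h | h
          · exact Or.inl h.1
          · exact Or.inr h.1
        refine ⟨d, hd, hdi, ?_, ?_⟩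
        · intro z
          rw [bd_singleton]
          rcases hdd with ⟨h1, h2⟩ | ⟨h1, h2⟩
          · rw [h1, h2]
          · rw [h1, h2, add_comm]
        · by_cases h : d ∈ F
          · exact Or.inl (huniq d h hdi)
          · exact Or.inr h
      obtain ⟨dx, hdx, hix, hbx, hex⟩ := hpick x hx
      obtain ⟨dy, hdy, hiy, hby, hey⟩ := hpick y hy
      have hdxP : dx ∉ P := fun h => ((hE₁m dx).1 (hP h)).2 hix
      have hdyP : dy ∉ P := fun h => ((hE₁m dy).1 (hP h)).2 hiy
      have hdxy : dx ≠ dy := by
        rintro rfl
        have h1 := hbx x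
        rw [hby x] at h1
        rw [if_pos rfl, if_neg (Ne.symm hxy)] at h1
        generalize (if u = x then (1 : ZMod 2) else 0) = A at h1
        revert h1
        revert A
        decide
      set C := insert dx (insert dy P) with hC
      have hCE : C ⊆ E₀ := by
        intro d hd
        rw [hC, Finset.mem_insert, Finset.mem_insert] at hd
        rcases hd with rfl | rfl | hd
        · exact hdx
        · exact hdy
        · exact hE₁E (hP hd)
      have hwC : w F C = (if dx ∈ F then -1 else 1) + ((if dy ∈ F then -1 else 1) + w F P) := by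
        unfold w
        rw [hC, Finset.sum_insert (by simp [hdxy, hdxP]), Finset.sum_insert hdyP]
      have hCb : ∀ z, bd a b C z = 0 := by
        intro z
        have h1 : bd a b C z = bd a b {dx} z + (bd a b {dy} z + bd a b P z) := by
          unfold bd
          rw [hC, Finset.sum_insert (by simp [hdxy, hdxP]), Finset.sum_insert hdyP]
          simp
        rw [h1, hbx, hby, hPb]
        generalize (if x = z then (1 : ZMod 2) else 0) = A
        generalize (if y = z then (1 : ZMod 2) else 0) = B
        generalize (if u = z then (1 : ZMod 2) else 0) = D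
        revert A B D
        decide
      have hwC0 := hF.w_nonneg hCE hCb
      rw [hwC] at hwC0
      by_cases hxF : dx ∈ F
      · have hxe : dx = e := huniq dx hxF hix
        have hyF : dy ∉ F := fun h => hdxy (by rw [hxe, huniq dy h hiy])
        rw [if_pos hxF, if_neg hyF] at hwC0
        linarith
      · by_cases hyF : dy ∈ F
        · rw [if_neg hxF, if_pos hyF] at hwC0
          linarith
        · rw [if_neg hxF, if_neg hyF] at hwC0 hwC
          by_contra hneg
          push Not at hneg
          -- parity
          have hpar : ((w F P : ℤ) : ZMod 2) = 0 := by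
            rw [w_parity, card_parity c (fun d hd => hc d (hE₁E (hP hd)))]
            simp only [hPb, Finset.sum_add_distrib, Finset.sum_ite_eq, Finset.mem_filter,
              Finset.mem_univ, true_and]
            have hcxy : c x = c y := by
              have h3 : ∀ p q r : Bool, p ≠ r → q ≠ r → p = q := by decide
              exact h3 _ _ _ (hNc x hx) (hNc y hy)
            rw [hcxy]
            have h3 : ∀ p : ZMod 2, p + p = 0 := by decide
            exact h3 _
          have hw2 : w F P = -2 := by
            rw [ZMod.intCast_zmod_eq_zero_iff_dvd] at hpar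
            obtain ⟨k, hk⟩ := hpar
            push_cast at hk
            omega
          have hwC2 : w F C = 0 := by rw [hwC, hw2]; norm_num
          have hcard := card_symmDiff_eq F C
          rw [hwC2, add_zero] at hcard
          have hcard' : (symmDiff F C).card = F.card := by exact_mod_cast hcard
          have hbF' : ∀ z, bd a b (symmDiff F C) z = bd a b F z := by
            intro z; rw [bd_symmDiff, hCb, add_zero]
          have hF' : IsMin a b E₀ (symmDiff F C) := by
            refine ⟨?_, ?_⟩
            · intro d hd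
              rw [Finset.mem_symmDiff] at hd
              rcases hd with hd | hd
              · exact hF.1 hd.1
              · exact hCE hd.1
            · intro J' hJ' hJb'
              rw [hcard']
              exact hF.2 J' hJ' (fun z => by rw [hJb', hbF'])
          obtain ⟨-, e', he', -, huniq'⟩ := one_edge hF' hJE
            (fun z => by rw [hbF']; exact hJb z)
            (fun u' J' h1 h2 => hmin u' J' h1 (fun z => by rw [h2, hbF'])) hne
          have h1 : e ∈ symmDiff F C := by
            rw [Finset.mem_symmDiff]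
            left
            refine ⟨he, fun h => ?_⟩
            rw [hC, Finset.mem_insert, Finset.mem_insert] at h
            rcases h with h | h | h
            · exact hxF (h ▸ he)
            · exact hyF (h ▸ he)
            · exact ((hE₁m e).1 (hP h)).2 hi
          have h2 : dx ∈ symmDiff F C := by
            rw [Finset.mem_symmDiff]
            right
            exact ⟨by simp [hC], hxF⟩
          have h3 := huniq' e h1 hi
          have h4 := huniq' dx h2 hix
          exact hxF (by rw [h4, ← h3]; exact he)
    -- all sets whose odd vertices are neighbours of `u` have nonnegative weight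
    have hset : ∀ (k : ℕ) (C : Finset E), C.card = k → C ⊆ E₁ →
        (∀ z, ¬ N z → bd a b C z = 0) → 0 ≤ w F C := by
      intro k
      induction k using Nat.strong_induction_on with
      | _ k ihk =>
        intro C hCk hC hCb
        by_cases hz : ∀ z, bd a b C z = 0
        · exact hF.w_nonneg (hC.trans hE₁E) hz
        · push Not at hz
          obtain ⟨x, hx⟩ := hz
          have hx1 : bd a b C x = 1 := by
            have : ∀ z : ZMod 2, z ≠ 0 → z = 1 := by decide
            exact this _ hx
          have hNx : N x := by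
            by_contra h; exact hx (hCb x h)
          obtain ⟨y, hyx, hr, hy1⟩ := exists_other hx1
          have hNy : N y := by
            by_contra h
            rw [hCb y h] at hy1
            exact absurd hy1 (by decide)
          obtain ⟨P, hPC, hPb⟩ := exists_join hr
          have hPne : P.Nonempty := by
            rw [Finset.nonempty_iff_ne_empty]
            rintro rfl
            have h1 := hPb x
            rw [bd_empty, if_pos rfl, if_neg hyx] at h1
            exact absurd h1 (by decide)
          have hlt : (C \ P).card < k := by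
            rw [Finset.card_sdiff_of_subset hPC]
            have := Finset.card_pos.2 hPne
            have := Finset.card_le_card hPC
            omega
          have h1 := ihk _ hlt (C \ P) rfl (Finset.sdiff_subset.trans hC) (by
            intro z hz
            have h2 := bd_sdiff (a := a) (b := b) hPC z
            have hxz : x ≠ z := fun h => hz (h ▸ hNx)
            have hyz : y ≠ z := fun h => hz (h ▸ hNy)
            rw [hCb z hz, hPb, if_neg hxz, if_neg hyz, zero_add, zero_add] at h2
            exact h2.symm)
          have h2 := hpath P (hPC.trans hC) x y (Ne.symm hyx) hNx hNy hPb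
          rw [w_sdiff hPC]
          linarith
    -- contraction
    let π : V → V := fun x => if x = u ∨ N x then u else x
    have hπu : π u = u := by simp [π]
    have hπN : ∀ x, N x → π x = u := by intro x hx; simp [π, hx]
    have hπo : ∀ x, x ≠ u → ¬ N x → π x = x := by intro x h1 h2; simp [π, h1, h2]
    have hπinc : ∀ d ∈ E₀, inc a b d u → π (a d) = u ∧ π (b d) = u := by
      rintro d hd (h | h)
      · exact ⟨by rw [h, hπu], hπN _ ⟨d, hd, Or.inl ⟨h, rfl⟩⟩⟩
      · exact ⟨hπN _ ⟨d, hd, Or.inr ⟨h, rfl⟩⟩, by rw [h, hπu]⟩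
    let c' : V → Bool := fun x => if x = u then !(c u) else c x
    have hc'π : ∀ x, x ≠ u → c' (π x) = c x := by
      intro x hx
      by_cases hNx : N x
      · rw [hπN x hNx]
        have h3 : ∀ p q : Bool, p ≠ q → (!q) = p := by decide
        simp only [c', if_true]
        exact h3 _ _ (hNc x hNx)
      · rw [hπo x hx hNx]
        simp [c', hx]
    have hcE₁ : ∀ d ∈ E₁, c' (π (a d)) ≠ c' (π (b d)) := by
      intro d hd
      obtain ⟨h1, h2⟩ := (hE₁m d).1 hd
      unfold inc at h2
      push Not at h2
      rw [hc'π _ h2.1, hc'π _ h2.2]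
      exact hc d h1
    have hbdπ : ∀ (K : Finset E) (z : V), z ≠ u → ¬ N z →
        bd (fun d => π (a d)) (fun d => π (b d)) K z = bd a b K z := by
      intro K z hz hNz
      unfold bd
      apply Finset.sum_congr rfl
      intro d _
      have h1 : ∀ x, (π x = z) ↔ (x = z) := by
        intro x
        by_cases hx : x = u ∨ N x
        · have : π x = u := by simp [π, hx]
          rw [this]
          constructor
          · intro h; exact absurd h.symm hz
          · rintro rfl
            rcases hx with h | h
            · exact absurd h hz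
            · exact absurd h hNz
        · push Not at hx
          rw [hπo x hx.1 hx.2]
      simp only [h1]
    have hFe : IsMin (fun d => π (a d)) (fun d => π (b d)) E₁ (F.erase e) := by
      refine ⟨?_, ?_⟩
      · intro d hd
        rw [Finset.mem_erase] at hd
        exact (hE₁m d).2 ⟨hF.1 hd.2, fun h => hd.1 (huniq d hd.2 h)⟩
      · intro J' hJ' hJb'
        have hFeE : F.erase e ⊆ E₁ := by
          intro d hd
          rw [Finset.mem_erase] at hd
          exact (hE₁m d).2 ⟨hF.1 hd.2, fun h => hd.1 (huniq d hd.2 h)⟩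
        set C := symmDiff (F.erase e) J' with hC
        have hCE : C ⊆ E₁ := by
          intro d hd
          rw [hC, Finset.mem_symmDiff] at hd
          rcases hd with hd | hd
          · exact hFeE hd.1
          · exact hJ' hd.1
        have h1 := hset _ C rfl hCE (by
          intro z hz
          by_cases hzu : z = u
          · rw [hzu]; exact hE₁u C hCE
          · rw [← hbdπ C z hzu hz, hC, bd_symmDiff, hJb']
            have : ∀ p : ZMod 2, p + p = 0 := by decide
            exact this _)
        have h2 : w (F.erase e) C = w F C := by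
          unfold w
          apply Finset.sum_congr rfl
          intro d hd
          have hde : d ≠ e := by
            rintro rfl
            exact ((hE₁m d).1 (hCE hd)).2 hi
          simp [hde]
        have h3 := card_symmDiff_eq (F.erase e) C
        have h4 : symmDiff (F.erase e) C = J' := by rw [hC, symmDiff_symmDiff_cancel_left]
        rw [h4, h2] at h3
        have : ((F.erase e).card : ℤ) ≤ J'.card := by linarith
        exact_mod_cast this
    obtain ⟨X, hX1, hX2⟩ := ih E₁ (F.erase e) (fun d => π (a d)) (fun d => π (b d)) c'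
      (by rw [Finset.card_erase_of_mem he]; omega) hcE₁ hFe
    have hcross : ∀ d ∈ E₀, ¬ ((a d = u) ↔ (b d = u)) → inc a b d u := by
      intro d _ h
      unfold inc
      tauto
    refine ⟨fun d x => if d = e then x = u else X d (π x), ?_, ?_⟩
    · intro d hd
      by_cases hde : d = e
      · subst hde
        simp only [if_true]
        rcases hvend with ⟨h1, h2⟩ | ⟨h1, h2⟩
        · rw [h1, h2]; simp [hvu]
        · rw [h1, h2]; simp [hvu]
      · simp only [hde, if_false]
        exact hX1 d (Finset.mem_erase.2 ⟨hde, hd⟩)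
    · intro e1 he1 e2 he2 hne12 d hd hcr
      by_cases h1 : e1 = e
      · subst h1
        have h2 : ¬ (e2 = e1) := fun h => hne12 h.symm
        simp only [if_true] at hcr
        simp only [h2, if_false]
        obtain ⟨h3, h4⟩ := hπinc d hd (hcross d hd hcr)
        rw [h3, h4]
      · simp only [h1, if_false] at hcr
        have hdi : ¬ inc a b d u := by
          intro h
          obtain ⟨h3, h4⟩ := hπinc d hd h
          rw [h3, h4] at hcr
          exact hcr Iff.rfl
        by_cases h2 : e2 = e
        · simp only [h2, if_true]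
          unfold inc at hdi
          tauto
        · simp only [h2, if_false]
          exact hX2 e1 (Finset.mem_erase.2 ⟨h1, he1⟩) e2 (Finset.mem_erase.2 ⟨h2, he2⟩) hne12 d
            ((hE₁m d).2 ⟨hd, hdi⟩) hcr

end Run7.h543.Bip
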