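import Pool.Agent.Run7.h543.Match
import Pool.Agent.Run7.h543.Bip

/-!
Graphs that become bipartite after deleting a vertex are Seymour graphs.
-/

namespace Run7.h543

open Finset

variable {V : Type*} [DecidableEq V] [Fintype V] {G : SimpleGraph V}

/-- Admissible sets satisfy the circuit inequality for all even edge sets. -/
lemma even_set_le {F : Set (Sym2 V)} (hF : Admissible G F) [DecidablePred (· ∈ F)] :
    ∀ (n : ℕ) (C : Finset (Sym2 V)), C.card = n → Edgy G C.val → (∀ v, par C.val v = 0) →
      (C.filter (· ∈ F)).card ≤ (C.filter (· ∉ F)).card := by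
  classical
  intro n
  induction n using Nat.strong_induction_on with
  | _ n ih =>
    intro C hCn hC hC0
    rcases C.eq_empty_or_nonempty with rfl | ⟨e, he⟩
    · simp
    induction e with
    | h x y =>
      have hxy : G.Adj x y := hC _ he
      set H := SimpleGraph.fromEdgeSet ((C.erase s(x, y) : Finset (Sym2 V)) : Set (Sym2 V)) with hH
      have hHadj : ∀ p q, H.Adj p q ↔ s(p, q) ∈ C.erase s(x, y) ∧ p ≠ q := by
        intro p q; rw [hH, SimpleGraph.fromEdgeSet_adj]; rfl
      have hreach : H.Reachable x y := by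
        by_contra hnr
        have h1 := cross_parity G (C.erase s(x, y)).val
          (fun e he => hC e (Finset.mem_of_mem_erase he)) {v | H.Reachable x v}
        have h2 : (C.erase s(x, y)).val.countP (· ∈ cut G {v | H.Reachable x v}) = 0 := by
          rw [Multiset.countP_eq_zero]
          rintro e' he' ⟨p, q, hp, hq, hpq, rfl⟩
          apply hq
          have h3 : H.Adj p q := (hHadj p q).2 ⟨he', hpq.ne⟩
          exact SimpleGraph.Reachable.trans hp h3.reachable
        rw [h2] at h1
        have h3 : ∀ v, par (C.erase s(x, y)).val v = (if x = v then 1 else 0) +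
            (if y = v then 1 else 0) := by
          intro v
          have h4 := hC0 v
          rw [par_val, ← Finset.add_sum_erase C _ he] at h4
          rw [par_val]
          have h5 : (if v ∈ s(x, y) then (1 : ZMod 2) else 0) = (if x = v then 1 else 0) +
              (if y = v then 1 else 0) := by
            by_cases h6 : v = x
            · subst h6; simp [hxy.ne']
            · by_cases h7 : v = y
              · subst h7; simp [hxy.ne]
              · simp [h6, h7, Ne.symm h6, Ne.symm h7]
          rw [h5] at h4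
          have h8 : ∀ p q : ZMod 2, p + q = 0 → q = p := by decide
          exact h8 _ _ h4
        simp only [h3, Finset.sum_add_distrib, Finset.sum_ite_eq, Finset.mem_filter,
          Finset.mem_univ, true_and, Set.mem_ofPred_eq, hnr, if_false] at h1
        rw [if_pos (SimpleGraph.Reachable.refl x)] at h1
        revert h1
        decide
      obtain ⟨p, hp⟩ := hreach.symm.exists_isPath
      have hHG : H ≤ G := by
        intro p q hpq
        exact hC _ (Finset.mem_of_mem_erase ((hHadj p q).1 hpq).1)
      have hpe : ∀ d ∈ p.edges, d ∈ C.erase s(x, y) := by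
        intro d hd
        have h1 := p.edges_subset_edgeSet hd
        induction d with
        | h r s => exact ((hHadj r s).1 h1).1
      set q := SimpleGraph.Walk.cons hxy (p.mapLe hHG) with hq
      have hqe : q.edges = s(x, y) :: p.edges := by
        rw [hq, SimpleGraph.Walk.edges_cons, SimpleGraph.Walk.edges_mapLe_eq_edges]
      have hqc : q.IsCycle := by
        rw [hq, SimpleGraph.Walk.cons_isCycle_iff]
        refine ⟨hp.mapLe hHG, ?_⟩
        rw [SimpleGraph.Walk.edges_mapLe_eq_edges]
        intro h1
        exact Finset.notMem_erase _ _ (hpe _ h1)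
      set D : Finset (Sym2 V) := q.edges.toFinset with hD
      have hDC : D ⊆ C := by
        intro d hd
        rw [hD, List.mem_toFinset, hqe, List.mem_cons] at hd
        rcases hd with rfl | hd
        · exact he
        · exact Finset.mem_of_mem_erase (hpe d hd)
      have hDv : D.val = (q.edges : Multiset (Sym2 V)) := by
        rw [hD, List.toFinset_val, List.dedup_eq_self.2 hqc.isTrail.edges_nodup]
      have hD0 : ∀ v, par D.val v = 0 := by
        intro v; rw [hDv]; exact par_circuit G hqc.isTrail v
      have hDne : 0 < D.card := Finset.card_pos.2 ⟨s(x, y), by rw [hD, List.mem_toFinset, hqe]; simp⟩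
      have hcard := Finset.card_sdiff_of_subset hDC
      have hle := Finset.card_le_card hDC
      have h1 := ih (C \ D).card (by omega) (C \ D) rfl
        (fun d hd => hC d (Finset.mem_sdiff.1 hd).1) (by
          intro v
          have h2 := hC0 v
          have h3 := hD0 v
          rw [par_val] at h2 h3 ⊢
          rw [← Finset.sum_sdiff hDC, h3, add_zero] at h2
          exact h2)
      have h2 := hF.2 {d | d ∈ q.edges} ⟨x, q, hqc, rfl⟩
      have e1 : {d | d ∈ q.edges} ∩ F = ((D.filter (· ∈ F) : Finset (Sym2 V)) : Set (Sym2 V)) := by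
        ext d; simp [hD]
      have e2 : {d | d ∈ q.edges} \ F = ((D.filter (· ∉ F) : Finset (Sym2 V)) : Set (Sym2 V)) := by
        ext d; simp [hD]
      rw [e1, e2, Set.ncard_coe_finset, Set.ncard_coe_finset] at h2
      have hsplit : ∀ Q : Sym2 V → Prop, [DecidablePred Q] → (C.filter Q).card
          = (D.filter Q).card + ((C \ D).filter Q).card := by
        intro Q _
        rw [← Finset.card_union_of_disjoint, ← Finset.filter_union, Finset.union_sdiff_of_subset hDC]
        exact (Finset.disjoint_filter_filter (Finset.disjoint_sdiff))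
      rw [hsplit, hsplit (· ∉ F)]
      omega

/-- Admissible sets are minimum in their parity class. -/
lemma min_of_admissible {f : Finset (Sym2 V)} (hF : Admissible G (f : Set (Sym2 V)))
    (f' : Finset (Sym2 V)) (hf' : Edgy G f'.val) (hp : ∀ v, par f'.val v = par f.val v) :
    f.card ≤ f'.card := by
  classical
  have h1 := even_set_le hF _ (symmDiff f f') rfl (by
    intro e he
    have he' : e ∈ symmDiff f f' := he
    rw [Finset.mem_symmDiff] at he'
    rcases he' with h | h
    · exact hF.1 h.1
    · exact hf' e h.1) (by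
    intro v
    rw [par_val, Bip.sum_symmDiff, ← par_val, ← par_val, hp]
    have : ∀ z : ZMod 2, z + z = 0 := by decide
    exact this _)
  have e1 : (symmDiff f f').filter (· ∈ (f : Set (Sym2 V))) = f \ f' := by
    ext e
    simp only [Finset.mem_filter, Finset.mem_symmDiff, Finset.mem_coe, Finset.mem_sdiff]
    tauto
  have e2 : (symmDiff f f').filter (· ∉ (f : Set (Sym2 V))) = f' \ f := by
    ext e
    simp only [Finset.mem_filter, Finset.mem_symmDiff, Finset.mem_coe, Finset.mem_sdiff]
    tauto
  rw [e1, e2] at h1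
  have h2 := Finset.card_sdiff_add_card_inter f f'
  have h3 := Finset.card_sdiff_add_card_inter f' f
  rw [Finset.inter_comm] at h3
  omega

/-- **Apex graphs are Seymour graphs** (a theorem of Gerards). -/
theorem apex_seymour (v : V) (c : V → Bool)
    (hc : ∀ x y, G.Adj x y → x ≠ v → y ≠ v → c x ≠ c y) : IsSeymour G := by
  classical
  intro F hF
  obtain ⟨f, hf⟩ : ∃ f : Finset (Sym2 V), (f : Set (Sym2 V)) = F := ⟨F.toFinite.toFinset, F.toFinite.coe_toFinset⟩
  subst hf
  set a : V × V → V × Bool := fun p => (p.1, true) with ha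
  set b : V × V → V × Bool := fun p => (p.2, false) with hb
  set g : V × V := (v, v) with hg
  set φ : V × V → Sym2 V := fun p => s(p.1, p.2) with hφ
  set good : V × V → Prop := fun p => G.Adj p.1 p.2 ∧ (p.1 = v ∨ c p.1 = true) ∧
    (p.2 = v ∨ c p.2 = false) with hgood
  set E₀ : Finset (V × V) := univ.filter (fun p => p = g ∨ good p) with hE₀
  have hE₀m : ∀ p, p ∈ E₀ ↔ p = g ∨ good p := by intro p; simp [hE₀]
  have hgg : ¬ good g := fun h => h.1.ne rfl
  have hinj : ∀ p q, good p → good q → φ p = φ q → p = q := by
    rintro ⟨p1, p2⟩ ⟨q1, q2⟩ ⟨h1, h2, h3⟩ ⟨k1, k2, k3⟩ h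
    simp only [hφ, Sym2.eq_iff] at h h1 h2 h3 k1 k2 k3
    rcases h with ⟨rfl, rfl⟩ | ⟨rfl, rfl⟩
    · rfl
    · exfalso
      rcases h2 with h2 | h2
      · subst h2
        rcases h3 with h3 | h3
        · exact h1.ne h3.symm
        · rcases k2 with k2 | k2
          · exact h1.ne k2.symm
          · rw [h3] at k2; exact absurd k2 (by simp)
      · rcases k3 with k3 | k3
        · subst k3
          rcases h3 with h3 | h3
          · exact h1.ne h3.symm
          · rcases k2 with k2 | k2
            · exact h1.ne k2.symm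
            · rw [h3] at k2; exact absurd k2 (by simp)
        · rw [h2] at k3; exact absurd k3 (by simp)
  have hsurj : ∀ e ∈ G.edgeSet, ∃ p, good p ∧ φ p = e := by
    intro e he
    induction e with
    | h x y =>
      have hxy : G.Adj x y := he
      by_cases hx : x = v
      · have hy : y ≠ v := fun h => hxy.ne (hx.trans h.symm)
        cases hcy : c y with
        | false => exact ⟨(x, y), ⟨hxy, Or.inl hx, Or.inr hcy⟩, rfl⟩
        | true => exact ⟨(y, x), ⟨hxy.symm, Or.inr hcy, Or.inl hx⟩, Sym2.eq_swap⟩
      · by_cases hy : y = v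
        · cases hcx : c x with
          | false => exact ⟨(y, x), ⟨hxy.symm, Or.inl hy, Or.inr hcx⟩, Sym2.eq_swap⟩
          | true => exact ⟨(x, y), ⟨hxy, Or.inr hcx, Or.inl hy⟩, rfl⟩
        · have h1 := hc x y hxy hx hy
          cases hcx : c x with
          | false =>
            have hcy : c y = true := by
              cases h2 : c y with
              | false => rw [hcx, h2] at h1; exact absurd rfl h1
              | true => rfl
            exact ⟨(y, x), ⟨hxy.symm, Or.inr hcy, Or.inr hcx⟩, Sym2.eq_swap⟩
          | true =>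
            have hcy : c y = false := by
              cases h2 : c y with
              | false => rfl
              | true => rw [hcx, h2] at h1; exact absurd rfl h1
            exact ⟨(x, y), ⟨hxy, Or.inr hcx, Or.inr hcy⟩, rfl⟩
  set Fh : Finset (V × V) := univ.filter (fun p => good p ∧ φ p ∈ f) with hFh
  have hFhm : ∀ p, p ∈ Fh ↔ good p ∧ φ p ∈ f := by intro p; simp [hFh]
  have hgF : g ∉ Fh := fun h => hgg ((hFhm g).1 h).1
  have hFhc : Fh.card = f.card := by
    apply Finset.card_bij (fun p _ => φ p)
    · intro p hp; exact ((hFhm p).1 hp).2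
    · intro p hp q hq h; exact hinj p q ((hFhm p).1 hp).1 ((hFhm q).1 hq).1 h
    · intro e he
      obtain ⟨p, hp, hpe⟩ := hsurj e (hF.1 he)
      exact ⟨p, (hFhm p).2 ⟨hp, by rw [hpe]; exact he⟩, hpe⟩
  set F2 : Finset (V × V) := insert g Fh with hF2
  have hF2c : F2.card = f.card + 1 := by
    rw [hF2, Finset.card_insert_of_notMem hgF, hFhc]
  -- projecting boundaries
  have hproj : ∀ (J : Finset (V × V)), (∀ p ∈ J, good p) → ∀ x,
      par (J.image φ).val x = Bip.bd a b J (x, true) + Bip.bd a b J (x, false) := by
    intro J hJ x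
    rw [par_val, Finset.sum_image (fun p hp q hq h => hinj p q (hJ p hp) (hJ q hq) h)]
    unfold Bip.bd
    rw [← Finset.sum_add_distrib]
    apply Finset.sum_congr rfl
    rintro ⟨p1, p2⟩ hp
    have hne : p1 ≠ p2 := (hJ _ hp).1.ne
    simp only [hφ, ha, hb, Prod.mk.injEq, and_true, Bool.false_eq_true, Bool.true_eq_false,
      and_false, if_false, add_zero, zero_add]
    by_cases h1 : x = p1
    · subst h1; simp [hne.symm]
    · by_cases h2 : x = p2
      · subst h2; simp [hne]
      · simp [h1, h2, Ne.symm h1, Ne.symm h2]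
  have hE₀c : ∀ e ∈ E₀, (fun z : V × Bool => z.2) (a e) ≠ (fun z : V × Bool => z.2) (b e) := by
    intro e _; simp [ha, hb]
  have hFhE : F2 ⊆ E₀ := by
    intro p hp
    rw [hF2, Finset.mem_insert] at hp
    rw [hE₀m]
    rcases hp with h | h
    · exact Or.inl h
    · exact Or.inr ((hFhm p).1 h).1
  have hgsum : ∀ (J : Finset (V × V)) x, Bip.bd a b J (x, true) + Bip.bd a b J (x, false)
      = Bip.bd a b (J.erase g) (x, true) + Bip.bd a b (J.erase g) (x, false) := by
    intro J x
    by_cases h : g ∈ J
    · rw [Bip.bd_erase h, Bip.bd_erase h, Bip.bd_singleton, Bip.bd_singleton]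
      simp only [ha, hb, hg, Prod.mk.injEq, and_true, Bool.false_eq_true, Bool.true_eq_false,
        and_false, if_false, add_zero, zero_add]
      have : ∀ p q r : ZMod 2, p + q = p + r + (q + r) := by decide
      exact this _ _ _
    · rw [Finset.erase_eq_of_notMem h]
  have hmin : Bip.IsMin a b E₀ F2 := by
    refine ⟨hFhE, ?_⟩
    intro J hJ hJb
    have hJg : ∀ p ∈ J.erase g, good p := by
      intro p hp
      rw [Finset.mem_erase] at hp
      rcases (hE₀m p).1 (hJ hp.2) with h | h
      · exact absurd h hp.1
      · exact h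
    have h1 : f.card ≤ (J.erase g).card := by
      have hinjJ : (J.erase g).card = ((J.erase g).image φ).card := by
        rw [Finset.card_image_of_injOn (fun p hp q hq h =>
          hinj p q (hJg p hp) (hJg q hq) h)]
      rw [hinjJ]
      apply min_of_admissible hF
      · intro e he
        obtain ⟨p, hp, rfl⟩ := Finset.mem_image.1 (show e ∈ (J.erase g).image φ from he)
        exact (hJg p hp).1
      · intro x
        rw [hproj _ hJg, ← hgsum, hJb, hJb, hgsum]
        have h2 : F2.erase g = Fh := by rw [hF2, Finset.erase_insert hgF]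
        rw [h2, ← hproj Fh (fun p hp => ((hFhm p).1 hp).1)]
        have h3 : Fh.image φ = f := by
          ext e
          rw [Finset.mem_image]
          constructor
          · rintro ⟨p, hp, rfl⟩; exact ((hFhm p).1 hp).2
          · intro he
            obtain ⟨p, hp, hpe⟩ := hsurj e (hF.1 he)
            exact ⟨p, (hFhm p).2 ⟨hp, by rw [hpe]; exact he⟩, hpe⟩
        rw [h3]
    have h2 : (J.card : ZMod 2) = (F2.card : ZMod 2) := by
      rw [Bip.card_parity (fun z : V × Bool => z.2) (a := a) (b := b)
          (fun e he => hE₀c e (hJ he)),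
        Bip.card_parity (fun z : V × Bool => z.2) (a := a) (b := b)
          (fun e he => hE₀c e (hFhE he))]
      simp only [hJb]
    have h3 : (J.erase g).card ≤ J.card := Finset.card_erase_le
    rw [hF2c] at h2 ⊢
    by_contra h4
    have h5 : J.card = f.card := by omega
    rw [h5] at h2
    push_cast at h2
    have h6 : ∀ z : ZMod 2, z ≠ z + 1 := by decide
    exact h6 _ h2
  obtain ⟨X, hX1, hX2⟩ := Bip.packing _ E₀ F2 a b (fun z : V × Bool => z.2) rfl hE₀c hmin
  have hgF2 : g ∈ F2 := by simp [hF2]
  have hFF2 : ∀ p ∈ Fh, p ∈ F2 := fun p hp => by rw [hF2]; exact Finset.mem_insert_of_mem hp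
  have hgE : g ∈ E₀ := (hE₀m g).2 (Or.inl rfl)
  have hvv : ∀ p ∈ Fh, (X p (v, true) ↔ X p (v, false)) := by
    intro p hp
    exact hX2 g hgF2 p (hFF2 p hp) (fun h => hgF (h ▸ hp)) g hgE (hX1 g hgF2)
  -- the sets in `G`
  let τ : V → Bool := fun x => if x = v then true else c x
  let Y : V × V → Set V := fun p => {x | X p (x, τ x)}
  have hY1 : ∀ p ∈ Fh, ∀ x, (x = v ∨ c x = true) → (X p (x, true) ↔ x ∈ Y p) := by
    intro p _ x hx
    have : τ x = true := by
      simp only [τ]
      rcases hx with h | h
      · simp [h]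
      · simp [h]
    simp only [Y, Set.mem_ofPred_eq, this]
  have hY2 : ∀ p ∈ Fh, ∀ x, (x = v ∨ c x = false) → (X p (x, false) ↔ x ∈ Y p) := by
    intro p hp x hx
    by_cases hxv : x = v
    · subst hxv
      rw [← hvv p hp]
      exact hY1 p hp x (Or.inl rfl)
    · have h1 : c x = false := by tauto
      have : τ x = false := by simp [τ, hxv, h1]
      simp only [Y, Set.mem_ofPred_eq, this]
  have hcut : ∀ p ∈ Fh, ∀ q, good q → (φ q ∈ cut G (Y p) ↔ ¬ (X p (a q) ↔ X p (b q))) := by
    intro p hp q hq
    have h1 := hY1 p hp q.1 hq.2.1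
    have h2 := hY2 p hp q.2 hq.2.2
    simp only [hφ]
    rw [mem_cut_iff hq.1]
    simp only [ha, hb]
    tauto
  have hn : (f : Set (Sym2 V)).ncard = f.card := Set.ncard_coe_finset f
  have hex : ∀ i : Fin (f : Set (Sym2 V)).ncard, ∃ p, p ∈ Fh ∧
      p = (Fh.equivFin.symm (Fin.cast (hn.trans hFhc.symm) i) : V × V) := by
    intro i
    exact ⟨_, (Fh.equivFin.symm (Fin.cast (hn.trans hFhc.symm) i)).2, rfl⟩
  choose P hPF hPe using hex
  have hPinj : ∀ i j, P i = P j → i = j := by
    intro i j h
    rw [hPe i, hPe j] at h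
    have h1 := Fh.equivFin.symm.injective (Subtype.ext h)
    simpa using h1
  refine ⟨fun i => Y (P i), ?_, ?_⟩
  · intro i
    have hp := hPF i
    have h1 : cut G (Y (P i)) ∩ (f : Set (Sym2 V)) = {φ (P i)} := by
      ext e
      rw [Set.mem_inter_iff, Set.mem_singleton_iff]
      constructor
      · rintro ⟨h1, h2⟩
        obtain ⟨q, hq, rfl⟩ := hsurj e (hF.1 h2)
        have hqF : q ∈ Fh := (hFhm q).2 ⟨hq, h2⟩
        rw [hcut _ hp q hq] at h1
        by_contra hne
        have hqp : P i ≠ q := fun h => hne (by rw [h])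
        exact hX1 q (hFF2 q hqF) (hX2 (P i) (hFF2 _ hp) q (hFF2 q hqF) hqp q
          (hFhE (hFF2 q hqF)) h1)
      · rintro rfl
        refine ⟨?_, ((hFhm _).1 hp).2⟩
        rw [hcut _ hp _ ((hFhm _).1 hp).1]
        exact hX1 _ (hFF2 _ hp)
    rw [h1, Set.ncard_singleton]
  · intro i j hij
    rw [Set.disjoint_left]
    intro e he he'
    have heG : e ∈ G.edgeSet := by
      obtain ⟨x, y, -, -, hxy, rfl⟩ := he
      exact hxy
    obtain ⟨q, hq, rfl⟩ := hsurj e heG
    rw [hcut _ (hPF i) q hq] at he
    rw [hcut _ (hPF j) q hq] at he'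
    exact he' (hX2 (P i) (hFF2 _ (hPF i)) (P j) (hFF2 _ (hPF j)) (fun h => hij (hPinj i j h)) q
      ((hE₀m q).2 (Or.inr hq)) he)

end Run7.h543
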