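import Mathlib

/-!
A rerouting lemma for connected bipartite hypergraphs.
-/

namespace Run7.h543

open Finset

variable {A B : Type*} [DecidableEq A] [DecidableEq B]

/-- the invariant -/
def ThetaInv (SA : Finset A) (r : B → A → Prop) (B' : Finset B) : Prop :=
  ∃ A' ⊆ SA, A'.Nonempty ∧ (∀ b ∈ B', ∀ a ∈ SA, r b a → a ∈ A') ∧ ∃ T0 : A → ZMod 2,
    ∀ a ∈ A', ∃ φ : B → A, (∀ b ∈ B', φ b ∈ A' ∧ r b (φ b)) ∧
      ∀ x, (∑ b ∈ B', if φ b = x then (1 : ZMod 2) else 0) = T0 x + if a = x then 1 else 0

lemma theta_extend (SA : Finset A) (r : B → A → Prop) (B' : Finset B) (b : B) (hb : b ∉ B')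
    (A' : Finset A) (hA' : A' ⊆ SA) (hcl : ∀ b ∈ B', ∀ a ∈ SA, r b a → a ∈ A')
    (T0 : A → ZMod 2)
    (hT : ∀ a ∈ A', ∃ φ : B → A, (∀ b ∈ B', φ b ∈ A' ∧ r b (φ b)) ∧
      ∀ x, (∑ b ∈ B', if φ b = x then (1 : ZMod 2) else 0) = T0 x + if a = x then 1 else 0)
    (x0 : A) (hx0 : x0 ∈ A') (hr : r b x0) : ThetaInv SA r (insert b B') := by
  classical
  refine ⟨A' ∪ SA.filter (r b), ?_, ⟨x0, by simp [hx0]⟩, ?_,
    fun x => T0 x + if x0 = x then 1 else 0, ?_⟩
  · intro a ha
    rcases Finset.mem_union.1 ha with h | h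
    · exact hA' h
    · exact (Finset.mem_filter.1 h).1
  · intro b' hb' a ha hra
    rcases Finset.mem_insert.1 hb' with rfl | h
    · exact Finset.mem_union_right _ (Finset.mem_filter.2 ⟨ha, hra⟩)
    · exact Finset.mem_union_left _ (hcl b' h a ha hra)
  · intro a ha
    have key : ∀ (φ : B → A) (c : A) (y : A),
        (∑ b' ∈ insert b B', if Function.update φ b c b' = y then (1 : ZMod 2) else 0)
        = (if c = y then 1 else 0) + ∑ b' ∈ B', if φ b' = y then (1 : ZMod 2) else 0 := by
      intro φ c y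
      rw [Finset.sum_insert hb]
      congr 1
      · simp
      · apply Finset.sum_congr rfl
        intro b' hb'
        have : b' ≠ b := fun h => hb (h ▸ hb')
        rw [Function.update_of_ne this]
    by_cases hra : r b a
    · obtain ⟨φ, h1, h2⟩ := hT x0 hx0
      refine ⟨Function.update φ b a, ?_, ?_⟩
      · intro b' hb'
        rcases Finset.mem_insert.1 hb' with rfl | h
        · rw [Function.update_self]
          exact ⟨ha, hra⟩
        · have : b' ≠ b := fun h' => hb (h' ▸ h)
          rw [Function.update_of_ne this]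
          exact ⟨Finset.mem_union_left _ (h1 b' h).1, (h1 b' h).2⟩
      · intro y
        rw [key, h2 y]
        ring
    · have ha' : a ∈ A' := by
        rcases Finset.mem_union.1 ha with h | h
        · exact h
        · exact absurd (Finset.mem_filter.1 h).2 hra
      obtain ⟨φ, h1, h2⟩ := hT a ha'
      refine ⟨Function.update φ b x0, ?_, ?_⟩
      · intro b' hb'
        rcases Finset.mem_insert.1 hb' with rfl | h
        · rw [Function.update_self]
          exact ⟨Finset.mem_union_left _ hx0, hr⟩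
        · have : b' ≠ b := fun h' => hb (h' ▸ h)
          rw [Function.update_of_ne this]
          exact ⟨Finset.mem_union_left _ (h1 b' h).1, (h1 b' h).2⟩
      · intro y
        rw [key, h2 y]
        ring

/-- In a connected bipartite hypergraph there is one parity vector `T0` such that for every `a`
some choice function has parity vector `T0 + [a]`. -/
theorem theta (SB : Finset B) (SA : Finset A) (r : B → A → Prop)
    (hne : ∀ b ∈ SB, ∃ a ∈ SA, r b a) (hA : SA.Nonempty)
    (hconn : ∀ A' ⊆ SA, A'.Nonempty →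
      (∀ b ∈ SB, (∀ a ∈ SA, r b a → a ∈ A') ∨ (∀ a ∈ A', ¬ r b a)) → A' = SA) :
    ∃ T0 : A → ZMod 2, ∀ a ∈ SA, ∃ φ : B → A, (∀ b ∈ SB, φ b ∈ SA ∧ r b (φ b)) ∧
      ∀ x, (∑ b ∈ SB, if φ b = x then (1 : ZMod 2) else 0) = T0 x + if a = x then 1 else 0 := by
  classical
  have hbase : ThetaInv SA r (∅ : Finset B) := by
    obtain ⟨a0, ha0⟩ := hA
    refine ⟨{a0}, by simpa using ha0, ⟨a0, by simp⟩, by simp, fun x => if a0 = x then 1 else 0, ?_⟩
    intro a ha
    rw [Finset.mem_singleton] at ha
    subst ha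
    refine ⟨fun _ => a, by simp, ?_⟩
    intro x
    have : ∀ y : ZMod 2, 0 = y + y := by decide
    simp only [Finset.sum_empty]
    exact this _
  obtain ⟨B', hB', hmax⟩ := Finset.exists_max_image
    (SB.powerset.filter (fun B' => ThetaInv SA r B')) (fun B' => B'.card)
    ⟨∅, by simp [hbase]⟩
  rw [Finset.mem_filter, Finset.mem_powerset] at hB'
  obtain ⟨hsub, A', hA', hne', hcl, T0, hT⟩ := hB'
  have hext : ∀ b ∈ SB, b ∉ B' → ∀ a ∈ A', ¬ r b a := by
    intro b hb hbB' a ha hra
    have h1 := theta_extend SA r B' b hbB' A' hA' hcl T0 hT a ha hra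
    have h2 := hmax (insert b B') (by
      rw [Finset.mem_filter, Finset.mem_powerset]
      exact ⟨Finset.insert_subset hb hsub, h1⟩)
    rw [Finset.card_insert_of_notMem hbB'] at h2
    omega
  have hAeq : A' = SA := by
    apply hconn A' hA' hne'
    intro b hb
    by_cases h : b ∈ B'
    · exact Or.inl (hcl b h)
    · exact Or.inr (hext b hb h)
  subst hAeq
  have hBeq : B' = SB := by
    apply Finset.Subset.antisymm hsub
    intro b hb
    by_contra h
    obtain ⟨a, ha, hra⟩ := hne b hb
    exact hext b hb h a ha hra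
  subst hBeq
  exact ⟨T0, hT⟩

end Run7.h543
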