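import Pool.Agent.Run7.h543.Match
import Pool.Agent.Run7.h543.Theta

/-!
The cell colouring lemma.
-/

namespace Run7.h543

open Finset

variable {V : Type*} [DecidableEq V]

lemma ite_mem_mk {a b : V} (h : a ≠ b) (v : V) :
    (if v ∈ s(a, b) then (1 : ZMod 2) else 0)
      = (if a = v then 1 else 0) + (if b = v then 1 else 0) := by
  by_cases h3 : v = a
  · subst h3
    simp [h.symm]
  · by_cases h4 : v = b
    · subst h4
      simp [h]
    · simp [h3, h4, Ne.symm h3, Ne.symm h4, Sym2.mem_iff]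

lemma ite_erase (C : Finset V) (u : V) (hu : u ∈ C) (v : V) :
    (if u = v then (1 : ZMod 2) else 0) + (if v ∈ C.erase u then 1 else 0)
      = if v ∈ C then 1 else 0 := by
  by_cases h : u = v
  · subst h; simp [hu]
  · have h' : v ≠ u := fun h2 => h h2.symm
    simp [h, h']

/-- lower bound for the size of joins that are odd on all members of a family of cells -/
lemma cells_lower [Fintype V] (G : SimpleGraph V) (A : Finset V) (K : Finset (Finset V))
    (hdisj : ∀ C ∈ K, Disjoint C A) (hodd : ∀ C ∈ K, Odd C.card)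
    (hpw : ∀ C ∈ K, ∀ D ∈ K, C ≠ D → Disjoint C D)
    (hcl : ∀ C ∈ K, ∀ x ∈ C, ∀ y, G.Adj x y → y ∈ C ∨ y ∈ A)
    (m : Multiset (Sym2 V)) (hm : Edgy G m) (hpar : ∀ C ∈ K, ∀ v ∈ C, par m v = 1) :
    ∑ C ∈ K, (C.card + 1) ≤ 2 * m.card := by
  classical
  have h1 : ∀ C ∈ K, C.card + 1 ≤ 2 * (m.filter (fun e => ∃ v ∈ C, v ∈ e)).card := by
    intro C hC
    have h2 : C.card ≤ 2 * (m.filter (fun e => ∃ v ∈ C, v ∈ e)).card := by
      apply card_le_of_par (G := G)
      · intro e he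
        exact hm e (Multiset.mem_filter.1 he).1
      · intro v hv
        have h3 : dg (m.filter (fun e => ∃ v ∈ C, v ∈ e)) v = dg m v := by
          unfold dg
          rw [Multiset.countP_filter]
          apply Multiset.countP_congr rfl
          intro e _
          simp only [eq_iff_iff, and_iff_left_iff_imp]
          intro h; exact ⟨v, hv, h⟩
        unfold par
        rw [h3]
        exact hpar C hC v hv
    have h3 := hodd C hC
    obtain ⟨k, hk⟩ := h3
    omega
  have h2 : ∑ C ∈ K, (m.filter (fun e => ∃ v ∈ C, v ∈ e)).card ≤ m.card := by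
    clear hpar h1
    induction m using Multiset.induction_on with
    | empty => simp
    | cons e m ih =>
      have hm' : Edgy G m := fun e' he' => hm e' (Multiset.mem_cons_of_mem he')
      have he : e ∈ G.edgeSet := hm e (Multiset.mem_cons_self e m)
      have ih' := ih hm'
      have h3 : ∀ C : Finset V, ((e ::ₘ m).filter (fun e => ∃ v ∈ C, v ∈ e)).card
          = (m.filter (fun e => ∃ v ∈ C, v ∈ e)).card + if (∃ v ∈ C, v ∈ e) then 1 else 0 := by
        intro C
        rw [← Multiset.countP_eq_card_filter, ← Multiset.countP_eq_card_filter,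
          Multiset.countP_cons]
      simp only [h3, Finset.sum_add_distrib, Multiset.card_cons]
      have h4 : ∑ C ∈ K, (if (∃ v ∈ C, v ∈ e) then 1 else 0) ≤ 1 := by
        rw [← Finset.card_filter, Finset.card_le_one]
        intro C hC D hD
        rw [Finset.mem_filter] at hC hD
        obtain ⟨hC, v, hv, hve⟩ := hC
        obtain ⟨hD, w, hw, hwe⟩ := hD
        by_contra hne
        have hCD := Finset.disjoint_left.1 (hpw C hC D hD hne)
        have hvw : v ≠ w := fun h => hCD hv (h ▸ hw)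
        have he' : e = s(v, w) := ((Sym2.mem_and_mem_iff hvw).1 ⟨hve, hwe⟩)
        rw [he'] at he
        rcases hcl C hC v hv w he with h | h
        · exact hCD h hw
        · exact Finset.disjoint_left.1 (hdisj D hD) hw h
      omega
  calc ∑ C ∈ K, (C.card + 1) ≤ ∑ C ∈ K, 2 * (m.filter (fun e => ∃ v ∈ C, v ∈ e)).card :=
        Finset.sum_le_sum h1
    _ = 2 * ∑ C ∈ K, (m.filter (fun e => ∃ v ∈ C, v ∈ e)).card := by rw [Finset.mul_sum]
    _ ≤ 2 * m.card := by omega

/-- **Cell colouring lemma.** -/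
theorem cell_coloring [Fintype V] (G : SimpleGraph V) (hS : IsSeymour G)
    (A : Finset V) (K : Finset (Finset V)) (C0 : Finset V) (hC0 : C0 ∈ K)
    (hdisj : ∀ C ∈ K, Disjoint C A) (hodd : ∀ C ∈ K, Odd C.card)
    (hpw : ∀ C ∈ K, ∀ D ∈ K, C ≠ D → Disjoint C D)
    (hcl : ∀ C ∈ K, ∀ x ∈ C, ∀ y, G.Adj x y → y ∈ C ∨ y ∈ A)
    (hnear : ∀ C ∈ K, ∀ c ∈ C, ∃ f, IsPM G (C.erase c) f)
    (hconn : ∀ A' ⊆ A, A'.Nonempty →
      (∀ C ∈ K.erase C0, (∀ s ∈ A, (∃ x ∈ C, G.Adj x s) → s ∈ A') ∨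
        (∀ s ∈ A', ¬ ∃ x ∈ C, G.Adj x s)) → A' = A)
    (hne : ∀ C ∈ K.erase C0, ∃ s ∈ A, ∃ x ∈ C, G.Adj x s) (hA : A.Nonempty) :
    ∃ χ : V → Bool, ∀ u ∈ C0, ∀ s ∈ A, G.Adj u s → χ u ≠ χ s ∧
      ∀ f, IsPM G (C0.erase u) f → ∀ v ∈ C0.erase u, χ v ≠ χ (f v) := by
  classical
  obtain ⟨T0, hT0⟩ := theta (K.erase C0) A (fun C s => ∃ x ∈ C, G.Adj x s) hne hA hconn
  have hT0A : ∀ v, v ∉ A → T0 v = 0 := by
    intro v hv
    obtain ⟨a, ha⟩ := hA
    obtain ⟨φ, h1, h2⟩ := hT0 a ha
    have h3 := h2 v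
    have h4 : a ≠ v := fun h => hv (h ▸ ha)
    rw [if_neg h4, add_zero, Finset.sum_eq_zero] at h3
    · exact h3.symm
    · intro C hC
      have : φ C ≠ v := fun h => hv (h ▸ (h1 C hC).1)
      rw [if_neg this]
  set T : V → ZMod 2 := fun v => T0 v + ∑ C ∈ K, if v ∈ C then 1 else 0 with hT
  have hT1 : ∀ C ∈ K, ∀ v ∈ C, T v = 1 := by
    intro C hC v hv
    have h1 : v ∉ A := Finset.disjoint_left.1 (hdisj C hC) hv
    have h2 : ∑ D ∈ K, (if v ∈ D then (1 : ZMod 2) else 0) = 1 := by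
      rw [Finset.sum_eq_single C]
      · rw [if_pos hv]
      · intro D hD hne
        rw [if_neg (fun h => Finset.disjoint_left.1 (hpw D hD C hC hne) h hv)]
      · intro h; exact absurd hC h
    rw [hT]
    simp only [hT0A v h1, h2]
    simp
  obtain ⟨χ, hχ⟩ := coloring G hS T (∑ C ∈ K, (C.card + 1)) (fun m hm hp =>
    cells_lower G A K hdisj hodd hpw hcl m hm (fun C hC v hv => by rw [hp v, hT1 C hC v hv]))
  refine ⟨χ, fun u hu s hs hus => ?_⟩
  -- the join for a given matching of `C0 - u`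
  have key : ∀ f, IsPM G (C0.erase u) f → χ u ≠ χ s ∧ ∀ v ∈ C0.erase u, χ v ≠ χ (f v) := by
    intro f hf
    obtain ⟨mu, hmuE, hmuP, hmuC, hmuM⟩ := hf.exists_multiset
    obtain ⟨φ, hφ1, hφ2⟩ := hT0 s hs
    have hex : ∀ C ∈ K.erase C0, ∃ x : V, ∃ M : Multiset (Sym2 V), x ∈ C ∧ G.Adj x (φ C) ∧
        Edgy G M ∧ (∀ v, par M v = if v ∈ C.erase x then 1 else 0) ∧
        2 * M.card = (C.erase x).card := by
      intro C hC
      obtain ⟨x, hx, hxa⟩ := (hφ1 C hC).2
      obtain ⟨g, hg⟩ := hnear C (Finset.mem_of_mem_erase hC) x hx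
      obtain ⟨M, h1, h2, h3, -⟩ := hg.exists_multiset
      exact ⟨x, M, hx, hxa, h1, h2, h3⟩
    have : Nonempty V := ⟨u⟩
    choose! x M hx hxa hME hMP hMC using hex
    have hm := hχ ((s(u, s) ::ₘ mu) + ∑ C ∈ K.erase C0, (s(x C, φ C) ::ₘ M C)) ?_ ?_ ?_
    · constructor
      · exact hm u s (by simp)
      · intro v hv
        exact hm v (f v) (by simp [hmuM v hv])
    · refine Edgy.add (hmuE.cons hus) (Edgy.sum (fun C hC => (hME C hC).cons (hxa C hC)))
    · intro v
      rw [par_add, par_cons, par_sum, hmuP, ite_mem_mk hus.ne]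
      have h1 : ∀ C ∈ K.erase C0, par (s(x C, φ C) ::ₘ M C) v
          = (if v ∈ C then 1 else 0) + if φ C = v then 1 else 0 := by
        intro C hC
        rw [par_cons, ite_mem_mk (hxa C hC).ne, hMP C hC, ← ite_erase C (x C) (hx C hC) v]
        ring
      rw [Finset.sum_congr rfl h1, Finset.sum_add_distrib, hφ2 v]
      have h2 : T v = T0 v + ((if v ∈ C0 then 1 else 0) +
          ∑ C ∈ K.erase C0, if v ∈ C then 1 else 0) := by
        rw [hT]
        simp only
        rw [Finset.add_sum_erase K (fun C => if v ∈ C then (1 : ZMod 2) else 0) hC0]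
      rw [h2, ← ite_erase C0 u hu v]
      have h3 : ∀ y : ZMod 2, y + y = 0 := by decide
      have h4 := h3 (if s = v then 1 else 0)
      linear_combination h4
    · rw [Multiset.card_add, Multiset.card_cons, Multiset.card_sum,
        ← Finset.add_sum_erase K _ hC0]
      have h1 : ∀ C ∈ K.erase C0, 2 * (s(x C, φ C) ::ₘ M C).card = C.card + 1 := by
        intro C hC
        rw [Multiset.card_cons, mul_add, hMC C hC, Finset.card_erase_of_mem (hx C hC)]
        have : 0 < C.card := Finset.card_pos.2 ⟨x C, hx C hC⟩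
        omega
      rw [mul_add, Finset.mul_sum, Finset.sum_congr rfl h1, mul_add, hmuC,
        Finset.card_erase_of_mem hu]
      have : 0 < C0.card := Finset.card_pos.2 ⟨u, hu⟩
      omega
  obtain ⟨f0, hf0⟩ := hnear C0 hC0 u hu
  exact ⟨(key f0 hf0).1, fun f hf => (key f hf).2⟩

end Run7.h543
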