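import Mathlib

/-!
Definitions for Seymour graphs.
-/

namespace Run7.h543

variable {V : Type*}

/-- A circuit of `G`: the edge set of a cycle of `G`. -/
def IsCircuit (G : SimpleGraph V) (C : Set (Sym2 V)) : Prop :=
  ∃ (v : V) (p : G.Walk v v), p.IsCycle ∧ C = {e | e ∈ p.edges}

/-- The cut `δ(X)` of `G`: the edges of `G` with exactly one end in `X`. -/
def cut (G : SimpleGraph V) (X : Set V) : Set (Sym2 V) :=
  {e | ∃ x y, x ∈ X ∧ y ∉ X ∧ G.Adj x y ∧ e = s(x, y)}

/-- An admissible edge set: every circuit `C` has `|C ∩ F| ≤ |C \ F|`. -/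
def Admissible (G : SimpleGraph V) (F : Set (Sym2 V)) : Prop :=
  F ⊆ G.edgeSet ∧ ∀ C, IsCircuit G C → (C ∩ F).ncard ≤ (C \ F).ncard

/-- A Seymour graph: for every admissible `F` there are `|F|` pairwise disjoint cuts, each of
which contains exactly one edge of `F`. -/
def IsSeymour (G : SimpleGraph V) : Prop :=
  ∀ F, Admissible G F → ∃ X : Fin F.ncard → Set V,
    (∀ i, (cut G (X i) ∩ F).ncard = 1) ∧
      ∀ i j, i ≠ j → Disjoint (cut G (X i)) (cut G (X j))

/-- `k`-connectedness: more than `k` vertices, and deleting fewer than `k` vertices leaves a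
connected graph. -/
def IsKConnected (G : SimpleGraph V) (k : ℕ) : Prop :=
  k < Nat.card V ∧ ∀ X : Set V, X.ncard < k → (G.induce Xᶜ).Connected

end Run7.h543
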