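import Pool.Agent.Run7.h543.Viol

/-!
A 4-connected Seymour graph becomes bipartite after deleting some vertex.
-/

namespace Run7.h543

open Finset

variable {V : Type*} [DecidableEq V] [Fintype V] {G : SimpleGraph V}

omit [Fintype V] in
lemma isPM_pair {p q : V} (h : G.Adj p q) :
    IsPM G {p, q} (fun v => if v = p then q else p) := by
  have hne := h.ne
  intro v hv
  rw [Finset.mem_insert, Finset.mem_singleton] at hv
  rcases hv with rfl | rfl
  · simp [hne.symm, h]
  · simp [hne.symm, h.symm]

omit [Fintype V] in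
lemma erase_three {x y z : V} (hxy : x ≠ y) (hxz : x ≠ z) (hyz : y ≠ z) :
    ({x, y, z} : Finset V).erase x = {y, z} ∧ ({x, y, z} : Finset V).erase y = {x, z} ∧
      ({x, y, z} : Finset V).erase z = {x, y} := by
  refine ⟨?_, ?_, ?_⟩
  · ext v; simp only [Finset.mem_erase, Finset.mem_insert, Finset.mem_singleton]
    constructor
    · tauto
    · rintro (rfl | rfl)
      · exact ⟨hxy.symm, by tauto⟩
      · exact ⟨hxz.symm, by tauto⟩
  · ext v; simp only [Finset.mem_erase, Finset.mem_insert, Finset.mem_singleton]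
    constructor
    · tauto
    · rintro (rfl | rfl)
      · exact ⟨hxy, by tauto⟩
      · exact ⟨hyz.symm, by tauto⟩
  · ext v; simp only [Finset.mem_erase, Finset.mem_insert, Finset.mem_singleton]
    constructor
    · tauto
    · rintro (rfl | rfl)
      · exact ⟨hxz, by tauto⟩
      · exact ⟨hyz, by tauto⟩

/-- A triangle containing all monochromatic edges is impossible. -/
theorem no_triangle (hS : IsSeymour G) (h4 : Sep 4 G) (hn : 5 ≤ Fintype.card V) (c : V → Bool)
    {x y z : V} (hxy : G.Adj x y) (hxz : G.Adj x z) (hyz : G.Adj y z) (cxy : c x = c y)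
    (cxz : c x = c z) (hbad : ∀ a b, G.Adj a b → c a = c b → a = x ∨ a = y ∨ a = z) : False := by
  classical
  set C0 : Finset V := {x, y, z} with hC0
  have hC0m : ∀ v, v ∈ C0 ↔ v = x ∨ v = y ∨ v = z := by intro v; simp [hC0]
  have hC0c : ∀ v ∈ C0, c v = c x := by
    intro v hv
    rcases (hC0m v).1 hv with rfl | rfl | rfl
    · rfl
    · exact cxy.symm
    · exact cxz.symm
  have hC0card : C0.card = 3 := by
    rw [hC0, Finset.card_insert_of_notMem (by simp [hxy.ne, hxz.ne]), Finset.card_pair hyz.ne]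
  have hbad' : ∀ a b, G.Adj a b → c a = c b → a ∈ C0 ∧ b ∈ C0 := fun a b h1 h2 =>
    ⟨(hC0m a).2 (hbad a b h1 h2), (hC0m b).2 (hbad b a h1.symm h2.symm)⟩
  set A : Finset V := univ.filter (fun v => c v ≠ c x) with hA
  set P : Finset V := univ.filter (fun v => c v = c x ∧ v ∉ C0) with hP
  set K : Finset (Finset V) := insert C0 (P.image (fun v => {v})) with hK
  have hAm : ∀ v, v ∈ A ↔ c v ≠ c x := by intro v; simp [hA]
  have hPm : ∀ v, v ∈ P ↔ c v = c x ∧ v ∉ C0 := by intro v; simp [hP]
  have hKm : ∀ C ∈ K, C = C0 ∨ ∃ v ∈ P, C = {v} := by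
    intro C hC
    rcases Finset.mem_insert.1 hC with h1 | h1
    · exact Or.inl h1
    · obtain ⟨v, hv, rfl⟩ := Finset.mem_image.1 h1
      exact Or.inr ⟨v, hv, rfl⟩
  have hC0K : C0 ∉ P.image (fun v => ({v} : Finset V)) := by
    intro h1
    obtain ⟨v, hv, hvC⟩ := Finset.mem_image.1 h1
    have : ({v} : Finset V).card = C0.card := by rw [hvC]
    rw [hC0card] at this
    simp at this
  have hKe : K.erase C0 = P.image (fun v => {v}) := by
    rw [hK, Finset.erase_insert hC0K]
  -- every vertex has a neighbour outside a small set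
  have hnb : ∀ v ∈ P, ∃ s ∈ A, G.Adj v s := by
    intro v hv
    by_contra hcon
    push Not at hcon
    obtain ⟨hvc, hvC⟩ := (hPm v).1 hv
    have h5 := h4 {v} ∅ (by simp) (by simp) ⟨x, by
      simp only [Finset.mem_singleton, Finset.notMem_empty, not_false_eq_true, and_true]
      rintro rfl
      exact hvC ((hC0m x).2 (Or.inl rfl))⟩ (by
        intro a ha b hab
        rw [Finset.mem_singleton] at ha
        subst ha
        exfalso
        apply hcon b _ hab
        rw [hAm]
        intro hb
        exact hvC (hbad' a b hab (by rw [hvc, hb])).1)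
    simp at h5
  have hex : ∃ v, v ∉ C0 := by
    by_contra hcon
    push Not at hcon
    have := Finset.card_le_card (Finset.subset_iff.2 (fun v _ => hcon v) : univ ⊆ C0)
    rw [Finset.card_univ] at this
    omega
  have hAne : A.Nonempty := by
    obtain ⟨v, hv⟩ := hex
    by_cases h1 : c v = c x
    · obtain ⟨s, hs, -⟩ := hnb v ((hPm v).2 ⟨h1, hv⟩)
      exact ⟨s, hs⟩
    · exact ⟨v, (hAm v).2 h1⟩
  obtain ⟨e1, e2, e3⟩ := erase_three hxy.ne hxz.ne hyz.ne
  have hAC0 : ∀ v ∈ A, v ∉ C0 := fun v hv hv' => (hAm v).1 hv (hC0c v hv')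
  have hdisj : ∀ C ∈ K, Disjoint C A := by
    intro C hC
    rw [Finset.disjoint_right]
    intro v hv hvC
    rcases hKm C hC with rfl | ⟨w, hw, rfl⟩
    · exact hAC0 v hv hvC
    · rw [Finset.mem_singleton] at hvC
      subst hvC
      exact (hAm v).1 hv ((hPm v).1 hw).1
  have hodd : ∀ C ∈ K, Odd C.card := by
    intro C hC
    rcases hKm C hC with rfl | ⟨w, hw, rfl⟩
    · rw [hC0card]; decide
    · simp
  have hpw : ∀ C ∈ K, ∀ D ∈ K, C ≠ D → Disjoint C D := by
    intro C hC D hD hne
    rw [Finset.disjoint_left]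
    intro v hv hv'
    rcases hKm C hC with rfl | ⟨w, hw, rfl⟩ <;> rcases hKm D hD with rfl | ⟨w', hw', rfl⟩
    · exact hne rfl
    · rw [Finset.mem_singleton] at hv'
      subst hv'
      exact ((hPm v).1 hw').2 hv
    · rw [Finset.mem_singleton] at hv
      subst hv
      exact ((hPm v).1 hw).2 hv'
    · rw [Finset.mem_singleton] at hv hv'
      exact hne (by rw [← hv, ← hv'])
  have hcl : ∀ C ∈ K, ∀ a ∈ C, ∀ b, G.Adj a b → b ∈ C ∨ b ∈ A := by
    intro C hC a ha b hab
    by_cases hb : c b = c x
    · have hac : c a = c x := by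
        rcases hKm C hC with rfl | ⟨w, hw, rfl⟩
        · exact hC0c a ha
        · rw [Finset.mem_singleton] at ha
          subst ha
          exact ((hPm a).1 hw).1
      have h5 := hbad' a b hab (by rw [hac, hb])
      rcases hKm C hC with rfl | ⟨w, hw, rfl⟩
      · exact Or.inl h5.2
      · rw [Finset.mem_singleton] at ha
        subst ha
        exact absurd h5.1 ((hPm a).1 hw).2
    · exact Or.inr ((hAm b).2 hb)
  have hnear : ∀ C ∈ K, ∀ a ∈ C, ∃ f, IsPM G (C.erase a) f := by
    intro C hC a ha
    rcases hKm C hC with rfl | ⟨w, hw, rfl⟩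
    · rcases (hC0m a).1 ha with rfl | rfl | rfl
      · rw [e1]; exact ⟨_, isPM_pair hyz⟩
      · rw [e2]; exact ⟨_, isPM_pair hxz⟩
      · rw [e3]; exact ⟨_, isPM_pair hxy⟩
    · rw [Finset.mem_singleton] at ha
      subst ha
      refine ⟨id, ?_⟩
      intro v hv
      simp at hv
  have hconn : ∀ A' ⊆ A, A'.Nonempty →
      (∀ C ∈ K.erase C0, (∀ s ∈ A, (∃ a ∈ C, G.Adj a s) → s ∈ A') ∨
        (∀ s ∈ A', ¬ ∃ a ∈ C, G.Adj a s)) → A' = A := by
    intro A' hA' hne hsplit
    by_contra hneq
    obtain ⟨t, ht, htA'⟩ : ∃ t ∈ A, t ∉ A' := by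
      by_contra hcon
      push Not at hcon
      exact hneq (Finset.Subset.antisymm hA' hcon)
    have hsplit' : ∀ v ∈ P, (∀ s ∈ A, G.Adj v s → s ∈ A') ∨ (∀ s ∈ A', ¬ G.Adj v s) := by
      intro v hv
      have := hsplit {v} (by rw [hKe]; exact Finset.mem_image.2 ⟨v, hv, rfl⟩)
      simpa using this
    have h5 := h4 (A' ∪ P.filter (fun v => ∃ s ∈ A', G.Adj v s)) C0 (hne.mono
      Finset.subset_union_left) ?_ ⟨t, ?_, hAC0 t ht⟩ ?_
    · omega
    · rw [Finset.disjoint_left]
      intro v hv
      rcases Finset.mem_union.1 hv with h6 | h6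
      · exact hAC0 v (hA' h6)
      · exact ((hPm v).1 (Finset.mem_filter.1 h6).1).2
    · rw [Finset.mem_union, not_or]
      refine ⟨htA', fun h6 => ?_⟩
      exact (hAm t).1 ht ((hPm t).1 (Finset.mem_filter.1 h6).1).1
    · intro a ha b hab
      rcases Finset.mem_union.1 ha with h6 | h6
      · have haA := hA' h6
        by_cases hb : c b = c x
        · by_cases hbC : b ∈ C0
          · exact Or.inr hbC
          · exact Or.inl (Finset.mem_union_right _ (Finset.mem_filter.2
              ⟨(hPm b).2 ⟨hb, hbC⟩, a, h6, hab.symm⟩))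
        · exfalso
          have hca : c a = c b := by
            have h7 := (hAm a).1 haA
            revert h7 hb
            generalize c a = u
            generalize c b = v
            generalize c x = w
            revert u v w
            decide
          exact hAC0 a haA (hbad' a b hab hca).1
      · obtain ⟨haP, s, hs, has⟩ := Finset.mem_filter.1 h6
        obtain ⟨hac, haC⟩ := (hPm a).1 haP
        have hbA : b ∈ A := by
          rw [hAm]
          intro hb
          exact haC (hbad' a b hab (by rw [hac, hb])).1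
        rcases hsplit' a haP with h7 | h7
        · exact Or.inl (Finset.mem_union_left _ (h7 b hbA hab))
        · exact absurd has (h7 s hs)
  have hne' : ∀ C ∈ K.erase C0, ∃ s ∈ A, ∃ a ∈ C, G.Adj a s := by
    intro C hC
    rw [hKe] at hC
    obtain ⟨v, hv, rfl⟩ := Finset.mem_image.1 hC
    obtain ⟨s, hs, hvs⟩ := hnb v hv
    exact ⟨s, hs, v, by simp, hvs⟩
  obtain ⟨χ, hχ⟩ := cell_coloring G hS A K C0 (by simp [hK]) hdisj hodd hpw hcl hnear hconn hne'
    hAne
  have hout : ∀ u ∈ C0, ∃ s ∈ A, G.Adj u s := by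
    intro u hu
    by_contra hcon
    push Not at hcon
    obtain ⟨v, hv⟩ := hex
    have h5 := h4 {u} (C0.erase u) (by simp) (by simp) ⟨v, by
      simp only [Finset.mem_singleton]
      rintro rfl
      exact hv hu, fun h6 => hv (Finset.mem_of_mem_erase h6)⟩ (by
        intro a ha b hab
        rw [Finset.mem_singleton] at ha
        subst ha
        right
        rw [Finset.mem_erase]
        refine ⟨hab.ne', ?_⟩
        by_contra hb
        apply hcon b _ hab
        rw [hAm]
        intro hb'
        exact hb (hbad' a b hab (by rw [hC0c a hu, hb'])).2)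
    rw [Finset.card_erase_of_mem hu, hC0card] at h5
    omega
  have hx0 : x ∈ C0 := (hC0m x).2 (Or.inl rfl)
  have hy0 : y ∈ C0 := (hC0m y).2 (Or.inr (Or.inl rfl))
  have hz0 : z ∈ C0 := (hC0m z).2 (Or.inr (Or.inr rfl))
  obtain ⟨s1, hs1, hs1'⟩ := hout x hx0
  obtain ⟨s2, hs2, hs2'⟩ := hout y hy0
  obtain ⟨s3, hs3, hs3'⟩ := hout z hz0
  have k1 := (hχ x hx0 s1 hs1 hs1').2 (fun v => if v = y then z else y)
    (by rw [e1]; exact isPM_pair hyz) y (by rw [e1]; simp)
  have k2 := (hχ y hy0 s2 hs2 hs2').2 (fun v => if v = x then z else x)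
    (by rw [e2]; exact isPM_pair hxz) x (by rw [e2]; simp)
  have k3 := (hχ z hz0 s3 hs3 hs3').2 (fun v => if v = x then y else x)
    (by rw [e3]; exact isPM_pair hxy) x (by rw [e3]; simp)
  simp only [if_true] at k1 k2 k3
  revert k1 k2 k3
  generalize χ x = u
  generalize χ y = v
  generalize χ z = w
  revert u v w
  decide

/-- **Main implication.** -/
theorem seymour_imp_apex (hS : IsSeymour G) (h4 : Sep 4 G) (hn : 5 ≤ Fintype.card V) :
    ∃ (u : V) (c : V → Bool), ∀ x y, G.Adj x y → x ≠ u → y ≠ u → c x ≠ c y := by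
  classical
  obtain ⟨L, R, h⟩ := exists_LR hS h4 hn
  have h2 := h.two
  have hOd : Disjoint R (univ \ (L ∪ R)) := by
    rw [Finset.disjoint_left]
    intro x hx hx'
    rw [Finset.mem_sdiff, Finset.mem_union] at hx'
    tauto
  have hev : Even (gU R (univ \ (L ∪ R)) (L.card - 2)).card := by
    rw [gU_card hOd, h.card]
    exact ⟨L.card + (univ \ (L ∪ R)).card, by omega⟩
  rcases tutte_dichotomy (gam G R (L.card - 2)) _ hev with ⟨f, hf⟩ | ⟨X, K, hX, hK, hpw, hcl, hbig⟩
  · exact (gam_no_pm hS h (by omega) _ rfl f hf).elim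
  obtain ⟨c, Z, hcZ⟩ := viol h4 h (by omega) _ rfl X K hX hK hpw hcl hbig
  rcases Z.eq_empty_or_nonempty with hZ | hZ
  · subst hZ
    simp only [Finset.notMem_empty, not_false_eq_true, true_and, Finset.card_empty, mul_zero,
      add_zero] at hcZ
    by_contra hcon
    push Not at hcon
    set B := univ.filter (fun x => ∃ y, G.Adj x y ∧ c x = c y) with hB
    have hBm : ∀ a b, G.Adj a b → c a = c b → a ∈ B := fun a b h1 h2 => by
      rw [hB, Finset.mem_filter]; exact ⟨Finset.mem_univ _, b, h1, h2⟩
    obtain ⟨v0⟩ : Nonempty V := Fintype.card_pos_iff.1 (by omega)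
    obtain ⟨x, y, hxy, -, -, cxy⟩ := hcon v0 c
    have third : ∀ x y, G.Adj x y → c x = c y → ∃ z, z ≠ x ∧ G.Adj y z ∧ c y = c z := by
      intro x y hxy cxy
      obtain ⟨a, b, hab, hax, hbx, cab⟩ := hcon x c
      have hxB := hBm x y hxy cxy
      have hyB := hBm y x hxy.symm cxy.symm
      have haB := hBm a b hab cab
      have hbB := hBm b a hab.symm cab.symm
      by_cases hay : a = y
      · subst hay
        exact ⟨b, hbx, hab, cab⟩
      · by_cases hby : b = y
        · subst hby
          exact ⟨a, hax, hab.symm, cab.symm⟩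
        · exfalso
          have h5 : ({x, y, a, b} : Finset V) ⊆ B := by
            intro v hv
            simp only [Finset.mem_insert, Finset.mem_singleton] at hv
            rcases hv with rfl | rfl | rfl | rfl <;> assumption
          have h6 : ({x, y, a, b} : Finset V).card = 4 := by
            rw [Finset.card_insert_of_notMem (by simp [hxy.ne, Ne.symm hax, Ne.symm hbx]),
              Finset.card_insert_of_notMem (by simp [Ne.symm hay, Ne.symm hby]),
              Finset.card_pair hab.ne]
          have h7 := Finset.card_le_card h5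
          omega
    obtain ⟨z, hzx, hyz, cyz⟩ := third x y hxy cxy
    obtain ⟨w, hwy, hxw, cxw⟩ := third y x hxy.symm cxy.symm
    have hB3 : ∀ v ∈ B, v = x ∨ v = y ∨ v = z := by
      have h5 : ({x, y, z} : Finset V) ⊆ B := by
        intro v hv
        simp only [Finset.mem_insert, Finset.mem_singleton] at hv
        rcases hv with rfl | rfl | rfl
        · exact hBm _ _ hxy cxy
        · exact hBm _ _ hyz cyz
        · exact hBm _ _ hyz.symm cyz.symm
      have h6 : ({x, y, z} : Finset V).card = 3 := by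
        rw [Finset.card_insert_of_notMem (by simp [hxy.ne, Ne.symm hzx]),
          Finset.card_pair hyz.ne]
      have h7 := Finset.eq_of_subset_of_card_le h5 (by omega)
      intro v hv
      rw [← h7] at hv
      simpa using hv
    have hwz : w = z := by
      rcases hB3 w (hBm w x hxw.symm cxw.symm) with h5 | h5 | h5
      · exact absurd h5 hxw.ne'
      · exact absurd h5 hwy
      · exact h5
    subst hwz
    exact no_triangle hS h4 hn c hxy hxw hyz cxy cxw (fun a b hab cab => hB3 a (hBm a b hab cab))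
  · have hZ1 : Z.card = 1 := by
      have := Finset.card_pos.2 hZ
      omega
    obtain ⟨u, rfl⟩ := Finset.card_eq_one.1 hZ1
    refine ⟨u, c, fun x y hxy hx hy hc => ?_⟩
    have h5 : (univ.filter (fun x => ∃ y, G.Adj x y ∧ x ∉ ({u} : Finset V) ∧
        y ∉ ({u} : Finset V) ∧ c x = c y)).card = 0 := by
      simp only [Finset.card_singleton] at hcZ
      omega
    rw [Finset.card_eq_zero] at h5
    have h6 : x ∈ univ.filter (fun x => ∃ y, G.Adj x y ∧ x ∉ ({u} : Finset V) ∧
        y ∉ ({u} : Finset V) ∧ c x = c y) := by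
      rw [Finset.mem_filter]
      exact ⟨Finset.mem_univ _, y, hxy, by simpa using hx, by simpa using hy, hc⟩
    rw [h5] at h6
    simp at h6

end Run7.h543
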