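import Pool.Agent.Run7.h543.TwoP

/-!
The auxiliary graph for the pair of matchings.
-/

namespace Run7.h543

open Finset

variable {V : Type*}

/-- two copies of `G` and `m` further vertices joined to the first copy of `R` -/
def gam (G : SimpleGraph V) (R : Finset V) (m : ℕ) : SimpleGraph (V ⊕ V ⊕ Fin m) where
  Adj a b := match a, b with
    | .inl x, .inl y => G.Adj x y
    | .inl x, .inr (.inl y) => x = y
    | .inl x, .inr (.inr _) => x ∈ R
    | .inr (.inl x), .inl y => x = y
    | .inr (.inl x), .inr (.inl y) => G.Adj x y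
    | .inr (.inl _), .inr (.inr _) => False
    | .inr (.inr _), .inl x => x ∈ R
    | .inr (.inr _), .inr (.inl _) => False
    | .inr (.inr _), .inr (.inr _) => False
  symm := ⟨by
    rintro (x | x | x) (y | y | y) h
    · exact SimpleGraph.Adj.symm (G := G) h
    · exact Eq.symm h
    · exact h
    · exact Eq.symm h
    · exact SimpleGraph.Adj.symm (G := G) h
    · exact h
    · exact h
    · exact h
    · exact h⟩
  loopless := ⟨by
    rintro (x | x | x) h
    · exact G.loopless.irrefl x h
    · exact G.loopless.irrefl x h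
    · exact h⟩

variable {G : SimpleGraph V} {R : Finset V} {m : ℕ}

@[simp] lemma gam_11 (x y : V) : (gam G R m).Adj (.inl x) (.inl y) ↔ G.Adj x y := Iff.rfl
@[simp] lemma gam_12 (x y : V) : (gam G R m).Adj (.inl x) (.inr (.inl y)) ↔ x = y := Iff.rfl
@[simp] lemma gam_13 (x : V) (i : Fin m) : (gam G R m).Adj (.inl x) (.inr (.inr i)) ↔ x ∈ R :=
  Iff.rfl
@[simp] lemma gam_21 (x y : V) : (gam G R m).Adj (.inr (.inl x)) (.inl y) ↔ x = y := Iff.rfl
@[simp] lemma gam_22 (x y : V) : (gam G R m).Adj (.inr (.inl x)) (.inr (.inl y)) ↔ G.Adj x y :=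
  Iff.rfl
@[simp] lemma gam_23 (x : V) (i : Fin m) :
    (gam G R m).Adj (.inr (.inl x)) (.inr (.inr i)) ↔ False := Iff.rfl
@[simp] lemma gam_31 (x : V) (i : Fin m) : (gam G R m).Adj (.inr (.inr i)) (.inl x) ↔ x ∈ R :=
  Iff.rfl
@[simp] lemma gam_32 (x : V) (i : Fin m) :
    (gam G R m).Adj (.inr (.inr i)) (.inr (.inl x)) ↔ False := Iff.rfl
@[simp] lemma gam_33 (i j : Fin m) :
    (gam G R m).Adj (.inr (.inr i)) (.inr (.inr j)) ↔ False := Iff.rfl

variable [DecidableEq V]

/-- the vertex set used -/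
def gU (R O : Finset V) (m : ℕ) : Finset (V ⊕ V ⊕ Fin m) :=
  (R ∪ O).disjSum (O.disjSum univ)

@[simp] lemma gU1 {R O : Finset V} {m : ℕ} (x : V) : Sum.inl x ∈ gU R O m ↔ x ∈ R ∨ x ∈ O := by
  simp [gU]
@[simp] lemma gU2 {R O : Finset V} {m : ℕ} (x : V) :
    Sum.inr (Sum.inl x) ∈ gU R O m ↔ x ∈ O := by
  simp [gU]
@[simp] lemma gU3 {R O : Finset V} {m : ℕ} (i : Fin m) : Sum.inr (Sum.inr i) ∈ gU R O m := by
  simp [gU]

lemma gU_card {R O : Finset V} {m : ℕ} (h : Disjoint R O) :
    (gU R O m).card = R.card + O.card + (O.card + m) := by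
  unfold gU
  rw [Finset.card_disjSum, Finset.card_disjSum, Finset.card_union_of_disjoint h]
  simp

variable [Fintype V]

theorem gam_no_pm (hS : IsSeymour G) {L : Finset V} (h : LR G L R) (hm : m + 2 = L.card)
    (O : Finset V) (hO : O = univ \ (L ∪ R)) (f : V ⊕ V ⊕ Fin m → V ⊕ V ⊕ Fin m)
    (hf : IsPM (gam G R m) (gU R O m) f) : False := by
  classical
  have hOR : ∀ x ∈ O, x ∉ L ∧ x ∉ R := by
    intro x hx
    rw [hO, Finset.mem_sdiff, Finset.mem_union] at hx
    tauto
  set A4 := R.filter (fun r => ∃ y, f (.inl r) = .inl y) with hA4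
  set O' := O.filter (fun o => ∃ y, f (.inl o) = .inl y) with hO'
  set f1 : V → V := fun x => match f (.inl x) with
    | .inl y => y
    | _ => x with hf1
  set f2 : V → V := fun x => match f (.inr (.inl x)) with
    | .inr (.inl y) => y
    | _ => x with hf2
  have hR : ∀ r ∈ R, r ∉ A4 → ∃ i, f (.inl r) = .inr (.inr i) := by
    intro r hr hrA
    obtain ⟨g1, g2, g3⟩ := hf (.inl r) (by simp [hr])
    cases hfr : f (.inl r) with
    | inl y => exact absurd (Finset.mem_filter.2 ⟨hr, y, hfr⟩) hrA
    | inr z =>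
      cases z with
      | inl y =>
        rw [hfr] at g1 g3
        simp only [gam_12, gU2] at g1 g3
        subst g3
        exact absurd hr (hOR _ g1).2
      | inr i => exact ⟨i, rfl⟩
  have hW : ∀ i : Fin m, ∃ r ∈ R, f (.inr (.inr i)) = .inl r := by
    intro i
    obtain ⟨g1, g2, g3⟩ := hf (.inr (.inr i)) (by simp)
    cases hfr : f (.inr (.inr i)) with
    | inl y =>
      rw [hfr] at g3
      exact ⟨y, by simpa using g3, rfl⟩
    | inr z =>
      rw [hfr] at g3
      cases z <;> simp at g3
  choose g hgR hg using hW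
  have hginj : Function.Injective g := by
    intro i j hij
    have h1 := (hf (.inr (.inr i)) (by simp)).2.1
    have h2 := (hf (.inr (.inr j)) (by simp)).2.1
    rw [hg] at h1 h2
    rw [hij, h2] at h1
    simpa using h1.symm
  have hA4c : A4.card = 4 := by
    have h1 : R \ A4 = univ.image g := by
      ext r
      rw [Finset.mem_sdiff, Finset.mem_image]
      constructor
      · rintro ⟨hr, hrA⟩
        obtain ⟨i, hi⟩ := hR r hr hrA
        refine ⟨i, Finset.mem_univ _, ?_⟩
        have h2 := (hf (.inl r) (by simp [hr])).2.1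
        rw [hi, hg] at h2
        simpa using h2
      · rintro ⟨i, -, rfl⟩
        refine ⟨hgR i, fun hA => ?_⟩
        obtain ⟨-, y, hy⟩ := Finset.mem_filter.1 hA
        have h2 := (hf (.inr (.inr i)) (by simp)).2.1
        rw [hg, hy] at h2
        simp at h2
    have h2 := Finset.card_sdiff_of_subset (Finset.filter_subset (fun r => ∃ y, f (.inl r) = .inl y) R)
    rw [← hA4, h1, Finset.card_image_of_injective _ hginj, Finset.card_univ, Fintype.card_fin,
      h.card] at h2
    have h3 := Finset.card_le_card (Finset.filter_subset (fun r => ∃ y, f (.inl r) = .inl y) R)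
    rw [← hA4, h.card] at h3
    have h4 := h.two
    omega
  have hPM1 : IsPM G (O' ∪ A4) f1 := by
    intro v hv
    have h1 : ∃ y, f (.inl v) = .inl y := by
      rcases Finset.mem_union.1 hv with h1 | h1
      · exact (Finset.mem_filter.1 h1).2
      · exact (Finset.mem_filter.1 h1).2
    have hvU : v ∈ R ∨ v ∈ O := by
      rcases Finset.mem_union.1 hv with h1 | h1
      · exact Or.inr (Finset.mem_filter.1 h1).1
      · exact Or.inl (Finset.mem_filter.1 h1).1
    obtain ⟨y, hy⟩ := h1
    obtain ⟨g1, g2, g3⟩ := hf (.inl v) (by simpa using hvU)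
    rw [hy] at g1 g2 g3
    have e1 : f1 v = y := by simp only [hf1, hy]
    have e2 : f1 y = v := by simp only [hf1, g2]
    rw [e1, e2]
    refine ⟨?_, rfl, by simpa using g3⟩
    rw [gU1] at g1
    rw [Finset.mem_union]
    rcases g1 with g1 | g1
    · exact Or.inr (Finset.mem_filter.2 ⟨g1, v, g2⟩)
    · exact Or.inl (Finset.mem_filter.2 ⟨g1, v, g2⟩)
  have hPM2 : IsPM G O' f2 := by
    intro v hv
    obtain ⟨hvO, y, hy⟩ := Finset.mem_filter.1 hv
    obtain ⟨g1, g2, g3⟩ := hf (.inr (.inl v)) (by simpa using hvO)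
    obtain ⟨z, hz⟩ : ∃ z, f (.inr (.inl v)) = .inr (.inl z) := by
      cases hfr : f (.inr (.inl v)) with
      | inl z =>
        rw [hfr] at g2 g3
        rw [gam_21] at g3
        rw [← g3, hy] at g2
        simp at g2
      | inr z =>
        cases z with
        | inl z => exact ⟨z, rfl⟩
        | inr i => rw [hfr] at g3; simp at g3
    rw [hz] at g1 g2 g3
    have e1 : f2 v = z := by simp only [hf2, hz]
    have e2 : f2 z = v := by simp only [hf2, g2]
    rw [e1, e2]
    refine ⟨?_, rfl, by simpa using g3⟩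
    rw [gU2] at g1
    refine Finset.mem_filter.2 ⟨g1, ?_⟩
    obtain ⟨k1, k2, k3⟩ := hf (.inl z) (by simp [g1])
    cases hfr : f (.inl z) with
    | inl w => exact ⟨w, rfl⟩
    | inr w =>
      exfalso
      cases w with
      | inl w =>
        rw [hfr] at k2 k3
        rw [gam_12] at k3
        rw [← k3, g2] at k2
        simp at k2
      | inr i =>
        rw [hfr] at k3
        rw [gam_13] at k3
        exact (hOR _ g1).2 k3
  exact no_double hS h O' A4 (fun v hv => hOR v (Finset.mem_filter.1 hv).1)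
    (Finset.filter_subset _ _) hA4c f1 f2 hPM1 hPM2

end Run7.h543
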