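import Pool.Agent.Run7.h543.TutteD

/-!
A set all of whose perfect matchings are bichromatic has a pair of vertices whose removal destroys
all perfect matchings.
-/

namespace Run7.h543

open Finset

variable {V : Type*} [DecidableEq V]

lemma IsPM.add_edge {G : SimpleGraph V} {U : Finset V} {p q : V} (hp : p ∈ U) (hq : q ∈ U)
    (hpq : G.Adj p q) {g : V → V} (hg : IsPM G ((U.erase p).erase q) g) :
    IsPM G U (fun v => if v = p then q else if v = q then p else g v) := by
  have hne : p ≠ q := hpq.ne
  intro v hv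
  by_cases h1 : v = p
  · subst h1
    simp [hne.symm, hq, hpq]
  · by_cases h2 : v = q
    · subst h2
      simp [h1, hp, hpq.symm]
    · have hv' : v ∈ (U.erase p).erase q := by simp [h1, h2, hv]
      obtain ⟨h3, h4, h5⟩ := hg v hv'
      have h6 : g v ≠ q := Finset.ne_of_mem_erase h3
      have h7 : g v ≠ p := Finset.ne_of_mem_erase (Finset.mem_of_mem_erase h3)
      simp only [h1, h2, if_false, h6, h7]
      exact ⟨Finset.mem_of_mem_erase (Finset.mem_of_mem_erase h3), h4, h5⟩

lemma card_filter_erase {U : Finset V} {p : V} (hp : p ∈ U) (P : V → Prop) [DecidablePred P] :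
    ((U.erase p).filter P).card + (if P p then 1 else 0) = (U.filter P).card := by
  rw [Finset.filter_erase]
  by_cases h : P p
  · rw [if_pos h, Finset.card_erase_of_mem (by simp [hp, h])]
    have : 0 < (U.filter P).card := Finset.card_pos.2 ⟨p, by simp [hp, h]⟩
    omega
  · rw [if_neg h, Finset.erase_eq_of_notMem (by simp [h])]; rfl

theorem exists_pair (G : SimpleGraph V) (U : Finset V) (h4 : 4 ≤ U.card) (χ : V → Bool)
    (hχ : ∀ f, IsPM G U f → ∀ v ∈ U, χ v ≠ χ (f v)) :
    ∃ p ∈ U, ∃ q ∈ U, p ≠ q ∧ ¬ ∃ f, IsPM G ((U.erase p).erase q) f := by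
  by_contra hcon
  push Not at hcon
  have hprop : ∀ p ∈ U, ∀ q ∈ U, G.Adj p q → χ p ≠ χ q := by
    intro p hp q hq hpq
    obtain ⟨g, hg⟩ := hcon p hp q hq hpq.ne
    have h1 := hχ _ (IsPM.add_edge hp hq hpq hg) p hp
    simpa using h1
  have hbal : ∀ p ∈ U, ∀ q ∈ U, p ≠ q →
      (((U.erase p).erase q).filter (fun v => χ v = true)).card
        = (((U.erase p).erase q).filter (fun v => χ v = false)).card := by
    intro p hp q hq hpq
    obtain ⟨g, hg⟩ := hcon p hp q hq hpq
    apply hg.balanced
    intro v hv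
    have hv' : v ∈ U := Finset.mem_of_mem_erase (Finset.mem_of_mem_erase hv)
    obtain ⟨h1, h2, h3⟩ := hg v hv
    have h1' : g v ∈ U := Finset.mem_of_mem_erase (Finset.mem_of_mem_erase h1)
    exact hprop v hv' (g v) h1' h3
  -- a monochromatic pair
  obtain ⟨p, hp, q, hq, hpq, hc⟩ : ∃ p ∈ U, ∃ q ∈ U, p ≠ q ∧ χ p = χ q := by
    apply Finset.exists_ne_map_eq_of_card_lt_of_maps_to (t := (Finset.univ : Finset Bool))
    · simp; omega
    · intro a _; simp
  have h5 : 2 ≤ ((U.erase p).erase q).card := by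
    rw [Finset.card_erase_of_mem (by simp [hpq.symm, hq]), Finset.card_erase_of_mem hp]
    omega
  obtain ⟨x, hx⟩ : ((U.erase p).erase q).Nonempty := Finset.card_pos.1 (by omega)
  obtain ⟨g, hg⟩ := hcon p hp q hq hpq
  obtain ⟨hgx1, hgx2, hgx3⟩ := hg x hx
  have hxU : x ∈ U := Finset.mem_of_mem_erase (Finset.mem_of_mem_erase hx)
  have hgxU : g x ∈ U := Finset.mem_of_mem_erase (Finset.mem_of_mem_erase hgx1)
  have hcx : χ x ≠ χ (g x) := hprop x hxU _ hgxU hgx3
  have b1 := hbal p hp q hq hpq
  have b2 := hbal x hxU (g x) hgxU hgx3.ne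
  have e1 := card_filter_erase hp (fun v => χ v = true)
  have e2 := card_filter_erase (U := U.erase p) (p := q) (by simp [hpq.symm, hq])
    (fun v => χ v = true)
  have e3 := card_filter_erase hp (fun v => χ v = false)
  have e4 := card_filter_erase (U := U.erase p) (p := q) (by simp [hpq.symm, hq])
    (fun v => χ v = false)
  have e5 := card_filter_erase hxU (fun v => χ v = true)
  have e6 := card_filter_erase (U := U.erase x) (p := g x) (by simp [hgx3.ne.symm, hgxU])
    (fun v => χ v = true)
  have e7 := card_filter_erase hxU (fun v => χ v = false)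
  have e8 := card_filter_erase (U := U.erase x) (p := g x) (by simp [hgx3.ne.symm, hgxU])
    (fun v => χ v = false)
  simp only [← hc] at e2 e4
  clear hcon hprop hbal hχ
  cases hcp : χ p <;> cases hcx1 : χ x <;> cases hcx2 : χ (g x) <;>
    simp only [hcp, hcx1, hcx2, Bool.false_eq_true, Bool.true_eq_false, if_false, if_true,
      ne_eq, not_true_eq_false] at e1 e2 e3 e4 e5 e6 e7 e8 hcx <;> omega

end Run7.h543
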