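import Pool.Agent.Run7.h543.Cells
import Pool.Agent.Run7.h543.Pair

/-!
Minimal pairs `(S, K)`.
-/

namespace Run7.h543

open Finset

variable {V : Type*} [DecidableEq V] [Fintype V]

/-- every set separating a nonempty set from something else has at least `k` elements -/
def Sep (k : ℕ) (G : SimpleGraph V) : Prop :=
  ∀ D N : Finset V, D.Nonempty → Disjoint D N → (∃ z, z ∉ D ∧ z ∉ N) →
    (∀ x ∈ D, ∀ y, G.Adj x y → y ∈ D ∨ y ∈ N) → k ≤ N.card

/-- `K` is a family of pairwise disjoint odd sets, each with all its outside neighbours in `S`,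
and there are many of them. -/
structure Good (G : SimpleGraph V) (S : Finset V) (K : Finset (Finset V)) : Prop where
  disjS : ∀ C ∈ K, Disjoint C S
  odd : ∀ C ∈ K, Odd C.card
  pw : ∀ C ∈ K, ∀ D ∈ K, C ≠ D → Disjoint C D
  closed : ∀ C ∈ K, ∀ x ∈ C, ∀ y, G.Adj x y → y ∈ C ∨ y ∈ S
  two : 2 ≤ K.card
  big : S.card ≤ K.card + 2

omit [DecidableEq V] [Fintype V] in
lemma Good.nonempty {G : SimpleGraph V} {S : Finset V} {K : Finset (Finset V)} (h : Good G S K)
    {C : Finset V} (hC : C ∈ K) : C.Nonempty := by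
  obtain ⟨k, hk⟩ := h.odd C hC
  exact Finset.card_pos.1 (by omega)

/-- the weight of a pair -/
def wt (S : Finset V) (K : Finset (Finset V)) : ℕ :=
  (Fintype.card V + 1) * (S.card + ∑ C ∈ K, C.card) + (Fintype.card V - S.card)

omit [DecidableEq V] in
lemma wt_lt {S S' : Finset V} {K K' : Finset (Finset V)}
    (h : S'.card + ∑ C ∈ K', C.card < S.card + ∑ C ∈ K, C.card) : wt S' K' < wt S K := by
  unfold wt
  generalize S'.card + ∑ C ∈ K', C.card = z' at h
  generalize S.card + ∑ C ∈ K, C.card = z at h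
  have h1 : (Fintype.card V + 1) * (z' + 1) ≤ (Fintype.card V + 1) * z := Nat.mul_le_mul_left _ h
  have h2 : Fintype.card V - S'.card ≤ Fintype.card V := Nat.sub_le _ _
  rw [mul_add, mul_one] at h1
  omega

omit [DecidableEq V] in
lemma wt_lt' {S S' : Finset V} {K K' : Finset (Finset V)}
    (h : S'.card + ∑ C ∈ K', C.card ≤ S.card + ∑ C ∈ K, C.card) (h' : S.card < S'.card) :
    wt S' K' < wt S K := by
  unfold wt
  generalize S'.card + ∑ C ∈ K', C.card = z' at h
  generalize S.card + ∑ C ∈ K, C.card = z at h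
  have h1 : (Fintype.card V + 1) * z' ≤ (Fintype.card V + 1) * z := Nat.mul_le_mul_left _ h
  have h2 : S'.card ≤ Fintype.card V := Finset.card_le_univ _
  omega

/-- minimality -/
def MinGood (G : SimpleGraph V) (S : Finset V) (K : Finset (Finset V)) : Prop :=
  Good G S K ∧ ∀ S' K', Good G S' K' → wt S K ≤ wt S' K'

omit [DecidableEq V] in
lemma exists_minGood {G : SimpleGraph V} {S : Finset V} {K : Finset (Finset V)}
    (h : Good G S K) : ∃ S K, MinGood G S K := by
  classical
  obtain ⟨p, hp, hmin⟩ := Finset.exists_min_image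
    (Finset.univ.filter (fun p : Finset V × Finset (Finset V) => Good G p.1 p.2))
    (fun p => wt p.1 p.2) ⟨(S, K), by simp [h]⟩
  rw [Finset.mem_filter] at hp
  refine ⟨p.1, p.2, hp.2, fun S' K' h' => hmin (S', K') (by simp [h'])⟩

variable {G : SimpleGraph V} {S : Finset V} {K : Finset (Finset V)}

lemma MinGood.card_eq (h4 : Sep 4 G) (h : MinGood G S K) : S.card = K.card + 2 := by
  obtain ⟨h, hmin⟩ := h
  by_contra hne
  have hlt : S.card ≤ K.card + 1 := by have := h.big; omega
  obtain ⟨C, hC⟩ : K.Nonempty := Finset.card_pos.1 (by have := h.two; omega)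
  by_cases h3 : 3 ≤ K.card
  · have hg : Good G S (K.erase C) := by
      have hcard : (K.erase C).card = K.card - 1 := Finset.card_erase_of_mem hC
      exact ⟨fun D hD => h.disjS D (Finset.mem_of_mem_erase hD),
        fun D hD => h.odd D (Finset.mem_of_mem_erase hD),
        fun D hD D' hD' => h.pw D (Finset.mem_of_mem_erase hD) D' (Finset.mem_of_mem_erase hD'),
        fun D hD => h.closed D (Finset.mem_of_mem_erase hD), by omega, by omega⟩
    have h5 := hmin _ _ hg
    have h6 : wt S (K.erase C) < wt S K := by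
      apply wt_lt
      rw [← Finset.add_sum_erase K _ hC]
      have := Finset.card_pos.2 (h.nonempty hC)
      omega
    omega
  · have h2 : K.card = 2 := by have := h.two; omega
    obtain ⟨D, hD⟩ : (K.erase C).Nonempty := Finset.card_pos.1 (by
      rw [Finset.card_erase_of_mem hC]; omega)
    obtain ⟨z, hz⟩ := h.nonempty (Finset.mem_of_mem_erase hD)
    have h5 := h4 C S (h.nonempty hC) (h.disjS C hC)
      ⟨z, Finset.disjoint_left.1 (h.pw D (Finset.mem_of_mem_erase hD) C hC
        (Finset.ne_of_mem_erase hD)) hz,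
        Finset.disjoint_left.1 (h.disjS D (Finset.mem_of_mem_erase hD)) hz⟩ (h.closed C hC)
    omega

lemma MinGood.touch (h : MinGood G S K) : ∀ s ∈ S, ∃ C ∈ K, ∃ x ∈ C, G.Adj x s := by
  obtain ⟨h, hmin⟩ := h
  intro s hs
  by_contra hcon
  push Not at hcon
  have hcard : (S.erase s).card = S.card - 1 := Finset.card_erase_of_mem hs
  have hpos : 0 < S.card := Finset.card_pos.2 ⟨s, hs⟩
  have hg : Good G (S.erase s) K := by
    refine ⟨fun D hD => (h.disjS D hD).mono_right (Finset.erase_subset _ _), h.odd, h.pw, ?_,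
      h.two, by have := h.big; omega⟩
    intro C hC x hx y hxy
    rcases h.closed C hC x hx y hxy with h1 | h1
    · exact Or.inl h1
    · refine Or.inr (Finset.mem_erase.2 ⟨?_, h1⟩)
      rintro rfl
      exact hcon C hC x hx hxy
  have h5 := hmin _ _ hg
  have h6 : wt (S.erase s) K < wt S K := by
    apply wt_lt
    omega
  omega

/-- the neighbours in `S` of a subfamily -/
noncomputable def Nb (G : SimpleGraph V) (S : Finset V) (J : Finset (Finset V)) : Finset V := by
  classical exact S.filter (fun s => ∃ C ∈ J, ∃ x ∈ C, G.Adj x s)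

omit [Fintype V] [DecidableEq V] in
lemma mem_Nb {J : Finset (Finset V)} {s : V} :
    s ∈ Nb G S J ↔ s ∈ S ∧ ∃ C ∈ J, ∃ x ∈ C, G.Adj x s := by
  simp [Nb]

lemma MinGood.surplus (h4 : Sep 4 G) (h : MinGood G S K) (J : Finset (Finset V)) (hJ : J ⊆ K)
    (hne : J.Nonempty) (hne' : J ≠ K) : J.card + 3 ≤ (Nb G S J).card := by
  have hs : J ⊂ K := Finset.ssubset_iff_subset_ne.2 ⟨hJ, hne'⟩
  obtain ⟨h, hmin⟩ := h
  have hNS : Nb G S J ⊆ S := fun s hs => (mem_Nb.1 hs).1
  have hclosed : ∀ C ∈ J, ∀ x ∈ C, ∀ y, G.Adj x y → y ∈ C ∨ y ∈ Nb G S J := by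
    intro C hC x hx y hxy
    rcases h.closed C (hJ hC) x hx y hxy with h1 | h1
    · exact Or.inl h1
    · exact Or.inr (mem_Nb.2 ⟨h1, C, hC, x, hx, hxy⟩)
  by_contra hcon
  by_cases h2 : 2 ≤ J.card
  · have hg : Good G (Nb G S J) J := ⟨fun D hD => (h.disjS D (hJ hD)).mono_right hNS,
      fun D hD => h.odd D (hJ hD), fun D hD D' hD' => h.pw D (hJ hD) D' (hJ hD'), hclosed, h2,
      by omega⟩
    have h5 := hmin _ _ hg
    have h6 : wt (Nb G S J) J < wt S K := by
      apply wt_lt
      have h7 := Finset.card_le_card hNS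
      obtain ⟨C, hC, hCJ⟩ := Finset.exists_of_ssubset hs
      have h8 : ∑ D ∈ J, D.card < ∑ D ∈ K, D.card :=
        Finset.sum_lt_sum_of_subset hJ hC hCJ (Finset.card_pos.2 (h.nonempty hC))
          (fun _ _ _ => Nat.zero_le _)
      omega
    omega
  · have h1 : J.card = 1 := by have := Finset.card_pos.2 hne; omega
    obtain ⟨C, rfl⟩ := Finset.card_eq_one.1 h1
    obtain ⟨D, hD, hDJ⟩ := Finset.exists_of_ssubset hs
    have hCK : C ∈ K := hJ (by simp)
    have hDC : D ≠ C := by simpa using hDJ
    obtain ⟨z, hz⟩ := h.nonempty hD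
    have h5 := h4 C (Nb G S {C}) (h.nonempty hCK) ((h.disjS C hCK).mono_right hNS)
      ⟨z, Finset.disjoint_left.1 (h.pw D hD C hCK hDC) hz,
        fun hz' => Finset.disjoint_left.1 (h.disjS D hD) hz (hNS hz')⟩ (hclosed C (by simp))
    omega

/-- No refinement of a member of `K` is possible. -/
lemma MinGood.noRefine (h : MinGood G S K) {C : Finset V} (hC : C ∈ K) {B : Finset V}
    (hB : B ⊆ C) (hBne : B.Nonempty) {K' : Finset (Finset V)}
    (hK' : ∀ D ∈ K', D ⊆ C ∧ Disjoint D B ∧ Odd D.card)
    (hpw : ∀ D ∈ K', ∀ D' ∈ K', D ≠ D' → Disjoint D D')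
    (hcl : ∀ D ∈ K', ∀ x ∈ D, ∀ y ∈ C, G.Adj x y → y ∈ D ∨ y ∈ B) : K'.card ≤ B.card := by
  obtain ⟨h, hmin⟩ := h
  by_contra hcon
  have hKK' : Disjoint (K.erase C) K' := by
    rw [Finset.disjoint_left]
    intro D hD hD'
    obtain ⟨z, hz⟩ := h.nonempty (Finset.mem_of_mem_erase hD)
    exact Finset.disjoint_left.1 (h.pw D (Finset.mem_of_mem_erase hD) C hC
      (Finset.ne_of_mem_erase hD)) hz ((hK' D hD').1 hz)
  have hcardK : (K.erase C ∪ K').card = K.card - 1 + K'.card := by
    rw [Finset.card_union_of_disjoint hKK', Finset.card_erase_of_mem hC]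
  have hSB : Disjoint S B := ((h.disjS C hC).mono_left hB).symm
  have hcardS : (S ∪ B).card = S.card + B.card := Finset.card_union_of_disjoint hSB
  have hBpos := Finset.card_pos.2 hBne
  have hK2 := h.two
  have hg : Good G (S ∪ B) (K.erase C ∪ K') := by
    refine ⟨?_, ?_, ?_, ?_, by omega, by have := h.big; omega⟩
    · intro D hD
      rw [Finset.disjoint_union_right]
      rcases Finset.mem_union.1 hD with h1 | h1
      · exact ⟨h.disjS D (Finset.mem_of_mem_erase h1),
          (h.pw D (Finset.mem_of_mem_erase h1) C hC (Finset.ne_of_mem_erase h1)).mono_right hB⟩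
      · exact ⟨(h.disjS C hC).mono_left (hK' D h1).1, (hK' D h1).2.1⟩
    · intro D hD
      rcases Finset.mem_union.1 hD with h1 | h1
      · exact h.odd D (Finset.mem_of_mem_erase h1)
      · exact (hK' D h1).2.2
    · intro D hD D' hD' hne
      rcases Finset.mem_union.1 hD with h1 | h1 <;> rcases Finset.mem_union.1 hD' with h2 | h2
      · exact h.pw D (Finset.mem_of_mem_erase h1) D' (Finset.mem_of_mem_erase h2) hne
      · exact (h.pw D (Finset.mem_of_mem_erase h1) C hC (Finset.ne_of_mem_erase h1)).mono_right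
          (hK' D' h2).1
      · exact ((h.pw D' (Finset.mem_of_mem_erase h2) C hC (Finset.ne_of_mem_erase h2)).mono_right
          (hK' D h1).1).symm
      · exact hpw D h1 D' h2 hne
    · intro D hD x hx y hxy
      rcases Finset.mem_union.1 hD with h1 | h1
      · rcases h.closed D (Finset.mem_of_mem_erase h1) x hx y hxy with h2 | h2
        · exact Or.inl h2
        · exact Or.inr (Finset.mem_union_left _ h2)
      · rcases h.closed C hC x ((hK' D h1).1 hx) y hxy with h2 | h2
        · rcases hcl D h1 x hx y h2 hxy with h3 | h3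
          · exact Or.inl h3
          · exact Or.inr (Finset.mem_union_right _ h3)
        · exact Or.inr (Finset.mem_union_left _ h2)
  have h5 := hmin _ _ hg
  have h6 : wt (S ∪ B) (K.erase C ∪ K') < wt S K := by
    apply wt_lt'
    · rw [hcardS, Finset.sum_union hKK', ← Finset.add_sum_erase K _ hC]
      have h7 : ∑ D ∈ K', D.card + B.card ≤ C.card := by
        rw [← Finset.card_biUnion (t := fun D => D) hpw, ← Finset.card_union_of_disjoint]
        · apply Finset.card_le_card
          apply Finset.union_subset _ hB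
          intro x hx
          obtain ⟨D, hD, hxD⟩ := Finset.mem_biUnion.1 hx
          exact (hK' D hD).1 hxD
        · rw [Finset.disjoint_left]
          intro x hx
          obtain ⟨D, hD, hxD⟩ := Finset.mem_biUnion.1 hx
          exact Finset.disjoint_left.1 (hK' D hD).2.1 hxD
      omega
    · omega
  omega

/-- Cells have near-perfect matchings missing any given vertex. -/
lemma MinGood.near (h : MinGood G S K) {C : Finset V} (hC : C ∈ K) {c : V} (hc : c ∈ C) :
    ∃ f, IsPM G (C.erase c) f := by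
  have hev : Even (C.erase c).card := by
    rw [Finset.card_erase_of_mem hc]
    obtain ⟨k, hk⟩ := h.1.odd C hC
    exact ⟨k, by omega⟩
  rcases tutte_dichotomy G (C.erase c) hev with h1 | ⟨X, K', hX, hK', hpw, hcl, hbig⟩
  · exact h1
  · exfalso
    have hcX : c ∉ X := fun hcX => Finset.notMem_erase c C (hX hcX)
    have h2 := h.noRefine hC (B := insert c X) (by
        rw [Finset.insert_subset_iff]
        exact ⟨hc, hX.trans (Finset.erase_subset _ _)⟩) ⟨c, by simp⟩ (K' := K')
      (fun D hD => ⟨(hK' D hD).1.trans (Finset.erase_subset _ _), by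
        rw [Finset.disjoint_insert_right]
        exact ⟨fun hcD => Finset.notMem_erase c C ((hK' D hD).1 hcD), (hK' D hD).2.1⟩,
        (hK' D hD).2.2⟩) hpw (by
        intro D hD x hx y hy hxy
        by_cases hyc : y = c
        · exact Or.inr (by simp [hyc])
        · rcases hcl D hD x hx y (by simp [hyc, hy]) hxy with h3 | h3
          · exact Or.inl h3
          · exact Or.inr (by simp [h3]))
    rw [Finset.card_insert_of_notMem hcX] at h2
    omega

end Run7.h543
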