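import Pool.Agent.Run7.h543.Struct

/-!
The independent set `L` with neighbourhood `R`, `|R| = |L| + 2`, of large surplus.
-/

namespace Run7.h543

open Finset

variable {V : Type*} [DecidableEq V] [Fintype V] {G : SimpleGraph V}

open Classical in
/-- an independent set `L` with neighbourhood `R`, `|R| = |L| + 2` and surplus three -/
structure LR (G : SimpleGraph V) (L R : Finset V) : Prop where
  disj : Disjoint L R
  card : R.card = L.card + 2
  two : 2 ≤ L.card
  closed : ∀ x ∈ L, ∀ y, G.Adj x y → y ∈ R
  touch : ∀ s ∈ R, ∃ x ∈ L, G.Adj x s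
  surplus : ∀ J ⊆ L, J.Nonempty → J ≠ L →
    J.card + 3 ≤ (R.filter (fun s => ∃ x ∈ J, G.Adj x s)).card

lemma exists_good (hS : IsSeymour G) (hn : 5 ≤ Fintype.card V) :
    ∃ S K, Good G S K := by
  classical
  obtain ⟨U, hUe, hU4, hUc⟩ : ∃ U : Finset V, Even U.card ∧ 4 ≤ U.card ∧ (univ \ U).card ≤ 1 := by
    rcases Nat.even_or_odd (Fintype.card V) with h1 | h1
    · refine ⟨univ, by simpa using h1, by rw [Finset.card_univ]; omega, by simp⟩
    · obtain ⟨v⟩ : Nonempty V := Fintype.card_pos_iff.1 (by omega)
      refine ⟨univ.erase v, ?_, ?_, ?_⟩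
      · rw [Finset.card_erase_of_mem (Finset.mem_univ v), Finset.card_univ]
        obtain ⟨k, hk⟩ := h1
        exact ⟨k, by omega⟩
      · rw [Finset.card_erase_of_mem (Finset.mem_univ v), Finset.card_univ]
        omega
      · rw [Finset.card_sdiff_of_subset (Finset.subset_univ _),
          Finset.card_erase_of_mem (Finset.mem_univ v), Finset.card_univ]
        omega
  obtain ⟨χ, hχ⟩ := match_coloring G hS U
  obtain ⟨p, hp, q, hq, hpq, hno⟩ := exists_pair G U hU4 χ hχ
  have hqp : q ∈ U.erase p := by simp [hpq.symm, hq]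
  have hcpq : ((U.erase p).erase q).card + 2 = U.card := by
    rw [Finset.card_erase_of_mem hqp, Finset.card_erase_of_mem hp]
    omega
  rcases tutte_dichotomy G ((U.erase p).erase q) (by
    obtain ⟨k, hk⟩ := hUe
    exact ⟨k - 1, by omega⟩) with h1 | ⟨X, K', hX, hK', hpw, hcl, hbig⟩
  · exact absurd h1 hno
  refine ⟨insert p (insert q (X ∪ (univ \ U))), K', ?_, fun D hD => (hK' D hD).2.2, hpw, ?_,
    by omega, ?_⟩
  · intro D hD
    rw [Finset.disjoint_insert_right, Finset.disjoint_insert_right, Finset.disjoint_union_right]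
    refine ⟨fun hx => by simpa using (hK' D hD).1 hx, fun hx => by simpa using (hK' D hD).1 hx,
      (hK' D hD).2.1, ?_⟩
    rw [Finset.disjoint_left]
    intro x hx hx'
    have := (hK' D hD).1 hx
    exact (Finset.mem_sdiff.1 hx').2 (Finset.mem_of_mem_erase (Finset.mem_of_mem_erase this))
  · intro D hD x hx y hxy
    by_cases h1 : y ∈ (U.erase p).erase q
    · rcases hcl D hD x hx y h1 hxy with h2 | h2
      · exact Or.inl h2
      · exact Or.inr (by simp [h2])
    · right
      simp only [Finset.mem_erase, not_and, Finset.mem_insert, Finset.mem_union, Finset.mem_sdiff,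
        Finset.mem_univ, true_and] at h1 ⊢
      by_cases h2 : y = p
      · exact Or.inl h2
      · by_cases h3 : y = q
        · exact Or.inr (Or.inl h3)
        · exact Or.inr (Or.inr (Or.inr (h1 h3 h2)))
  · have e1 := Finset.card_insert_le p (insert q (X ∪ (univ \ U)))
    have e2 := Finset.card_insert_le q (X ∪ (univ \ U))
    have e3 := Finset.card_union_le X (univ \ U)
    omega

theorem exists_LR (hS : IsSeymour G) (h4 : Sep 4 G) (hn : 5 ≤ Fintype.card V) :
    ∃ L R, LR G L R := by
  classical
  obtain ⟨S0, K0, h0⟩ := exists_good hS hn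
  obtain ⟨S, K, h⟩ := exists_minGood h0
  have hs : ∀ C ∈ K, ∃ x, C = {x} := fun C hC => Finset.card_eq_one.1 (h.single hS h4 hC)
  have hmem : ∀ x, x ∈ K.biUnion (fun C => C) ↔ {x} ∈ K := by
    intro x
    rw [Finset.mem_biUnion]
    constructor
    · rintro ⟨C, hC, hx⟩
      obtain ⟨y, rfl⟩ := hs C hC
      rw [Finset.mem_singleton] at hx
      rw [hx]; exact hC
    · intro hx
      exact ⟨{x}, hx, by simp⟩
  have hcard : (K.biUnion (fun C => C)).card = K.card := by
    rw [Finset.card_biUnion h.1.pw, Finset.sum_congr rfl (fun C hC => h.single hS h4 hC)]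
    simp
  refine ⟨K.biUnion (fun C => C), S, ?_, ?_, ?_, ?_, ?_, ?_⟩
  · rw [Finset.disjoint_left]
    intro x hx
    exact Finset.disjoint_left.1 (h.1.disjS _ ((hmem x).1 hx)) (by simp)
  · rw [hcard]; exact h.card_eq h4
  · rw [hcard]; exact h.1.two
  · intro x hx y hxy
    rcases h.1.closed _ ((hmem x).1 hx) x (by simp) y hxy with h1 | h1
    · rw [Finset.mem_singleton] at h1
      exact absurd h1 hxy.ne'
    · exact h1
  · intro s hs'
    obtain ⟨C, hC, x, hx, hxs⟩ := h.touch s hs'
    exact ⟨x, Finset.mem_biUnion.2 ⟨C, hC, hx⟩, hxs⟩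
  · intro J hJ hne hne'
    have hinj : Function.Injective (fun x : V => ({x} : Finset V)) := Finset.singleton_injective
    have h1 := h.surplus h4 (J.image (fun x => {x})) (by
        intro C hC
        obtain ⟨x, hx, rfl⟩ := Finset.mem_image.1 hC
        exact (hmem x).1 (hJ hx)) (hne.image _) (by
        rintro he
        apply hne'
        apply Finset.Subset.antisymm hJ
        intro x hx
        have h2 := (hmem x).1 hx
        rw [← he] at h2
        obtain ⟨y, hy, hyx⟩ := Finset.mem_image.1 h2
        rw [← hinj hyx]; exact hy)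
    rw [Finset.card_image_of_injective _ hinj] at h1
    refine h1.trans (Finset.card_le_card ?_)
    intro s hs'
    obtain ⟨h2, C, hC, x, hx, hxs⟩ := mem_Nb.1 hs'
    obtain ⟨y, hy, rfl⟩ := Finset.mem_image.1 hC
    rw [Finset.mem_singleton] at hx
    subst hx
    exact Finset.mem_filter.2 ⟨h2, x, hy, hxs⟩

omit [Fintype V] in
/-- matchings from `L` to `R` minus two vertices using a prescribed edge -/
theorem LR.hall {L R : Finset V} (h : LR G L R) {a b l r : V} (ha : a ∈ R) (hb : b ∈ R)
    (hab : a ≠ b) (hl : l ∈ L) (hr : r ∈ R) (hra : r ≠ a) (hrb : r ≠ b) (hlr : G.Adj l r) :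
    ∃ f, IsPM G (L ∪ (R.erase a).erase b) f ∧ f l = r ∧ ∀ x ∈ L, f x ∈ R := by
  classical
  set t : L → Finset V := fun x => if (x : V) = l then {r} else
    (((R.erase a).erase b).erase r).filter (fun s => G.Adj x s) with ht
  have hall : ∀ s : Finset L, s.card ≤ (s.biUnion t).card := by
    intro s
    -- the part without `l`
    set J : Finset V := (s.image (fun x : L => (x : V))).erase l with hJ
    have hJL : J ⊆ L := by
      intro x hx
      obtain ⟨y, -, rfl⟩ := Finset.mem_image.1 (Finset.mem_of_mem_erase hx)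
      exact y.2
    have hJne : J ≠ L := by
      intro he
      have h1 : l ∈ J := by rw [he]; exact hl
      exact Finset.notMem_erase l _ h1
    have hsub : (((R.filter (fun s => ∃ x ∈ J, G.Adj x s)).erase a).erase b).erase r ⊆
        s.biUnion t := by
      intro y hy
      simp only [Finset.mem_erase, Finset.mem_filter] at hy
      obtain ⟨h1, h2, h3, h4, x, hx, hxy⟩ := hy
      have hx' : x ∈ (s.image (fun x : L => (x : V))) := Finset.mem_of_mem_erase hx
      obtain ⟨z, hz, rfl⟩ := Finset.mem_image.1 hx'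
      rw [Finset.mem_biUnion]
      refine ⟨z, hz, ?_⟩
      have hzl : (z : V) ≠ l := Finset.ne_of_mem_erase hx
      simp only [ht, hzl, if_false, Finset.mem_filter, Finset.mem_erase]
      exact ⟨⟨h1, h2, h3, h4⟩, hxy⟩
    have hJc : J.card ≤ ((((R.filter (fun s => ∃ x ∈ J, G.Adj x s)).erase a).erase b).erase r).card
        := by
      rcases J.eq_empty_or_nonempty with h1 | h1
      · rw [h1]; simp
      · have h2 := h.surplus J hJL h1 hJne
        have e1 := Finset.pred_card_le_card_erase
          (s := (((R.filter (fun s => ∃ x ∈ J, G.Adj x s)).erase a).erase b)) (a := r)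
        have e2 := Finset.pred_card_le_card_erase
          (s := ((R.filter (fun s => ∃ x ∈ J, G.Adj x s)).erase a)) (a := b)
        have e3 := Finset.pred_card_le_card_erase
          (s := (R.filter (fun s => ∃ x ∈ J, G.Adj x s))) (a := a)
        omega
    have hsc : (s.image (fun x : L => (x : V))).card = s.card :=
      Finset.card_image_of_injective _ Subtype.val_injective
    by_cases hls : l ∈ s.image (fun x : L => (x : V))
    · have h1 : J.card + 1 = s.card := by
        rw [hJ, Finset.card_erase_of_mem hls, hsc]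
        have : 0 < (s.image (fun x : L => (x : V))).card := Finset.card_pos.2 ⟨l, hls⟩
        omega
      have h2 : insert r ((((R.filter (fun s => ∃ x ∈ J, G.Adj x s)).erase a).erase b).erase r) ⊆
          s.biUnion t := by
        rw [Finset.insert_subset_iff]
        refine ⟨?_, hsub⟩
        obtain ⟨z, hz, hzl⟩ := Finset.mem_image.1 hls
        rw [Finset.mem_biUnion]
        exact ⟨z, hz, by simp [ht, hzl]⟩
      have h3 := Finset.card_le_card h2
      rw [Finset.card_insert_of_notMem (Finset.notMem_erase _ _)] at h3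
      omega
    · have h1 : J.card = s.card := by
        rw [hJ, Finset.erase_eq_of_notMem hls, hsc]
      exact h1 ▸ hJc.trans (Finset.card_le_card hsub)
  obtain ⟨g, hginj, hg⟩ := (Finset.all_card_le_biUnion_card_iff_exists_injective t).1 hall
  have hgl : g ⟨l, hl⟩ = r := by
    have := hg ⟨l, hl⟩
    simpa [ht] using this
  have hgm : ∀ x : L, g x ∈ (R.erase a).erase b ∧ G.Adj x (g x) := by
    intro x
    by_cases hx : (x : V) = l
    · have : x = ⟨l, hl⟩ := Subtype.ext hx
      subst this
      rw [hgl]
      exact ⟨by simp [hra, hrb, hr], hlr⟩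
    · have := hg x
      simp only [ht, hx, if_false, Finset.mem_filter] at this
      exact ⟨Finset.mem_of_mem_erase this.1, this.2⟩
  have hbR : b ∈ R.erase a := by simp [hab.symm, hb]
  have hsurj : ∀ y ∈ (R.erase a).erase b, ∃ x, g x = y := by
    have h1 : univ.image g ⊆ (R.erase a).erase b := by
      intro y hy
      obtain ⟨x, -, rfl⟩ := Finset.mem_image.1 hy
      exact (hgm x).1
    have h2 : ((R.erase a).erase b).card ≤ (univ.image g).card := by
      rw [Finset.card_image_of_injective _ hginj, Finset.card_univ, Fintype.card_coe,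
        Finset.card_erase_of_mem hbR, Finset.card_erase_of_mem ha, h.card]
      omega
    have h3 := Finset.eq_of_subset_of_card_le h1 h2
    intro y hy
    rw [← h3] at hy
    obtain ⟨x, -, hx⟩ := Finset.mem_image.1 hy
    exact ⟨x, hx⟩
  have hdisj : ∀ y ∈ (R.erase a).erase b, y ∉ L := by
    intro y hy hyL
    exact Finset.disjoint_left.1 h.disj hyL (Finset.mem_of_mem_erase (Finset.mem_of_mem_erase hy))
  set f : V → V := fun v => if hv : v ∈ L then g ⟨v, hv⟩ else
    if hv' : ∃ x, g x = v then (hv'.choose : V) else v with hf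
  have hfL : ∀ v (hv : v ∈ L), f v = g ⟨v, hv⟩ := by
    intro v hv; simp [hf, hv]
  have hfR : ∀ x : L, f (g x) = x := by
    intro x
    have h1 : g x ∉ L := hdisj _ (hgm x).1
    have h2 : ∃ y, g y = g x := ⟨x, rfl⟩
    have h3 : f (g x) = (h2.choose : V) := by
      simp only [hf, h1, dif_neg, not_false_eq_true]
      rw [dif_pos h2]
    rw [h3, hginj h2.choose_spec]
  refine ⟨f, ?_, ?_, ?_⟩
  · intro v hv
    rcases Finset.mem_union.1 hv with h1 | h1
    · rw [hfL v h1, hfR]
      exact ⟨Finset.mem_union_right _ (hgm _).1, rfl, (hgm ⟨v, h1⟩).2⟩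
    · obtain ⟨x, rfl⟩ := hsurj v h1
      rw [hfR, hfL x x.2]
      exact ⟨Finset.mem_union_left _ x.2, rfl, (hgm x).2.symm⟩
  · rw [hfL l hl]; exact hgl
  · intro x hx
    rw [hfL x hx]
    exact Finset.mem_of_mem_erase (Finset.mem_of_mem_erase (hgm _).1)

end Run7.h543
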