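import Pool.Agent.Run7.h543.Multi

/-!
Perfect matchings as partner functions.
-/

namespace Run7.h543

open Finset

variable {V : Type*}

section
variable [DecidableEq V]

lemma dg_edge {G : SimpleGraph V} [Fintype V] {e : Sym2 V} (he : e ∈ G.edgeSet) :
    ∑ v : V, (if v ∈ e then 1 else 0) = 2 := by
  induction e with
  | h a b =>
    have hab : G.Adj a b := he
    have hne : a ≠ b := hab.ne
    have e1 : ∀ v : V, (if v ∈ s(a, b) then 1 else 0)
        = (if v = a then 1 else 0) + (if v = b then 1 else 0) := by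
      intro v
      by_cases h3 : v = a
      · subst h3
        simp [hne]
      · by_cases h4 : v = b
        · subst h4
          simp [hne.symm]
        · simp [h3, h4]
    simp only [e1, Finset.sum_add_distrib]
    simp

lemma sum_dg {G : SimpleGraph V} [Fintype V] {m : Multiset (Sym2 V)} (hm : Edgy G m) :
    ∑ v : V, dg m v = 2 * m.card := by
  induction m using Multiset.induction_on with
  | empty => simp
  | cons e m ih =>
    have h1 : Edgy G m := fun e' he' => hm e' (Multiset.mem_cons_of_mem he')
    have h2 : e ∈ G.edgeSet := hm e (Multiset.mem_cons_self e m)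
    simp only [dg_cons, Finset.sum_add_distrib, ih h1, dg_edge h2, Multiset.card_cons]
    ring

lemma dg_pos_of_par {m : Multiset (Sym2 V)} {v : V} (h : par m v = 1) : 1 ≤ dg m v := by
  rcases Nat.eq_zero_or_pos (dg m v) with h1 | h1
  · unfold par at h; rw [h1] at h; simp at h
  · exact h1

lemma card_le_of_par {G : SimpleGraph V} [Fintype V] {m : Multiset (Sym2 V)} (hm : Edgy G m)
    (U : Finset V) (h : ∀ v ∈ U, par m v = 1) : U.card ≤ 2 * m.card := by
  rw [← sum_dg hm]
  calc U.card = ∑ v ∈ U, 1 := by simp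
    _ ≤ ∑ v ∈ U, dg m v := Finset.sum_le_sum (fun v hv => dg_pos_of_par (h v hv))
    _ ≤ ∑ v : V, dg m v := Finset.sum_le_sum_of_subset (Finset.subset_univ _)

end

/-- `f` is the partner function of a perfect matching of `G[U]`. -/
def IsPM (G : SimpleGraph V) (U : Finset V) (f : V → V) : Prop :=
  ∀ v ∈ U, f v ∈ U ∧ f (f v) = v ∧ G.Adj v (f v)

section
variable [DecidableEq V]

lemma IsPM.exists_multiset {G : SimpleGraph V} [Fintype V] {U : Finset V} {f : V → V}
    (h : IsPM G U f) :
    ∃ m, Edgy G m ∧ (∀ v, par m v = if v ∈ U then 1 else 0) ∧ 2 * m.card = U.card ∧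
      ∀ v ∈ U, s(v, f v) ∈ m := by
  set s0 : Finset (Sym2 V) := U.image (fun v => s(v, f v)) with hs0
  have hE : Edgy G s0.val := by
    intro e he
    obtain ⟨v, hv, rfl⟩ := Finset.mem_image.1 (show e ∈ s0 from he)
    exact (h v hv).2.2
  have hdg : ∀ v, dg s0.val v = if v ∈ U then 1 else 0 := by
    intro v
    have e1 : dg s0.val v = (s0.filter (fun e => v ∈ e)).card := by
      unfold dg
      rw [Multiset.countP_eq_card_filter]
      rfl
    rw [e1]
    by_cases hv : v ∈ U
    · have e2 : s0.filter (fun e => v ∈ e) = {s(v, f v)} := by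
        ext e
        simp only [Finset.mem_filter, Finset.mem_singleton, hs0, Finset.mem_image]
        constructor
        · rintro ⟨⟨w, hw, rfl⟩, hvw⟩
          rw [Sym2.mem_iff] at hvw
          rcases hvw with h1 | h1
          · rw [h1]
          · rw [h1, (h w hw).2.1, Sym2.eq_swap]
        · rintro rfl
          exact ⟨⟨v, hv, rfl⟩, by simp⟩
      rw [e2, if_pos hv]; simp
    · have e2 : s0.filter (fun e => v ∈ e) = ∅ := by
        ext e
        simp only [Finset.mem_filter, hs0, Finset.mem_image, Finset.notMem_empty, iff_false]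
        rintro ⟨⟨w, hw, rfl⟩, hvw⟩
        rw [Sym2.mem_iff] at hvw
        rcases hvw with h1 | h1
        · exact hv (h1 ▸ hw)
        · exact hv (h1 ▸ (h w hw).1)
      rw [e2, if_neg hv]; simp
  refine ⟨s0.val, hE, ?_, ?_, ?_⟩
  · intro v
    unfold par
    rw [hdg]
    split_ifs <;> simp
  · rw [← sum_dg hE]
    simp only [hdg]
    simp
  · intro v hv
    exact Finset.mem_image.2 ⟨v, hv, rfl⟩

/-- Matching version of the colouring lemma. -/
theorem match_coloring [Fintype V] (G : SimpleGraph V) (hS : IsSeymour G) (U : Finset V) :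
    ∃ χ : V → Bool, ∀ f, IsPM G U f → ∀ v ∈ U, χ v ≠ χ (f v) := by
  obtain ⟨χ, hχ⟩ := coloring G hS (fun v => if v ∈ U then 1 else 0) U.card
    (fun m hm hp => card_le_of_par hm U (fun v hv => by rw [hp v, if_pos hv]))
  refine ⟨χ, fun f hf v hv => ?_⟩
  obtain ⟨m, h1, h2, h3, h4⟩ := hf.exists_multiset
  exact hχ m h1 h2 h3.le v (f v) (h4 v hv)

/-- In a matching with all edges bichromatic the two colour classes have equal size. -/
lemma IsPM.balanced {G : SimpleGraph V} {U : Finset V} {f : V → V} (h : IsPM G U f)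
    (χ : V → Bool) (hχ : ∀ v ∈ U, χ v ≠ χ (f v)) :
    (U.filter (fun v => χ v = true)).card = (U.filter (fun v => χ v = false)).card := by
  apply Finset.card_bij (fun v _ => f v)
  · intro v hv
    rw [Finset.mem_filter] at hv ⊢
    refine ⟨(h v hv.1).1, ?_⟩
    have := hχ v hv.1
    rw [hv.2] at this
    cases hh : χ (f v)
    · rfl
    · rw [hh] at this; exact absurd rfl this
  · intro v hv w hw hvw
    rw [Finset.mem_filter] at hv hw
    rw [← (h v hv.1).2.1, ← (h w hw.1).2.1, hvw]
  · intro w hw
    rw [Finset.mem_filter] at hw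
    refine ⟨f w, ?_, (h w hw.1).2.1⟩
    rw [Finset.mem_filter]
    refine ⟨(h w hw.1).1, ?_⟩
    have := hχ w hw.1
    rw [hw.2] at this
    cases hh : χ (f w)
    · rw [hh] at this; exact absurd rfl this
    · rfl

end

end Run7.h543
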