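import Pool.Agent.Run7.h543.Defs

/-!
Parity vectors of multisets of edges and the colouring lemma.
-/

namespace Run7.h543

open Finset

variable {V : Type*}

section
variable [DecidableEq V]

/-- number of edges of `m` containing `v` -/
def dg (m : Multiset (Sym2 V)) (v : V) : ℕ := m.countP (fun e => v ∈ e)

@[simp] lemma dg_zero (v : V) : dg (0 : Multiset (Sym2 V)) v = 0 := by simp [dg]

@[simp] lemma dg_add (m m' : Multiset (Sym2 V)) (v : V) : dg (m + m') v = dg m v + dg m' v := by
  simp [dg]

lemma dg_cons (e : Sym2 V) (m : Multiset (Sym2 V)) (v : V) :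
    dg (e ::ₘ m) v = dg m v + if v ∈ e then 1 else 0 := by
  simp [dg, Multiset.countP_cons]

lemma dg_sum {ι : Type*} (s : Finset ι) (f : ι → Multiset (Sym2 V)) (v : V) :
    dg (∑ i ∈ s, f i) v = ∑ i ∈ s, dg (f i) v := by
  classical
  induction s using Finset.induction_on with
  | empty => simp
  | insert a s ha ih => simp [Finset.sum_insert ha, ih]

/-- parity -/
def par (m : Multiset (Sym2 V)) (v : V) : ZMod 2 := (dg m v : ZMod 2)

@[simp] lemma par_zero (v : V) : par (0 : Multiset (Sym2 V)) v = 0 := by simp [par]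

@[simp] lemma par_add (m m' : Multiset (Sym2 V)) (v : V) : par (m + m') v = par m v + par m' v := by
  simp [par]

lemma par_cons (e : Sym2 V) (m : Multiset (Sym2 V)) (v : V) :
    par (e ::ₘ m) v = par m v + if v ∈ e then 1 else 0 := by
  simp [par, dg_cons]

lemma par_sum {ι : Type*} (s : Finset ι) (f : ι → Multiset (Sym2 V)) (v : V) :
    par (∑ i ∈ s, f i) v = ∑ i ∈ s, par (f i) v := by
  simp [par, dg_sum]

/-- all the members are edges of `G` -/
def Edgy (G : SimpleGraph V) (m : Multiset (Sym2 V)) : Prop := ∀ e ∈ m, e ∈ G.edgeSet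

omit [DecidableEq V] in
lemma Edgy.add {G : SimpleGraph V} {m m' : Multiset (Sym2 V)} (h : Edgy G m) (h' : Edgy G m') :
    Edgy G (m + m') := by
  intro e he
  rcases Multiset.mem_add.1 he with h1 | h1
  · exact h e h1
  · exact h' e h1

omit [DecidableEq V] in
lemma Edgy.cons {G : SimpleGraph V} {m : Multiset (Sym2 V)} {e : Sym2 V} (h : Edgy G m)
    (he : e ∈ G.edgeSet) : Edgy G (e ::ₘ m) := by
  intro e' he'
  rcases Multiset.mem_cons.1 he' with h1 | h1
  · exact h1 ▸ he
  · exact h e' h1

omit [DecidableEq V] in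
lemma Edgy.sum {G : SimpleGraph V} {ι : Type*} {s : Finset ι} {f : ι → Multiset (Sym2 V)}
    (h : ∀ i ∈ s, Edgy G (f i)) : Edgy G (∑ i ∈ s, f i) := by
  intro e he
  rw [Multiset.mem_sum] at he
  obtain ⟨i, hi, he⟩ := he
  exact h i hi e he

/-- The parity of the number of edges of `m` crossing `X`. -/
lemma cross_parity [Fintype V] (G : SimpleGraph V) (m : Multiset (Sym2 V)) (hm : Edgy G m)
    (X : Set V) [DecidablePred (· ∈ X)] [DecidablePred (· ∈ cut G X)] :
    ((m.countP (· ∈ cut G X) : ℕ) : ZMod 2) = ∑ v ∈ univ.filter (· ∈ X), par m v := by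
  induction m using Multiset.induction_on with
  | empty => simp
  | cons e m ih =>
    have h1 : Edgy G m := fun e' he' => hm e' (Multiset.mem_cons_of_mem he')
    have h2 : e ∈ G.edgeSet := hm e (Multiset.mem_cons_self e m)
    rw [Multiset.countP_cons]
    simp only [par_cons, Finset.sum_add_distrib]
    push_cast
    rw [ih h1]
    congr 1
    induction e with
    | h a b =>
      have hab : G.Adj a b := h2
      have hne : a ≠ b := hab.ne
      have e1 : ∀ v : V, (if v ∈ s(a, b) then (1 : ZMod 2) else 0)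
          = (if v = a then 1 else 0) + (if v = b then 1 else 0) := by
        intro v
        by_cases h3 : v = a
        · subst h3
          simp [hne]
        · by_cases h4 : v = b
          · subst h4
            simp [hne.symm]
          · simp [h3, h4]
      simp only [e1, Finset.sum_add_distrib]
      have e2 : ∀ c : V, ∑ v ∈ univ.filter (· ∈ X), (if v = c then (1 : ZMod 2) else 0)
          = if c ∈ X then 1 else 0 := by
        intro c
        simp [Finset.sum_ite_eq']
      rw [e2, e2]
      have e3 : s(a, b) ∈ cut G X ↔ (a ∈ X ∧ b ∉ X) ∨ (b ∈ X ∧ a ∉ X) := by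
        constructor
        · rintro ⟨x, y, hx, hy, hxy, h⟩
          rw [Sym2.eq_iff] at h
          rcases h with ⟨rfl, rfl⟩ | ⟨rfl, rfl⟩
          · exact Or.inl ⟨hx, hy⟩
          · exact Or.inr ⟨hx, hy⟩
        · rintro (⟨h1, h2⟩ | ⟨h1, h2⟩)
          · exact ⟨a, b, h1, h2, hab, rfl⟩
          · exact ⟨b, a, h1, h2, hab.symm, Sym2.eq_swap⟩
      by_cases ha : a ∈ X <;> by_cases hb : b ∈ X <;> simp [e3, ha, hb]
      decide

/-- Multisets of edges of minimum size for their parity have no repeated members. -/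
lemma nodup_of_min (G : SimpleGraph V) {m : Multiset (Sym2 V)} (hm : Edgy G m)
    (hmin : ∀ m', Edgy G m' → (∀ v, par m' v = par m v) → m.card ≤ m'.card) : m.Nodup := by
  rw [Multiset.nodup_iff_ne_cons_cons]
  intro a t h
  have h1 : Edgy G t := fun e he => hm e (by rw [h]; simp [he])
  have h2 : ∀ v, par t v = par m v := by
    intro v
    rw [h, par_cons, par_cons]
    have : ∀ x y : ZMod 2, x = x + y + y := by decide
    apply this
  have h3 := hmin t h1 h2
  rw [h] at h3
  simp at h3

lemma par_val (s : Finset (Sym2 V)) (v : V) :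
    par s.val v = ∑ e ∈ s, if v ∈ e then (1 : ZMod 2) else 0 := by
  induction s using Finset.induction_on with
  | empty => simp
  | insert a s ha ih =>
    rw [Finset.insert_val_of_notMem ha, par_cons, Finset.sum_insert ha, ih, add_comm]

lemma par_circuit (G : SimpleGraph V) {v : V} {p : G.Walk v v} (hp : p.IsTrail) (x : V) :
    par (p.edges : Multiset (Sym2 V)) x = 0 := by
  have h := hp.even_countP_edges_iff x
  have h2 : Even (p.edges.countP fun e => x ∈ e) := by
    rw [h]; intro h; exact absurd rfl h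
  unfold par dg
  rw [Multiset.coe_countP]
  rwa [ZMod.natCast_eq_zero_iff_even]

/-- A minimum-size edge set in its parity class is admissible. -/
lemma admissible_of_min (G : SimpleGraph V) {f : Finset (Sym2 V)} (hf : Edgy G f.val)
    (hmin : ∀ m', Edgy G m' → (∀ v, par m' v = par f.val v) → f.card ≤ m'.card) :
    Admissible G (f : Set (Sym2 V)) := by
  refine ⟨fun e he => hf e he, ?_⟩
  rintro C ⟨v, p, hp, rfl⟩
  set c : Finset (Sym2 V) := p.edges.toFinset with hc
  have hcC : {e | e ∈ p.edges} = (c : Set (Sym2 V)) := by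
    ext e; simp [hc]
  rw [hcC]
  have hcv : c.val = (p.edges : Multiset (Sym2 V)) := by
    rw [hc, List.toFinset_val, List.dedup_eq_self.2 hp.edges_nodup]
  have h1 : Edgy G ((f \ c).val + (c \ f).val) := by
    refine Edgy.add (fun e he => hf e ?_) (fun e he => ?_)
    · exact (Finset.mem_sdiff.1 he).1
    · have : e ∈ c := (Finset.mem_sdiff.1 he).1
      rw [hc, List.mem_toFinset] at this
      exact p.edges_subset_edgeSet this
  have h2 : ∀ v, par ((f \ c).val + (c \ f).val) v = par f.val v := by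
    intro x
    have h3 : par c.val x = 0 := by rw [hcv]; exact par_circuit G hp.isTrail x
    rw [par_add, par_val, par_val, par_val]
    rw [par_val] at h3
    have e1 := Finset.sum_inter_add_sum_sdiff f c (fun e => if x ∈ e then (1 : ZMod 2) else 0)
    have e2 := Finset.sum_inter_add_sum_sdiff c f (fun e => if x ∈ e then (1 : ZMod 2) else 0)
    rw [Finset.inter_comm c f] at e2
    rw [h3] at e2
    rw [← e1]
    clear e1
    generalize (∑ e ∈ f ∩ c, if x ∈ e then (1 : ZMod 2) else 0) = A at *
    generalize (∑ e ∈ f \ c, if x ∈ e then (1 : ZMod 2) else 0) = B at *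
    generalize (∑ e ∈ c \ f, if x ∈ e then (1 : ZMod 2) else 0) = D at *
    revert e2
    revert A B D
    decide
  have h3 := hmin _ h1 h2
  rw [Multiset.card_add] at h3
  change f.card ≤ (f \ c).card + (c \ f).card at h3
  have h4 := Finset.card_sdiff_add_card_inter f c
  rw [← Finset.coe_inter, ← Finset.coe_sdiff, Set.ncard_coe_finset, Set.ncard_coe_finset,
    Finset.inter_comm]
  omega

omit [DecidableEq V] in
lemma mem_cut_iff {G : SimpleGraph V} {X : Set V} {x y : V} (h : G.Adj x y) :
    s(x, y) ∈ cut G X ↔ (x ∈ X ∧ y ∉ X) ∨ (y ∈ X ∧ x ∉ X) := by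
  constructor
  · rintro ⟨a, b, ha, hb, hab, h⟩
    rw [Sym2.eq_iff] at h
    rcases h with ⟨rfl, rfl⟩ | ⟨rfl, rfl⟩
    · exact Or.inl ⟨ha, hb⟩
    · exact Or.inr ⟨ha, hb⟩
  · rintro (⟨h1, h2⟩ | ⟨h1, h2⟩)
    · exact ⟨x, y, h1, h2, h, rfl⟩
    · exact ⟨y, x, h1, h2, h.symm, Sym2.eq_swap⟩

/-- **Colouring lemma.** In a Seymour graph, there is a two-colouring of the vertices in which all
edges of all minimum `T`-joins are bichromatic. -/
theorem coloring [Fintype V] (G : SimpleGraph V) (hS : IsSeymour G) (T : V → ZMod 2) (N : ℕ)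
    (hlow : ∀ m, Edgy G m → (∀ v, par m v = T v) → N ≤ 2 * m.card) :
    ∃ χ : V → Bool, ∀ m, Edgy G m → (∀ v, par m v = T v) → 2 * m.card ≤ N →
      ∀ x y, s(x, y) ∈ m → χ x ≠ χ y := by
  classical
  by_cases hex : ∃ m, Edgy G m ∧ (∀ v, par m v = T v) ∧ 2 * m.card ≤ N
  swap
  · exact ⟨fun _ => true, fun m h1 h2 h3 => absurd ⟨m, h1, h2, h3⟩ hex⟩
  obtain ⟨m0, hE0, hT0, hN0⟩ := hex
  have hmin0 : ∀ m', Edgy G m' → (∀ v, par m' v = par m0 v) → m0.card ≤ m'.card := by
    intro m' h1 h2
    have := hlow m' h1 (fun v => (h2 v).trans (hT0 v))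
    omega
  have hnd0 := nodup_of_min G hE0 hmin0
  set f : Finset (Sym2 V) := ⟨m0, hnd0⟩ with hf
  have hadm : Admissible G (f : Set (Sym2 V)) := admissible_of_min G (f := f) hE0 hmin0
  obtain ⟨X, hX1, hX2⟩ := hS _ hadm
  have hn : (f : Set (Sym2 V)).ncard = m0.card := by
    rw [Set.ncard_coe_finset]; rfl
  have hc0 : ∀ i, m0.countP (· ∈ cut G (X i)) = 1 := by
    intro i
    have h1 := hX1 i
    have h2 : cut G (X i) ∩ (f : Set (Sym2 V)) = ((f.filter (· ∈ cut G (X i)) : Finset (Sym2 V)) :
        Set (Sym2 V)) := by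
      ext e; simp [and_comm]
    rw [h2, Set.ncard_coe_finset] at h1
    rw [Multiset.countP_eq_card_filter]
    exact h1
  refine ⟨fun v => decide ((∑ i, if v ∈ X i then (1 : ZMod 2) else 0) = 0), ?_⟩
  intro m hE hT hN x y hxy
  have hmin : ∀ m', Edgy G m' → (∀ v, par m' v = par m v) → m.card ≤ m'.card := by
    intro m' h1 h2
    have := hlow m' h1 (fun v => (h2 v).trans (hT v))
    omega
  have hnd := nodup_of_min G hE hmin
  have hcard : m.card = m0.card := by
    have h1 := hlow m hE hT
    have h2 := hlow m0 hE0 hT0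
    omega
  have hcr : ∀ i, ∃ e ∈ m, e ∈ cut G (X i) := by
    intro i
    have h1 := cross_parity G m hE (X i)
    have h2 := cross_parity G m0 hE0 (X i)
    rw [hc0 i] at h2
    have h3 : ((m.countP (· ∈ cut G (X i)) : ℕ) : ZMod 2) = 1 := by
      rw [h1]
      simp only [hT]
      simp only [hT0] at h2
      rw [← h2]
      simp
    have h4 : m.countP (· ∈ cut G (X i)) ≠ 0 := by
      intro h; rw [h] at h3; simp at h3
    exact Multiset.countP_pos.1 (Nat.pos_of_ne_zero h4)
  choose e he1 he2 using hcr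
  have hinj : Function.Injective e := by
    intro i j hij
    by_contra hne
    exact Set.disjoint_left.1 (hX2 i j hne) (he2 i) (hij ▸ he2 j)
  have hsurj : ∀ e0 ∈ m, ∃ i, e i = e0 := by
    have h1 : univ.image e ⊆ (⟨m, hnd⟩ : Finset (Sym2 V)) := by
      intro a ha
      obtain ⟨i, -, rfl⟩ := Finset.mem_image.1 ha
      exact he1 i
    have h2 : (⟨m, hnd⟩ : Finset (Sym2 V)).card ≤ (univ.image e).card := by
      rw [Finset.card_image_of_injective _ hinj, Finset.card_univ, Fintype.card_fin, hn, ← hcard]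
      rfl
    have h3 := Finset.eq_of_subset_of_card_le h1 h2
    intro e0 h0
    have h4 : e0 ∈ (⟨m, hnd⟩ : Finset (Sym2 V)) := h0
    rw [← h3] at h4
    obtain ⟨i, -, hi⟩ := Finset.mem_image.1 h4
    exact ⟨i, hi⟩
  obtain ⟨i0, hi0⟩ := hsurj _ hxy
  have hadj : G.Adj x y := hE _ hxy
  have hsum : (∑ i, if x ∈ X i then (1 : ZMod 2) else 0) + (∑ i, if y ∈ X i then (1 : ZMod 2) else 0)
      = 1 := by
    rw [← Finset.sum_add_distrib, Finset.sum_eq_single i0]
    · have h1 := he2 i0
      rw [hi0, mem_cut_iff hadj] at h1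
      rcases h1 with ⟨h1, h2⟩ | ⟨h1, h2⟩ <;> simp [h1, h2]
    · intro i _ hi
      have h1 : s(x, y) ∉ cut G (X i) := by
        intro h
        refine Set.disjoint_left.1 (hX2 i i0 hi) h ?_
        rw [← hi0]; exact he2 i0
      rw [mem_cut_iff hadj] at h1
      by_cases hx : x ∈ X i <;> by_cases hy : y ∈ X i <;> simp [hx, hy] at h1 ⊢
      decide
    · intro h; exact absurd (Finset.mem_univ _) h
  simp only [ne_eq, decide_eq_decide]
  generalize (∑ i, if x ∈ X i then (1 : ZMod 2) else 0) = A at *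
  generalize (∑ i, if y ∈ X i then (1 : ZMod 2) else 0) = B at *
  clear * - hsum
  revert A B
  decide

end

end Run7.h543
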