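import Pool.Agent.Run7.h543.Good

/-!
In a Seymour graph the members of a minimal family are singletons.
-/

namespace Run7.h543

open Finset

variable {V : Type*} [DecidableEq V] [Fintype V]
variable {G : SimpleGraph V} {S : Finset V} {K : Finset (Finset V)}

lemma MinGood.conn (h4 : Sep 4 G) (h : MinGood G S K) {C0 : Finset V} (hC0 : C0 ∈ K) :
    ∀ A' ⊆ S, A'.Nonempty →
      (∀ C ∈ K.erase C0, (∀ s ∈ S, (∃ x ∈ C, G.Adj x s) → s ∈ A') ∨
        (∀ s ∈ A', ¬ ∃ x ∈ C, G.Adj x s)) → A' = S := by
  classical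
  intro A' hA' hne hsplit
  have hcS := h.card_eq h4
  have htwo := h.1.two
  have hcE : (K.erase C0).card = K.card - 1 := Finset.card_erase_of_mem hC0
  have hneK : ∀ J ⊆ K.erase C0, J ≠ K := by
    rintro J hJ rfl
    exact Finset.notMem_erase C0 J (hJ hC0)
  set J1 := (K.erase C0).filter (fun C => ∀ s ∈ S, (∃ x ∈ C, G.Adj x s) → s ∈ A') with hJ1
  set J2 := (K.erase C0).filter (fun C => ¬ ∀ s ∈ S, (∃ x ∈ C, G.Adj x s) → s ∈ A') with hJ2
  have hJ12 : J1.card + J2.card = (K.erase C0).card := Finset.card_filter_add_card_filter_not _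
  have hJ1E : J1 ⊆ K.erase C0 := Finset.filter_subset _ _
  have hJ2E : J2 ⊆ K.erase C0 := Finset.filter_subset _ _
  have hEK : K.erase C0 ⊆ K := Finset.erase_subset _ _
  have hN1 : Nb G S J1 ⊆ A' := by
    intro s hs
    obtain ⟨h1, C, hC, x, hx, hxs⟩ := mem_Nb.1 hs
    exact (Finset.mem_filter.1 hC).2 s h1 ⟨x, hx, hxs⟩
  have hN2 : Nb G S J2 ⊆ S \ A' := by
    intro s hs
    obtain ⟨h1, C, hC, x, hx, hxs⟩ := mem_Nb.1 hs
    rw [Finset.mem_filter] at hC
    rw [Finset.mem_sdiff]
    refine ⟨h1, fun hsA => ?_⟩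
    rcases hsplit C hC.1 with h2 | h2
    · exact hC.2 h2
    · exact h2 s hsA ⟨x, hx, hxs⟩
  have hcA := Finset.card_le_card hA'
  have hsd : (S \ A').card = S.card - A'.card := Finset.card_sdiff_of_subset hA'
  have hpos := Finset.card_pos.2 hne
  have hc1 := Finset.card_le_card hN1
  have hc2 := Finset.card_le_card hN2
  rcases J1.eq_empty_or_nonempty with h1 | h1
  · have h1' : J1.card = 0 := by rw [h1]; rfl
    have h2 : J2.Nonempty := Finset.card_pos.1 (by omega)
    have h3 := h.surplus h4 J2 (hJ2E.trans hEK) h2 (hneK _ hJ2E)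
    omega
  · rcases J2.eq_empty_or_nonempty with h2 | h2
    · have h2' : J2.card = 0 := by rw [h2]; rfl
      have h3 := h.surplus h4 J1 (hJ1E.trans hEK) h1 (hneK _ hJ1E)
      exact Finset.eq_of_subset_of_card_le hA' (by omega)
    · have h3 := h.surplus h4 J1 (hJ1E.trans hEK) h1 (hneK _ hJ1E)
      have h5 := h.surplus h4 J2 (hJ2E.trans hEK) h2 (hneK _ hJ2E)
      omega

lemma MinGood.nbr (h4 : Sep 4 G) (h : MinGood G S K) {C : Finset V} (hC : C ∈ K) :
    ∃ s ∈ S, ∃ x ∈ C, G.Adj x s := by
  have hne : ({C} : Finset (Finset V)) ≠ K := by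
    intro he
    have := h.1.two
    rw [← he] at this
    simp at this
  have h1 := h.surplus h4 {C} (by simpa using hC) (by simp) hne
  obtain ⟨s, hs⟩ : (Nb G S {C}).Nonempty := Finset.card_pos.1 (by omega)
  obtain ⟨hs1, D, hD, x, hx, hxs⟩ := mem_Nb.1 hs
  rw [Finset.mem_singleton] at hD
  subst hD
  exact ⟨s, hs1, x, hx, hxs⟩

/-- the auxiliary graph: `G` plus a vertex adjacent to all vertices with a neighbour in `S` -/
def auxG (G : SimpleGraph V) (S : Finset V) : SimpleGraph (Option V) where
  Adj a b := match a, b with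
    | some x, some y => G.Adj x y
    | none, some y => ∃ s ∈ S, G.Adj y s
    | some x, none => ∃ s ∈ S, G.Adj x s
    | none, none => False
  symm := ⟨by
    intro a b h
    cases a <;> cases b <;> simp_all [G.adj_comm]⟩
  loopless := ⟨by
    intro a h
    cases a <;> simp_all⟩

omit [DecidableEq V] [Fintype V] in
@[simp] lemma auxG_some_some (x y : V) : (auxG G S).Adj (some x) (some y) ↔ G.Adj x y := Iff.rfl

omit [DecidableEq V] [Fintype V] in
@[simp] lemma auxG_none_some (y : V) : (auxG G S).Adj none (some y) ↔ ∃ s ∈ S, G.Adj y s := Iff.rfl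

omit [DecidableEq V] [Fintype V] in
@[simp] lemma auxG_some_none (y : V) : (auxG G S).Adj (some y) none ↔ ∃ s ∈ S, G.Adj y s := Iff.rfl

theorem MinGood.single (hS : IsSeymour G) (h4 : Sep 4 G) (h : MinGood G S K) {C : Finset V}
    (hC : C ∈ K) : C.card = 1 := by
  classical
  by_contra hne1
  have hodd := h.1.odd C hC
  have h3 : 3 ≤ C.card := by
    obtain ⟨k, hk⟩ := hodd
    omega
  have hSne : S.Nonempty := Finset.card_pos.1 (by have := h.card_eq h4; omega)
  obtain ⟨χ, hχ⟩ := cell_coloring G hS S K C hC h.1.disjS h.1.odd h.1.pw h.1.closed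
    (fun D hD c hc => h.near hD hc) (h.conn h4 hC)
    (fun D hD => h.nbr h4 (Finset.mem_of_mem_erase hD)) hSne
  obtain ⟨s0, hs0, u0, hu0, hus0⟩ := h.nbr h4 hC
  -- contacts have the same colour
  have hcol : ∀ u ∈ C, (∃ s ∈ S, G.Adj u s) → χ u = χ u0 := by
    rintro u hu ⟨s, hs, hus⟩
    obtain ⟨f1, hf1⟩ := h.near hC hu
    obtain ⟨f0, hf0⟩ := h.near hC hu0
    have b1 := hf1.balanced χ ((hχ u hu s hs hus).2 f1 hf1)
    have b0 := hf0.balanced χ ((hχ u0 hu0 s0 hs0 hus0).2 f0 hf0)
    have e1 := card_filter_erase hu (fun v => χ v = true)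
    have e2 := card_filter_erase hu (fun v => χ v = false)
    have e3 := card_filter_erase hu0 (fun v => χ v = true)
    have e4 := card_filter_erase hu0 (fun v => χ v = false)
    cases h1 : χ u <;> cases h2 : χ u0 <;>
      simp only [h1, h2, Bool.false_eq_true, Bool.true_eq_false, if_false, if_true] at e1 e2 e3 e4 ⊢
        <;> omega
  set H := auxG G S with hH
  set U : Finset (Option V) := Finset.insertNone C with hU
  have hUcard : U.card = C.card + 1 := Finset.card_insertNone C
  set χ' : Option V → Bool := fun o => match o with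
    | some x => χ x
    | none => ! χ u0 with hχ'
  have hχ's : ∀ x, χ' (some x) = χ x := fun x => rfl
  have hχ'n : χ' none = ! χ u0 := rfl
  have hbi : ∀ f, IsPM H U f → ∀ v ∈ U, χ' v ≠ χ' (f v) := by
    intro f hf
    have hnU : (none : Option V) ∈ U := by simp [hU]
    obtain ⟨hn1, hn2, hn3⟩ := hf none hnU
    obtain ⟨u, hu⟩ : ∃ u, f none = some u := by
      cases hfn : f none with
      | none => rw [hfn] at hn3; exact absurd hn3 (H.loopless.irrefl _)
      | some u => exact ⟨u, rfl⟩
    rw [hu] at hn1 hn2 hn3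
    have huC : u ∈ C := by simpa [hU] using hn1
    have hcon : ∃ s ∈ S, G.Adj u s := by simpa [hH] using hn3
    obtain ⟨s, hs, hus⟩ := hcon
    have hfs : ∀ v ∈ C.erase u, ∃ w ∈ C.erase u, f (some v) = some w := by
      intro v hv
      have hvC := Finset.mem_of_mem_erase hv
      have hvu := Finset.ne_of_mem_erase hv
      obtain ⟨h1, h2, h3⟩ := hf (some v) (by simp [hU, hvC])
      cases hfv : f (some v) with
      | none =>
        rw [hfv, hu] at h2
        exact absurd (Option.some.inj h2).symm hvu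
      | some w =>
        refine ⟨w, ?_, rfl⟩
        rw [hfv] at h1 h2
        rw [Finset.mem_erase]
        refine ⟨?_, by simpa [hU] using h1⟩
        rintro rfl
        rw [hn2] at h2
        exact absurd h2 (by simp)
    have hPM : IsPM G (C.erase u) (fun v => (f (some v)).getD v) := by
      intro v hv
      obtain ⟨w, hw, hfw⟩ := hfs v hv
      obtain ⟨h1, h2, h3⟩ := hf (some v) (by simp [hU, Finset.mem_of_mem_erase hv])
      simp only [hfw, Option.getD_some]
      rw [hfw] at h2 h3
      refine ⟨hw, ?_, by simpa [hH] using h3⟩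
      rw [h2]; rfl
    have hχu := hχ u huC s hs hus
    intro v hv
    cases v with
    | none =>
      rw [hu, hχ'n, hχ's, hcol u huC ⟨s, hs, hus⟩]
      cases χ u0 <;> simp
    | some v =>
      by_cases hvu : v = u
      · subst hvu
        rw [hn2, hχ'n, hχ's, hcol v huC ⟨s, hs, hus⟩]
        cases χ u0 <;> simp
      · have hvC : v ∈ C.erase u := by
          rw [Finset.mem_erase]; exact ⟨hvu, by simpa [hU] using hv⟩
        obtain ⟨w, hw, hfw⟩ := hfs v hvC
        have h5 := hχu.2 _ hPM v hvC
        simp only [hfw, Option.getD_some] at h5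
        rw [hfw, hχ's, hχ's]
        exact h5
  obtain ⟨p, hp, q, hq, hpq, hno⟩ := exists_pair H U (by omega) χ' hbi
  have hqp : q ∈ U.erase p := by simp [hpq.symm, hq]
  have hcpq : ((U.erase p).erase q).card + 2 = U.card := by
    rw [Finset.card_erase_of_mem hqp, Finset.card_erase_of_mem hp]
    omega
  rcases tutte_dichotomy H ((U.erase p).erase q) (by
    obtain ⟨k, hk⟩ := hodd
    exact ⟨k, by omega⟩) with h1 | ⟨X, K', hX, hK', hpw, hcl, hbig⟩
  · exact hno h1
  have hpX : p ∉ X := fun hx => by simpa using hX hx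
  have hqX : q ∉ X := fun hx => by simpa using hX hx
  set Bf : Finset (Option V) := insert p (insert q X) with hBf
  have hBfc : Bf.card = X.card + 2 := by
    rw [hBf, Finset.card_insert_of_notMem (by simp [hpq, hpX]), Finset.card_insert_of_notMem hqX]
  have hK'U : ∀ D ∈ K', D ⊆ U := fun D hD =>
    (hK' D hD).1.trans ((Finset.erase_subset _ _).trans (Finset.erase_subset _ _))
  have hK'B : ∀ D ∈ K', Disjoint D Bf := by
    intro D hD
    rw [hBf, Finset.disjoint_insert_right, Finset.disjoint_insert_right]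
    exact ⟨fun hx => by simpa using (hK' D hD).1 hx, fun hx => by simpa using (hK' D hD).1 hx,
      (hK' D hD).2.1⟩
  have hBfU : Bf ⊆ U := by
    intro x hx
    rw [hBf, Finset.mem_insert, Finset.mem_insert] at hx
    rcases hx with rfl | rfl | hx
    · exact hp
    · exact hq
    · exact Finset.mem_of_mem_erase (Finset.mem_of_mem_erase (hX hx))
  have hcl' : ∀ D ∈ K', ∀ x ∈ D, ∀ y ∈ U, H.Adj x y → y ∈ D ∨ y ∈ Bf := by
    intro D hD x hx y hy hxy
    by_cases h1 : y = p
    · exact Or.inr (by simp [hBf, h1])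
    · by_cases h2 : y = q
      · exact Or.inr (by simp [hBf, h2])
      · rcases hcl D hD x hx y (by simp [h1, h2, hy]) hxy with h3 | h3
        · exact Or.inl h3
        · exact Or.inr (by simp [hBf, h3])
  -- transport of families
  set K1 : Finset (Finset (Option V)) := K'.filter (fun D => none ∉ D) with hK1
  set K2 : Finset (Finset V) := K1.image (fun D => Finset.eraseNone D) with hK2
  have hinj : Set.InjOn (fun D : Finset (Option V) => Finset.eraseNone D) (K1 : Set _) := by
    intro D hD D' hD' he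
    have hD1 : none ∉ D := (Finset.mem_filter.1 hD).2
    have hD2 : none ∉ D' := (Finset.mem_filter.1 hD').2
    ext o
    cases o with
    | none => simp [hD1, hD2]
    | some x =>
      have : x ∈ Finset.eraseNone D ↔ x ∈ Finset.eraseNone D' := by
        simp only at he; rw [he]
      simpa using this
  have hK2c : K2.card = K1.card := Finset.card_image_of_injOn hinj
  have hK2m : ∀ D ∈ K2, ∃ E ∈ K', none ∉ E ∧ D = Finset.eraseNone E := by
    intro D hD
    obtain ⟨E, hE, rfl⟩ := Finset.mem_image.1 hD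
    exact ⟨E, (Finset.mem_filter.1 hE).1, (Finset.mem_filter.1 hE).2, rfl⟩
  have hK2C : ∀ D ∈ K2, D ⊆ C ∧ Disjoint D (Finset.eraseNone Bf) ∧ Odd D.card := by
    intro D hD
    obtain ⟨E, hE, hnE, rfl⟩ := hK2m D hD
    refine ⟨?_, ?_, ?_⟩
    · intro x hx
      rw [Finset.mem_eraseNone] at hx
      have := hK'U E hE hx
      simpa [hU] using this
    · rw [Finset.disjoint_left]
      intro x hx hx'
      rw [Finset.mem_eraseNone] at hx hx'
      exact Finset.disjoint_left.1 (hK'B E hE) hx hx'
    · rw [Finset.card_eraseNone_of_not_mem hnE]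
      exact (hK' E hE).2.2
  have hK2pw : ∀ D ∈ K2, ∀ D' ∈ K2, D ≠ D' → Disjoint D D' := by
    intro D hD D' hD' hne
    obtain ⟨E, hE, hnE, rfl⟩ := hK2m D hD
    obtain ⟨E', hE', hnE', rfl⟩ := hK2m D' hD'
    rw [Finset.disjoint_left]
    intro x hx hx'
    rw [Finset.mem_eraseNone] at hx hx'
    exact Finset.disjoint_left.1 (hpw E hE E' hE' (fun h => hne (by rw [h]))) hx hx'
  have hK2cl : ∀ D ∈ K2, ∀ x ∈ D, ∀ y ∈ C, G.Adj x y → y ∈ D ∨ y ∈ Finset.eraseNone Bf := by
    intro D hD x hx y hy hxy
    obtain ⟨E, hE, hnE, rfl⟩ := hK2m D hD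
    rw [Finset.mem_eraseNone] at hx ⊢
    rw [Finset.mem_eraseNone]
    exact hcl' E hE (some x) hx (some y) (by simp [hU, hy]) (by simpa [hH] using hxy)
  have hBC : Finset.eraseNone Bf ⊆ C := by
    intro x hx
    rw [Finset.mem_eraseNone] at hx
    have := hBfU hx
    simpa [hU] using this
  by_cases hnB : none ∈ Bf
  · -- enlarge `S`
    have hK1e : K1 = K' := by
      rw [hK1, Finset.filter_eq_self]
      intro D hD hn
      exact Finset.disjoint_left.1 (hK'B D hD) hn hnB
    have hc := Finset.card_eraseNone_of_mem hnB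
    have h5 := h.noRefine hC hBC (Finset.card_pos.1 (by omega)) hK2C hK2pw hK2cl
    rw [hK1e] at hK2c
    omega
  · have hc := Finset.card_eraseNone_of_not_mem hnB
    have hK1c : K'.card ≤ K1.card + 1 := by
      have h6 : K1.card + (K'.filter (fun D => ¬ none ∉ D)).card = K'.card :=
        Finset.card_filter_add_card_filter_not _
      have h7 : (K'.filter (fun D => ¬ none ∉ D)).card ≤ 1 := by
        rw [Finset.card_le_one]
        intro D hD D' hD'
        rw [Finset.mem_filter, not_not] at hD hD'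
        by_contra hne
        exact Finset.disjoint_left.1 (hpw D hD.1 D' hD'.1 hne) hD.2 hD'.2
      omega
    have hcl2 : ∀ D ∈ K2, ∀ x ∈ D, ∀ y, G.Adj x y → y ∈ D ∨ y ∈ Finset.eraseNone Bf := by
      intro D hD x hx y hxy
      rcases h.1.closed C hC x ((hK2C D hD).1 hx) y hxy with h6 | h6
      · exact hK2cl D hD x hx y h6 hxy
      · exfalso
        obtain ⟨E, hE, hnE, rfl⟩ := hK2m D hD
        rw [Finset.mem_eraseNone] at hx
        rcases hcl' E hE (some x) hx none (by simp [hU]) ⟨y, h6, hxy⟩ with h7 | h7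
        · exact hnE h7
        · exact hnB h7
    have hSC : Disjoint C S := h.1.disjS C hC
    by_cases h2 : 2 ≤ K2.card
    · have hg : Good G (Finset.eraseNone Bf) K2 :=
        ⟨fun D hD => (hK2C D hD).2.1, fun D hD => (hK2C D hD).2.2, hK2pw, hcl2, h2, by omega⟩
      have h5 := h.2 _ _ hg
      have h6 : wt (Finset.eraseNone Bf) K2 < wt S K := by
        apply wt_lt
        have h7 : (Finset.eraseNone Bf).card + ∑ D ∈ K2, D.card ≤ C.card := by
          rw [← Finset.card_biUnion (t := fun D => D) hK2pw, ← Finset.card_union_of_disjoint]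
          · apply Finset.card_le_card
            apply Finset.union_subset hBC
            intro x hx
            obtain ⟨D, hD, hxD⟩ := Finset.mem_biUnion.1 hx
            exact (hK2C D hD).1 hxD
          · rw [Finset.disjoint_right]
            intro x hx
            obtain ⟨D, hD, hxD⟩ := Finset.mem_biUnion.1 hx
            exact Finset.disjoint_left.1 (hK2C D hD).2.1 hxD
        have h8 := Finset.card_pos.2 hSne
        rw [← Finset.add_sum_erase K _ hC]
        omega
      omega
    · obtain ⟨D, hD⟩ : K2.Nonempty := Finset.card_pos.1 (by omega)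
      obtain ⟨k, hk⟩ := (hK2C D hD).2.2
      have h5 := h4 D (Finset.eraseNone Bf) (Finset.card_pos.1 (by omega)) (hK2C D hD).2.1
        ⟨s0, fun hz => Finset.disjoint_left.1 hSC ((hK2C D hD).1 hz) hs0,
          fun hz => Finset.disjoint_left.1 hSC (hBC hz) hs0⟩ (hcl2 D hD)
      omega

end Run7.h543
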