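import Pool.Agent.Run7.h543.Match

/-!
A relative form of Tutte's theorem.
-/

namespace Run7.h543

open Finset

/-- Either `H[U]` has a perfect matching or there is a Tutte set `X` together with a family `K` of
odd sets closed in `H[U] - X`, and `|X| + 2 ≤ |K|`. -/
theorem tutte_dichotomy {W : Type*} [Finite W] [DecidableEq W] (H : SimpleGraph W)
    (U : Finset W) (hU : Even U.card) :
    (∃ f : W → W, IsPM H U f) ∨ ∃ (X : Finset W) (K : Finset (Finset W)),
      X ⊆ U ∧ (∀ C ∈ K, C ⊆ U ∧ Disjoint C X ∧ Odd C.card) ∧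
      (∀ C ∈ K, ∀ D ∈ K, C ≠ D → Disjoint C D) ∧
      (∀ C ∈ K, ∀ x ∈ C, ∀ y ∈ U, H.Adj x y → y ∈ C ∨ y ∈ X) ∧ X.card + 2 ≤ K.card := by
  classical
  have : Fintype W := Fintype.ofFinite W
  by_cases hM : ∃ M : (H.induce (U : Set W)).Subgraph, M.IsPerfectMatching
  · left
    obtain ⟨M, hM⟩ := hM
    rw [SimpleGraph.Subgraph.isPerfectMatching_iff] at hM
    choose g hg1 hg2 using hM
    refine ⟨fun w => if h : w ∈ U then (g ⟨w, h⟩ : W) else w, ?_⟩
    intro v hv
    have hv' : (g ⟨v, hv⟩ : W) ∈ U := (g ⟨v, hv⟩).2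
    simp only [hv, dif_pos]
    refine ⟨hv', ?_, ?_⟩
    · rw [dif_pos hv']
      have h1 : M.Adj (g ⟨v, hv⟩) ⟨v, hv⟩ := (hg1 ⟨v, hv⟩).symm
      have h2 := hg2 _ _ h1
      rw [← h2]
    · have h1 : M.Adj ⟨v, hv⟩ (g ⟨v, hv⟩) := hg1 ⟨v, hv⟩
      exact M.adj_sub h1
  · right
    rw [SimpleGraph.tutte] at hM
    push Not at hM
    obtain ⟨u, hu⟩ := hM
    unfold SimpleGraph.IsTutteViolator at hu
    set S : (H.induce (U : Set W)).Subgraph :=
      (⊤ : (H.induce (U : Set W)).Subgraph).deleteVerts u with hS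
    set G' := S.coe with hG'
    -- parity
    have hpar : Odd G'.oddComponents.ncard ↔ Odd (Nat.card S.verts) :=
      SimpleGraph.odd_ncard_oddComponents G'
    have hverts : S.verts = uᶜ := by
      ext x
      simp [hS]
    have hmemS : ∀ x : (U : Set W), x ∈ S.verts → x ∉ u := by
      intro x hx; rw [hverts] at hx; exact hx
    have hSadj : ∀ a b : (U : Set W), a ∉ u → b ∉ u → H.Adj a b → S.Adj a b := by
      intro a b ha hb hab
      rw [hS, SimpleGraph.Subgraph.deleteVerts_adj]
      exact ⟨trivial, ha, trivial, hb, hab⟩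
    have hcard : Nat.card S.verts + u.ncard = U.card := by
      rw [Nat.card_coe_set_eq, hverts, add_comm, Set.ncard_add_ncard_compl]
      simp
    have hbig : u.ncard + 2 ≤ G'.oddComponents.ncard := by
      have h1 : Odd G'.oddComponents.ncard ↔ Odd u.ncard := by
        rw [hpar]
        rw [← hcard, Nat.even_add] at hU
        rw [← Nat.not_even_iff_odd, ← Nat.not_even_iff_odd, hU]
      by_contra h2
      have h3 : G'.oddComponents.ncard = u.ncard + 1 := by omega
      rw [h3] at h1
      rcases Nat.even_or_odd u.ncard with h4 | h4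
      · exact (Nat.not_odd_iff_even.2 h4) (h1.1 h4.add_one)
      · exact (Nat.not_even_iff_odd.2 (h1.2 h4)) h4.add_one
    let π : S.verts → W := fun x => (x.1 : W)
    have hπ : Function.Injective π := fun x y hxy => Subtype.ext (Subtype.ext hxy)
    let img : G'.ConnectedComponent → Finset W := fun c => (Set.Finite.toFinset
      (Set.toFinite (π '' c.supp)))
    have himg : ∀ c w, w ∈ img c ↔ ∃ x ∈ c.supp, π x = w := by
      intro c w; simp [img]
    have himgcard : ∀ c, (img c).card = c.supp.ncard := by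
      intro c
      rw [← Set.ncard_image_of_injective _ hπ, ← Set.ncard_coe_finset]
      congr 1
      simp [img]
    have himginj : Function.Injective img := by
      intro c d hcd
      obtain ⟨x, hx⟩ := c.nonempty_supp
      have h1 : π x ∈ img c := (himg _ _).2 ⟨x, hx, rfl⟩
      rw [hcd] at h1
      obtain ⟨y, hy, hyx⟩ := (himg _ _).1 h1
      have := hπ hyx
      subst this
      exact SimpleGraph.ConnectedComponent.eq_of_common_vertex hx hy
    let K : Finset (Finset W) := (Set.Finite.toFinset (Set.toFinite G'.oddComponents)).image img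
    have hK : ∀ C, C ∈ K ↔ ∃ c, Odd c.supp.ncard ∧ img c = C := by
      intro C; simp [K]
    have hKcard : K.card = G'.oddComponents.ncard := by
      rw [Finset.card_image_of_injective _ himginj, ← Set.ncard_coe_finset]
      simp
    let X : Finset W := Set.Finite.toFinset (Set.toFinite ((fun x : (U : Set W) => (x : W)) '' u))
    have hXmem : ∀ w, w ∈ X ↔ ∃ x ∈ u, (x : W) = w := by
      intro w; simp [X]
    have hXcard : X.card = u.ncard := by
      rw [← Set.ncard_image_of_injective u (Subtype.val_injective), ← Set.ncard_coe_finset]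
      congr 1
      simp [X]
    refine ⟨X, K, ?_, ?_, ?_, ?_, ?_⟩
    · intro w hw
      obtain ⟨x, -, rfl⟩ := (hXmem w).1 hw
      exact x.2
    · intro C hC
      obtain ⟨c, hc, rfl⟩ := (hK C).1 hC
      refine ⟨?_, ?_, ?_⟩
      · intro w hw
        obtain ⟨x, -, rfl⟩ := (himg _ _).1 hw
        exact x.1.2
      · rw [Finset.disjoint_left]
        intro w hw hw'
        obtain ⟨x, -, rfl⟩ := (himg _ _).1 hw
        obtain ⟨y, hy, hyx⟩ := (hXmem _).1 hw'
        apply hmemS x.1 x.2
        have : y = x.1 := Subtype.ext hyx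
        rw [← this]; exact hy
      · rw [himgcard]; exact hc
    · intro C hC D hD hne
      obtain ⟨c, hc, rfl⟩ := (hK C).1 hC
      obtain ⟨d, hd, rfl⟩ := (hK D).1 hD
      rw [Finset.disjoint_left]
      intro w hw hw'
      obtain ⟨x, hx, rfl⟩ := (himg _ _).1 hw
      obtain ⟨y, hy, hyx⟩ := (himg _ _).1 hw'
      have := hπ hyx
      subst this
      exact hne (by rw [SimpleGraph.ConnectedComponent.eq_of_common_vertex hx hy])
    · intro C hC x hx y hy hxy
      obtain ⟨c, hc, rfl⟩ := (hK C).1 hC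
      obtain ⟨x', hx', rfl⟩ := (himg _ _).1 hx
      by_cases hyu : (⟨y, hy⟩ : (U : Set W)) ∈ u
      · right
        exact (hXmem y).2 ⟨_, hyu, rfl⟩
      · left
        have hyS : (⟨y, hy⟩ : (U : Set W)) ∈ S.verts := by rw [hverts]; exact hyu
        refine (himg _ _).2 ⟨⟨⟨y, hy⟩, hyS⟩, ?_, rfl⟩
        have hadj : G'.Adj x' ⟨⟨y, hy⟩, hyS⟩ := by
          rw [hG', SimpleGraph.Subgraph.coe_adj]
          exact hSadj _ _ (hmemS x'.1 x'.2) hyu hxy
        rw [SimpleGraph.ConnectedComponent.mem_supp_iff] at hx' ⊢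
        rw [← hx']
        exact SimpleGraph.ConnectedComponent.sound hadj.symm.reachable
    · rw [hKcard, hXcard]; exact hbig

end Run7.h543
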