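import Pool.Agent.Run7.h543.LR

/-!
There is no pair of matchings of `O' ∪ A4` and of `O'`.
-/

namespace Run7.h543

open Finset

/-- following an alternating path -/
lemma alt_path {α : Type*} [DecidableEq α] : ∀ (n : ℕ) (O A : Finset α) (f1 f2 : α → α),
    O.card = n → Disjoint O A → (∀ v ∈ O ∪ A, f1 v ∈ O ∪ A ∧ f1 (f1 v) = v ∧ f1 v ≠ v) →
    (∀ v ∈ O, f2 v ∈ O ∧ f2 (f2 v) = v ∧ f2 v ≠ v) → ∀ a ∈ A, ∃ κ ⊆ O ∪ A,
      (∀ v ∈ κ, f1 v ∈ κ) ∧ (∀ v ∈ κ, v ∈ O → f2 v ∈ κ) ∧
        ∃ b ∈ A, b ≠ a ∧ ∀ v ∈ A, v ∈ κ ↔ (v = a ∨ v = b) := by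
  intro n
  induction n using Nat.strong_induction_on with
  | _ n ih =>
    intro O A f1 f2 hn hOA h1 h2 a ha
    obtain ⟨ha1, ha2, ha3⟩ := h1 a (Finset.mem_union_right _ ha)
    by_cases hfa : f1 a ∈ A
    · refine ⟨{a, f1 a}, ?_, ?_, ?_, f1 a, hfa, ha3, ?_⟩
      · intro v hv
        rw [Finset.mem_insert, Finset.mem_singleton] at hv
        rcases hv with rfl | rfl
        · exact Finset.mem_union_right _ ha
        · exact ha1
      · intro v hv
        rw [Finset.mem_insert, Finset.mem_singleton] at hv
        rcases hv with rfl | rfl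
        · simp
        · rw [ha2]; simp
      · intro v hv hvO
        rw [Finset.mem_insert, Finset.mem_singleton] at hv
        rcases hv with rfl | rfl
        · exact absurd ha (Finset.disjoint_left.1 hOA hvO)
        · exact absurd hfa (Finset.disjoint_left.1 hOA hvO)
      · intro v _
        simp
    · have hxO : f1 a ∈ O := by
        rcases Finset.mem_union.1 ha1 with h | h
        · exact h
        · exact absurd h hfa
      set x := f1 a with hx
      obtain ⟨hy1, hy2, hy3⟩ := h2 x hxO
      set y := f2 x with hy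
      obtain ⟨hz1, hz2, hz3⟩ := h1 y (Finset.mem_union_left _ hy1)
      set z := f1 y with hz
      have haO : a ∉ O := fun h => Finset.disjoint_left.1 hOA h ha
      have hax : a ≠ x := fun h => haO (h ▸ hxO)
      have hay : a ≠ y := fun h => haO (h ▸ hy1)
      have hza : z ≠ a := by
        intro h
        have : f1 z = x := by rw [h]
        rw [hz2] at this
        exact hy3 this
      have hzx : z ≠ x := by
        intro h
        have : f1 z = a := by rw [h]; exact ha2
        rw [hz2] at this
        exact hay this.symm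
      set O' := (O.erase x).erase y with hO'
      have hyx : y ∈ O.erase x := by simp [hy3, hy1]
      have hO'c : O'.card < n := by
        rw [hO', Finset.card_erase_of_mem hyx, Finset.card_erase_of_mem hxO]
        have : 0 < O.card := Finset.card_pos.2 ⟨x, hxO⟩
        omega
      have hO'm : ∀ v, v ∈ O' ↔ v ≠ y ∧ v ≠ x ∧ v ∈ O := by
        intro v; rw [hO', Finset.mem_erase, Finset.mem_erase]
      set f1' : α → α := fun v => if v = a then z else if v = z then a else f1 v with hf1'
      have hzO' : z ∈ O' ∪ A := by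
        rcases Finset.mem_union.1 hz1 with h | h
        · exact Finset.mem_union_left _ ((hO'm z).2 ⟨hz3, hzx, h⟩)
        · exact Finset.mem_union_right _ h
      have h1' : ∀ v ∈ O' ∪ A, f1' v ∈ O' ∪ A ∧ f1' (f1' v) = v ∧ f1' v ≠ v := by
        intro v hv
        by_cases hva : v = a
        · have e1 : f1' v = z := by simp [hf1', hva]
          rw [e1]
          refine ⟨hzO', ?_, ?_⟩
          · simp [hf1', hza, hva]
          · rw [hva]; exact hza
        · by_cases hvz : v = z
          · have e1 : f1' v = a := by simp [hf1', hvz, hza]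
            rw [e1]
            refine ⟨Finset.mem_union_right _ ha, ?_, ?_⟩
            · simp [hf1', hvz]
            · rw [hvz]; exact hza.symm
          · have e1 : f1' v = f1 v := by simp [hf1', hva, hvz]
            have hv' : v ∈ O ∪ A := by
              rcases Finset.mem_union.1 hv with h | h
              · exact Finset.mem_union_left _ ((hO'm v).1 h).2.2
              · exact Finset.mem_union_right _ h
            obtain ⟨g1, g2, g3⟩ := h1 v hv'
            have hvx : v ≠ x := by
              rcases Finset.mem_union.1 hv with h | h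
              · exact ((hO'm v).1 h).2.1
              · rintro rfl; exact Finset.disjoint_left.1 hOA hxO h
            have hvy : v ≠ y := by
              rcases Finset.mem_union.1 hv with h | h
              · exact ((hO'm v).1 h).1
              · rintro rfl; exact Finset.disjoint_left.1 hOA hy1 h
            have g4 : f1 v ≠ a := by
              intro h; apply hvx; rw [hx, ← h, g2]
            have g5 : f1 v ≠ z := by
              intro h; apply hvy; rw [← g2, h, hz2]
            have g6 : f1 v ≠ x := by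
              intro h; apply hva; rw [← g2, h, ha2]
            have g7 : f1 v ≠ y := by
              intro h; apply hvz; rw [← g2, h]
            rw [e1]
            refine ⟨?_, ?_, g3⟩
            · rcases Finset.mem_union.1 g1 with h | h
              · exact Finset.mem_union_left _ ((hO'm _).2 ⟨g7, g6, h⟩)
              · exact Finset.mem_union_right _ h
            · simp only [hf1', g4, g5, if_false]
              exact g2
      have h2' : ∀ v ∈ O', f2 v ∈ O' ∧ f2 (f2 v) = v ∧ f2 v ≠ v := by
        intro v hv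
        obtain ⟨hvy, hvx, hvO⟩ := (hO'm v).1 hv
        obtain ⟨g1, g2, g3⟩ := h2 v hvO
        refine ⟨(hO'm _).2 ⟨?_, ?_, g1⟩, g2, g3⟩
        · intro h; apply hvx; rw [← g2, h, hy2]
        · intro h; apply hvy; rw [← g2, h]
      have hO'A : Disjoint O' A := hOA.mono_left
        ((Finset.erase_subset _ _).trans (Finset.erase_subset _ _))
      obtain ⟨κ, hκ1, hκ2, hκ3, b, hb, hba, hκ4⟩ := ih _ hO'c O' A f1' f2 rfl hO'A h1' h2' a ha
      have haκ : a ∈ κ := (hκ4 a ha).2 (Or.inl rfl)
      have hzκ : z ∈ κ := by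
        have := hκ2 a haκ
        simpa [hf1'] using this
      refine ⟨insert x (insert y κ), ?_, ?_, ?_, b, hb, hba, ?_⟩
      · intro v hv
        rw [Finset.mem_insert, Finset.mem_insert] at hv
        rcases hv with rfl | rfl | hv
        · exact Finset.mem_union_left _ hxO
        · exact Finset.mem_union_left _ hy1
        · rcases Finset.mem_union.1 (hκ1 hv) with h | h
          · exact Finset.mem_union_left _ ((hO'm v).1 h).2.2
          · exact Finset.mem_union_right _ h
      · intro v hv
        rw [Finset.mem_insert, Finset.mem_insert] at hv ⊢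
        rcases hv with rfl | rfl | hv
        · right; right; rw [ha2]; exact haκ
        · right; right; exact hzκ
        · by_cases hva : v = a
          · left; rw [hva]
          · by_cases hvz : v = z
            · right; left; rw [hvz, hz2]
            · right; right
              have := hκ2 v hv
              simpa [hf1', hva, hvz] using this
      · intro v hv hvO
        rw [Finset.mem_insert, Finset.mem_insert] at hv ⊢
        rcases hv with rfl | rfl | hv
        · right; left; rfl
        · left; exact hy2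
        · rcases Finset.mem_union.1 (hκ1 hv) with h | h
          · right; right; exact hκ3 v hv h
          · exact absurd h (Finset.disjoint_left.1 hOA hvO)
      · intro v hv
        rw [← hκ4 v hv, Finset.mem_insert, Finset.mem_insert]
        have hvx : v ≠ x := by rintro rfl; exact Finset.disjoint_left.1 hOA hxO hv
        have hvy : v ≠ y := by rintro rfl; exact Finset.disjoint_left.1 hOA hy1 hv
        simp [hvx, hvy]

variable {V : Type*} [DecidableEq V] [Fintype V] {G : SimpleGraph V}

omit [Fintype V] [DecidableEq V] in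
/-- if all edges between `L` and `R` are bichromatic, then `R` is monochromatic -/
lemma LR.mono {L R : Finset V} (h : LR G L R) (χ : V → Bool)
    (hχ : ∀ l ∈ L, ∀ r ∈ R, G.Adj l r → χ l ≠ χ r) : ∀ r ∈ R, ∀ r' ∈ R, χ r = χ r' := by
  classical
  have hL : ∀ l ∈ L, ∀ l' ∈ L, χ l = χ l' := by
    by_contra hcon
    push Not at hcon
    obtain ⟨l, hl, l', hl', hne⟩ := hcon
    have key : ∀ c : Bool, (L.filter (fun x => χ x = c)).card + 3 ≤
        (R.filter (fun x => χ x = !c)).card := by
      intro c
      have hne1 : (L.filter (fun x => χ x = c)).Nonempty := by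
        have hcc : χ l = c ∨ χ l' = c := by
          revert hne
          generalize χ l = u
          generalize χ l' = w
          revert u w c
          decide
        rcases hcc with h1 | h1
        · exact ⟨l, by rw [Finset.mem_filter]; exact ⟨hl, h1⟩⟩
        · exact ⟨l', by rw [Finset.mem_filter]; exact ⟨hl', h1⟩⟩
      have hne2 : L.filter (fun x => χ x = c) ≠ L := by
        intro he
        rw [Finset.filter_eq_self] at he
        exact hne (by rw [he l hl, he l' hl'])
      have h3 := h.surplus _ (Finset.filter_subset _ _) hne1 hne2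
      refine h3.trans (Finset.card_le_card ?_)
      intro s hs
      rw [Finset.mem_filter] at hs ⊢
      obtain ⟨hs, x, hx, hxs⟩ := hs
      rw [Finset.mem_filter] at hx
      refine ⟨hs, ?_⟩
      have := hχ x hx.1 s hs hxs
      rw [hx.2] at this
      cases c <;> cases h5 : χ s <;> simp_all
    have k1 := key true
    have k2 := key false
    have e1 : (L.filter (fun x => χ x = true)).card + (L.filter (fun x => χ x = false)).card
        = L.card := by
      have := Finset.card_filter_add_card_filter_not (s := L) (fun x => χ x = true)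
      simpa using this
    have e2 : (R.filter (fun x => χ x = true)).card + (R.filter (fun x => χ x = false)).card
        = R.card := by
      have := Finset.card_filter_add_card_filter_not (s := R) (fun x => χ x = true)
      simpa using this
    simp only [Bool.not_true, Bool.not_false] at k1 k2
    have := h.card
    omega
  intro r hr r' hr'
  obtain ⟨l, hl, hlr⟩ := h.touch r hr
  obtain ⟨l', hl', hlr'⟩ := h.touch r' hr'
  have h1 := hχ l hl r hr hlr
  have h2 := hχ l' hl' r' hr' hlr'
  rw [hL l hl l' hl'] at h1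
  cases h3 : χ r <;> cases h4 : χ r' <;> cases h5 : χ l' <;> simp_all

omit [Fintype V] in
/-- combining a matching of `L ∪ (R - a - b)` with one of `O' ∪ {a, b}` -/
lemma combine {L R O' : Finset V} {a b : V} {f F : V → V} (ha : a ∈ R) (hb : b ∈ R)
    (hO' : ∀ v ∈ O', v ∉ L ∧ v ∉ R) (hLR : Disjoint L R)
    (hf : IsPM G (L ∪ (R.erase a).erase b) f) (hF : IsPM G (O' ∪ {a, b}) F) :
    IsPM G (O' ∪ R ∪ L) (fun v => if v ∈ L ∪ (R.erase a).erase b then f v else F v) := by
  intro v hv
  by_cases h1 : v ∈ L ∪ (R.erase a).erase b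
  · obtain ⟨g1, g2, g3⟩ := hf v h1
    simp only [h1, if_true, g1]
    refine ⟨?_, g2, g3⟩
    simp only [Finset.mem_union, Finset.mem_erase] at g1 ⊢
    tauto
  · have h2 : v ∈ O' ∪ {a, b} := by
      simp only [Finset.mem_union, Finset.mem_erase, Finset.mem_insert,
        Finset.mem_singleton] at h1 hv ⊢
      tauto
    obtain ⟨g1, g2, g3⟩ := hF v h2
    have h3 : F v ∉ L ∪ (R.erase a).erase b := by
      simp only [Finset.mem_union, Finset.mem_erase, Finset.mem_insert,
        Finset.mem_singleton] at g1 ⊢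
      rcases g1 with g1 | g1 | g1
      · have := hO' _ g1
        tauto
      · rw [g1]
        have : a ∉ L := fun h => Finset.disjoint_left.1 hLR h ha
        tauto
      · rw [g1]
        have : b ∉ L := fun h => Finset.disjoint_left.1 hLR h hb
        tauto
    simp only [h1, if_false, h3]
    refine ⟨?_, g2, g3⟩
    simp only [Finset.mem_union, Finset.mem_insert, Finset.mem_singleton] at g1 ⊢
    rcases g1 with g1 | g1 | g1
    · tauto
    · rw [g1]; tauto
    · rw [g1]; tauto

/-- **Two-matchings lemma.** -/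
theorem no_double (hS : IsSeymour G) {L R : Finset V} (h : LR G L R) (O' A4 : Finset V)
    (hO' : ∀ v ∈ O', v ∉ L ∧ v ∉ R) (hA4 : A4 ⊆ R) (hA4c : A4.card = 4) (f1 f2 : V → V)
    (hf1 : IsPM G (O' ∪ A4) f1) (hf2 : IsPM G O' f2) : False := by
  classical
  obtain ⟨a1, ha1⟩ : A4.Nonempty := Finset.card_pos.1 (by omega)
  have hdis : Disjoint O' A4 := by
    rw [Finset.disjoint_left]
    intro v hv hv'
    exact (hO' v hv).2 (hA4 hv')
  obtain ⟨κ, hκ1, hκ2, hκ3, b1, hb1, hba1, hκ4⟩ := alt_path _ O' A4 f1 f2 rfl hdis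
    (fun v hv => ⟨(hf1 v hv).1, (hf1 v hv).2.1, (hf1 v hv).2.2.ne'⟩)
    (fun v hv => ⟨(hf2 v hv).1, (hf2 v hv).2.1, (hf2 v hv).2.2.ne'⟩) a1 ha1
  have hc2 : ((A4.erase a1).erase b1).card = 2 := by
    rw [Finset.card_erase_of_mem (by simp [hba1, hb1]), Finset.card_erase_of_mem ha1]
    omega
  obtain ⟨a2, b2, hab2, hA2⟩ := Finset.card_eq_two.1 hc2
  have hA2m : ∀ v, (v = a2 ∨ v = b2) ↔ v ∈ A4 ∧ v ∉ κ := by
    intro v
    have e1 : v ∈ (A4.erase a1).erase b1 ↔ v ∈ ({a2, b2} : Finset V) := by rw [hA2]
    rw [Finset.mem_erase, Finset.mem_erase, Finset.mem_insert, Finset.mem_singleton] at e1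
    rw [← e1]
    constructor
    · rintro ⟨g1, g2, g3⟩
      refine ⟨g3, fun hvκ => ?_⟩
      rcases (hκ4 v g3).1 hvκ with h4 | h4
      · exact g2 h4
      · exact g1 h4
    · rintro ⟨g1, g2⟩
      refine ⟨?_, ?_, g1⟩
      · rintro rfl; exact g2 ((hκ4 _ g1).2 (Or.inr rfl))
      · rintro rfl; exact g2 ((hκ4 _ g1).2 (Or.inl rfl))
  have ha2 := (hA2m a2).1 (Or.inl rfl)
  have hb2 := (hA2m b2).1 (Or.inr rfl)
  have ha1κ : a1 ∈ κ := (hκ4 a1 ha1).2 (Or.inl rfl)
  have hb1κ : b1 ∈ κ := (hκ4 b1 hb1).2 (Or.inr rfl)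
  -- the two mixed matchings
  have hF1 : IsPM G (O' ∪ {a1, b1}) (fun v => if v ∈ κ then f1 v else f2 v) := by
    intro v hv
    by_cases hvκ : v ∈ κ
    · have hvU : v ∈ O' ∪ A4 := hκ1 hvκ
      obtain ⟨g1, g2, g3⟩ := hf1 v hvU
      have g4 := hκ2 v hvκ
      simp only [hvκ, if_true, g4]
      refine ⟨?_, g2, g3⟩
      rcases Finset.mem_union.1 g1 with h5 | h5
      · exact Finset.mem_union_left _ h5
      · apply Finset.mem_union_right
        rw [Finset.mem_insert, Finset.mem_singleton]
        exact (hκ4 _ h5).1 g4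
    · have hvO : v ∈ O' := by
        simp only [Finset.mem_union, Finset.mem_insert, Finset.mem_singleton] at hv
        rcases hv with h5 | rfl | rfl
        · exact h5
        · exact absurd ha1κ hvκ
        · exact absurd hb1κ hvκ
      obtain ⟨g1, g2, g3⟩ := hf2 v hvO
      have g4 : f2 v ∉ κ := fun h5 => hvκ (by have := hκ3 _ h5 g1; rwa [g2] at this)
      simp only [hvκ, if_false, g4]
      exact ⟨Finset.mem_union_left _ g1, g2, g3⟩
  have hF2 : IsPM G (O' ∪ {a2, b2}) (fun v => if v ∈ κ then f2 v else f1 v) := by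
    intro v hv
    by_cases hvκ : v ∈ κ
    · have hvO : v ∈ O' := by
        simp only [Finset.mem_union, Finset.mem_insert, Finset.mem_singleton] at hv
        rcases hv with h5 | rfl | rfl
        · exact h5
        · exact absurd hvκ ha2.2
        · exact absurd hvκ hb2.2
      obtain ⟨g1, g2, g3⟩ := hf2 v hvO
      have g4 : f2 v ∈ κ := hκ3 _ hvκ hvO
      simp only [hvκ, if_true, g4]
      exact ⟨Finset.mem_union_left _ g1, g2, g3⟩
    · have hvU : v ∈ O' ∪ A4 := by
        simp only [Finset.mem_union, Finset.mem_insert, Finset.mem_singleton] at hv ⊢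
        rcases hv with h5 | rfl | rfl
        · exact Or.inl h5
        · exact Or.inr ha2.1
        · exact Or.inr hb2.1
      obtain ⟨g1, g2, g3⟩ := hf1 v hvU
      have g4 : f1 v ∉ κ := fun h5 => hvκ (by have := hκ2 _ h5; rwa [g2] at this)
      simp only [hvκ, if_false, g4]
      refine ⟨?_, g2, g3⟩
      rcases Finset.mem_union.1 g1 with h5 | h5
      · exact Finset.mem_union_left _ h5
      · apply Finset.mem_union_right
        rw [Finset.mem_insert, Finset.mem_singleton]
        exact (hA2m _).2 ⟨h5, g4⟩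
  obtain ⟨χ, hχ⟩ := match_coloring G hS (O' ∪ R ∪ L)
  have hedge : ∀ l ∈ L, ∀ r ∈ R, G.Adj l r → χ l ≠ χ r := by
    intro l hl r hr hlr
    have hlU : l ∈ O' ∪ R ∪ L := Finset.mem_union_right _ hl
    by_cases hr1 : r = a1 ∨ r = b1
    · have hrκ : r ∈ κ := (hκ4 r (by rcases hr1 with rfl | rfl; exact ha1; exact hb1)).2 hr1
      have hra : r ≠ a2 := by rintro rfl; exact ha2.2 hrκ
      have hrb : r ≠ b2 := by rintro rfl; exact hb2.2 hrκ
      obtain ⟨f, hf, hfl, -⟩ := h.hall (hA4 ha2.1) (hA4 hb2.1) hab2 hl hr hra hrb hlr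
      have h5 := hχ _ (combine (hA4 ha2.1) (hA4 hb2.1) hO' h.disj hf hF2) l hlU
      simp only [Finset.mem_union, hl, true_or, if_true, hfl] at h5
      exact h5
    · push Not at hr1
      obtain ⟨f, hf, hfl, -⟩ := h.hall (hA4 ha1) (hA4 hb1) (Ne.symm hba1) hl hr hr1.1 hr1.2 hlr
      have h5 := hχ _ (combine (hA4 ha1) (hA4 hb1) hO' h.disj hf hF1) l hlU
      simp only [Finset.mem_union, hl, true_or, if_true, hfl] at h5
      exact h5
  have hmono := h.mono χ hedge
  -- some matching of `L ∪ (R - a - b)`
  have hexf : ∀ a ∈ R, ∀ b ∈ R, a ≠ b → ∃ f, IsPM G (L ∪ (R.erase a).erase b) f := by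
    intro a ha b hb hab
    have hc : 0 < ((R.erase a).erase b).card := by
      rw [Finset.card_erase_of_mem (by simp [hab.symm, hb]), Finset.card_erase_of_mem ha, h.card]
      have := h.two
      omega
    obtain ⟨r, hr⟩ := Finset.card_pos.1 hc
    simp only [Finset.mem_erase] at hr
    obtain ⟨l, hl, hlr⟩ := h.touch r hr.2.2
    obtain ⟨f, hf, -⟩ := h.hall ha hb hab hl hr.2.2 hr.2.1 hr.1 hlr
    exact ⟨f, hf⟩
  have hbi1 : ∀ v ∈ κ, χ v ≠ χ (f1 v) := by
    intro v hvκ
    obtain ⟨f, hf⟩ := hexf a1 (hA4 ha1) b1 (hA4 hb1) (Ne.symm hba1)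
    have hv' : v ∈ O' ∪ {a1, b1} := by
      rcases Finset.mem_union.1 (hκ1 hvκ) with h5 | h5
      · exact Finset.mem_union_left _ h5
      · apply Finset.mem_union_right
        rw [Finset.mem_insert, Finset.mem_singleton]
        exact (hκ4 _ h5).1 hvκ
    have hvn : v ∉ L ∪ (R.erase a1).erase b1 := by
      simp only [Finset.mem_union, Finset.mem_erase, Finset.mem_insert,
        Finset.mem_singleton] at hv' ⊢
      rcases hv' with g1 | g1 | g1
      · have := hO' _ g1; tauto
      · rw [g1]
        have : a1 ∉ L := fun h5 => Finset.disjoint_left.1 h.disj h5 (hA4 ha1)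
        tauto
      · rw [g1]
        have : b1 ∉ L := fun h5 => Finset.disjoint_left.1 h.disj h5 (hA4 hb1)
        tauto
    have h5 := hχ _ (combine (hA4 ha1) (hA4 hb1) hO' h.disj hf hF1) v (by
      simp only [Finset.mem_union, Finset.mem_insert, Finset.mem_singleton] at hv' ⊢
      rcases hv' with g1 | g1 | g1
      · tauto
      · rw [g1]; exact Or.inl (Or.inr (hA4 ha1))
      · rw [g1]; exact Or.inl (Or.inr (hA4 hb1)))
    simp only [hvn, if_false, hvκ, if_true] at h5
    exact h5
  have hbi2 : ∀ v ∈ κ ∩ O', χ v ≠ χ (f2 v) := by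
    intro v hv
    rw [Finset.mem_inter] at hv
    obtain ⟨hvκ, hvO⟩ := hv
    obtain ⟨f, hf⟩ := hexf a2 (hA4 ha2.1) b2 (hA4 hb2.1) hab2
    have hvn : v ∉ L ∪ (R.erase a2).erase b2 := by
      simp only [Finset.mem_union, Finset.mem_erase]
      have := hO' _ hvO
      tauto
    have h5 := hχ _ (combine (hA4 ha2.1) (hA4 hb2.1) hO' h.disj hf hF2) v (by
      simp [hvO])
    simp only [hvn, if_false, hvκ, if_true] at h5
    exact h5
  have hPM1 : IsPM G κ f1 := by
    intro v hv
    exact ⟨hκ2 v hv, (hf1 v (hκ1 hv)).2.1, (hf1 v (hκ1 hv)).2.2⟩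
  have hPM2 : IsPM G (κ ∩ O') f2 := by
    intro v hv
    rw [Finset.mem_inter] at hv ⊢
    exact ⟨⟨hκ3 v hv.1 hv.2, (hf2 v hv.2).1⟩, (hf2 v hv.2).2.1, (hf2 v hv.2).2.2⟩
  have hb1' := hPM1.balanced χ hbi1
  have hb2' := hPM2.balanced χ hbi2
  have hκe : κ ∩ O' = (κ.erase a1).erase b1 := by
    ext v
    rw [Finset.mem_inter, Finset.mem_erase, Finset.mem_erase]
    constructor
    · rintro ⟨g1, g2⟩
      refine ⟨?_, ?_, g1⟩
      · rintro rfl; exact (hO' _ g2).2 (hA4 hb1)
      · rintro rfl; exact (hO' _ g2).2 (hA4 ha1)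
    · rintro ⟨g1, g2, g3⟩
      refine ⟨g3, ?_⟩
      rcases Finset.mem_union.1 (hκ1 g3) with h5 | h5
      · exact h5
      · rcases (hκ4 v h5).1 g3 with h6 | h6
        · exact absurd h6 g2
        · exact absurd h6 g1
  rw [hκe] at hb2'
  have hb1e : b1 ∈ κ.erase a1 := by simp [hba1, hb1κ]
  have e1 := card_filter_erase ha1κ (fun v => χ v = true)
  have e2 := card_filter_erase ha1κ (fun v => χ v = false)
  have e3 := card_filter_erase hb1e (fun v => χ v = true)
  have e4 := card_filter_erase hb1e (fun v => χ v = false)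
  have hm := hmono a1 (hA4 ha1) b1 (hA4 hb1)
  simp only [← hm] at e3 e4
  clear hχ hedge hmono hbi1 hbi2 hexf
  cases hcol : χ a1 <;> simp only [hcol, Bool.false_eq_true, Bool.true_eq_false, if_false,
    if_true] at e1 e2 e3 e4 <;> omega

end Run7.h543
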