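import Pool.Agent.Run7.h543.Gam

/-!
Analysis of the Tutte violators of the auxiliary graph.
-/

namespace Run7.h543

open Finset

variable {V : Type*} [DecidableEq V] [Fintype V] {G : SimpleGraph V} {L R : Finset V} {m : ℕ}

open Classical in
theorem viol (h4 : Sep 4 G) (h : LR G L R) (hm : m + 2 = L.card) (O : Finset V)
    (hO : O = univ \ (L ∪ R)) (X : Finset (V ⊕ V ⊕ Fin m))
    (K : Finset (Finset (V ⊕ V ⊕ Fin m))) (hX : X ⊆ gU R O m)
    (hK : ∀ C ∈ K, C ⊆ gU R O m ∧ Disjoint C X ∧ Odd C.card)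
    (hpw : ∀ C ∈ K, ∀ D ∈ K, C ≠ D → Disjoint C D)
    (hcl : ∀ C ∈ K, ∀ x ∈ C, ∀ y ∈ gU R O m, (gam G R m).Adj x y → y ∈ C ∨ y ∈ X)
    (hbig : X.card + 2 ≤ K.card) :
    ∃ (c : V → Bool) (Z : Finset V),
      (univ.filter (fun x => ∃ y, G.Adj x y ∧ x ∉ Z ∧ y ∉ Z ∧ c x = c y)).card + 3 * Z.card ≤ 3
    := by
  have hOm : ∀ x, x ∈ O ↔ x ∉ L ∧ x ∉ R := by
    intro x
    rw [hO, Finset.mem_sdiff, Finset.mem_union]
    simp
  have hRO : Disjoint R O := by
    rw [Finset.disjoint_left]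
    intro x hx hx'
    exact ((hOm x).1 hx').2 hx
  set U := gU R O m with hU
  obtain ⟨X1, hX1d⟩ : ∃ X1, X1 = X.toLeft := ⟨_, rfl⟩
  obtain ⟨B2, hB2d⟩ : ∃ B2, B2 = X.toRight.toLeft := ⟨_, rfl⟩
  obtain ⟨X3, hX3d⟩ : ∃ X3, X3 = X.toRight.toRight := ⟨_, rfl⟩
  have hm1 : ∀ x, x ∈ X1 ↔ Sum.inl x ∈ X := by intro x; rw [hX1d]; simp
  have hm2 : ∀ x, x ∈ B2 ↔ Sum.inr (Sum.inl x) ∈ X := by intro x; rw [hB2d]; simp
  have hm3 : ∀ i, i ∈ X3 ↔ Sum.inr (Sum.inr i) ∈ X := by intro x; rw [hX3d]; simp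
  have hXc : X.card = X1.card + (B2.card + X3.card) := by
    rw [← Finset.card_toLeft_add_card_toRight (u := X),
      ← Finset.card_toLeft_add_card_toRight (u := X.toRight), hX1d, hB2d, hX3d]
  have hX1 : X1 ⊆ R ∪ O := by
    intro x hx
    have := hX ((hm1 x).1 hx)
    rw [hU, gU1] at this
    exact Finset.mem_union.2 this
  have hB2 : B2 ⊆ O := by
    intro x hx
    have := hX ((hm2 x).1 hx)
    rw [hU, gU2] at this
    exact this
  obtain ⟨AX, hAX⟩ : ∃ AX, AX = R ∩ X1 := ⟨_, rfl⟩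
  obtain ⟨B1, hB1⟩ : ∃ B1, B1 = O ∩ X1 := ⟨_, rfl⟩
  have hAXm : ∀ x, x ∈ AX ↔ x ∈ R ∧ Sum.inl x ∈ X := by
    intro x; rw [hAX, Finset.mem_inter, hm1]
  have hB1m : ∀ x, x ∈ B1 ↔ x ∈ O ∧ Sum.inl x ∈ X := by
    intro x; rw [hB1, Finset.mem_inter, hm1]
  have hAXR : AX ⊆ R := by rw [hAX]; exact Finset.inter_subset_left
  have hB1O : B1 ⊆ O := by rw [hB1]; exact Finset.inter_subset_left
  have hX1c : X1.card = AX.card + B1.card := by
    rw [hAX, hB1, ← Finset.card_union_of_disjoint, ← Finset.union_inter_distrib_right,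
      Finset.inter_eq_right.2 hX1]
    exact (hRO.mono_left Finset.inter_subset_left).mono_right Finset.inter_subset_left
  obtain ⟨T, hT⟩ : ∃ T : Finset (V ⊕ V ⊕ Fin m), T =
      ((R \ AX) ∪ (B2 \ B1)).disjSum ((B1 \ B2).disjSum (univ \ X3)) := ⟨_, rfl⟩
  have hT1 : ∀ x, Sum.inl x ∈ T ↔ (x ∈ R ∧ x ∉ AX) ∨ (x ∈ B2 ∧ x ∉ B1) := by
    intro x; rw [hT]; simp
  have hT2 : ∀ x, Sum.inr (Sum.inl x) ∈ T ↔ (x ∈ B1 ∧ x ∉ B2) := by
    intro x; rw [hT]; simp
  have hT3 : ∀ i, Sum.inr (Sum.inr i) ∈ T ↔ i ∉ X3 := by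
    intro x; rw [hT]; simp
  have hb12 : (B1 \ B2).card + (B1 ∩ B2).card = B1.card := Finset.card_sdiff_add_card_inter _ _
  have hb21 : (B2 \ B1).card + (B1 ∩ B2).card = B2.card := by
    rw [Finset.inter_comm]; exact Finset.card_sdiff_add_card_inter _ _
  have hAXc : AX.card ≤ R.card := Finset.card_le_card hAXR
  have hX3c : X3.card ≤ m := by
    have := Finset.card_le_univ X3
    rwa [Fintype.card_fin] at this
  have hTc : T.card = (R.card - AX.card + (B2 \ B1).card) + ((B1 \ B2).card + (m - X3.card)) := by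
    rw [hT, Finset.card_disjSum, Finset.card_disjSum, Finset.card_union_of_disjoint,
      Finset.card_sdiff_of_subset hAXR, Finset.card_sdiff_of_subset (Finset.subset_univ X3),
      Finset.card_univ, Fintype.card_fin]
    exact (hRO.mono_left Finset.sdiff_subset).mono_right (Finset.sdiff_subset.trans hB2)
  have hTU : T ⊆ U \ X := by
    rintro (x | x | i) hx
    · rw [hT1] at hx
      rw [Finset.mem_sdiff, hU, gU1]
      rcases hx with ⟨h1, h2⟩ | ⟨h1, h2⟩
      · exact ⟨Or.inl h1, fun h3 => h2 ((hAXm x).2 ⟨h1, h3⟩)⟩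
      · exact ⟨Or.inr (hB2 h1), fun h3 => h2 ((hB1m x).2 ⟨hB2 h1, h3⟩)⟩
    · rw [hT2] at hx
      rw [Finset.mem_sdiff, hU, gU2]
      exact ⟨hB1O hx.1, fun h3 => hx.2 ((hm2 x).2 h3)⟩
    · rw [hT3] at hx
      rw [Finset.mem_sdiff, hU]
      exact ⟨gU3 i, fun h3 => hx ((hm3 i).2 h3)⟩
  -- closed sets contain an even number of vertices outside `T`
  have hswap : ∀ C : Finset (V ⊕ V ⊕ Fin m), C ⊆ U → Disjoint C X →
      (∀ x ∈ C, ∀ y ∈ U, (gam G R m).Adj x y → y ∈ C ∨ y ∈ X) → Even (C \ T).card := by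
    intro C hCU hCX hCcl
    have hs : ∑ x ∈ C \ T, (1 : ZMod 2) = 0 := by
      let sw : V ⊕ V ⊕ Fin m → V ⊕ V ⊕ Fin m := fun v => match v with
        | .inl x => .inr (.inl x)
        | .inr (.inl x) => .inl x
        | .inr (.inr i) => .inr (.inr i)
      have hsw1 : ∀ x, sw (.inl x) = .inr (.inl x) := fun x => rfl
      have hsw2 : ∀ x, sw (.inr (.inl x)) = .inl x := fun x => rfl
      have hmem : ∀ v ∈ C \ T, sw v ∈ C \ T ∧ sw v ≠ v := by
        rintro (x | x | i) hv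
        · rw [Finset.mem_sdiff] at hv
          have hxU := hCU hv.1
          rw [hU, gU1] at hxU
          have hxX : Sum.inl x ∉ X := fun h3 => Finset.disjoint_left.1 hCX hv.1 h3
          have hxR : x ∉ R := by
            intro h3
            exact hv.2 ((hT1 x).2 (Or.inl ⟨h3, fun h5 => hxX ((hAXm x).1 h5).2⟩))
          have hxO : x ∈ O := by tauto
          have hx1 : x ∉ B1 := fun h5 => hxX ((hB1m x).1 h5).2
          have hx2 : x ∉ B2 := fun h5 => hv.2 ((hT1 x).2 (Or.inr ⟨h5, hx1⟩))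
          rw [hsw1, Finset.mem_sdiff, hT2]
          refine ⟨⟨?_, fun h5 => hx1 h5.1⟩, by simp⟩
          rcases hCcl _ hv.1 (.inr (.inl x)) (by rw [hU, gU2]; exact hxO) rfl with h5 | h5
          · exact h5
          · exact absurd ((hm2 x).2 h5) hx2
        · rw [Finset.mem_sdiff] at hv
          have hxU := hCU hv.1
          rw [hU, gU2] at hxU
          have hxX : Sum.inr (Sum.inl x) ∉ X := fun h3 => Finset.disjoint_left.1 hCX hv.1 h3
          have hx2 : x ∉ B2 := fun h5 => hxX ((hm2 x).1 h5)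
          have hx1 : x ∉ B1 := fun h5 => hv.2 ((hT2 x).2 ⟨h5, hx2⟩)
          have hxR : x ∉ R := ((hOm x).1 hxU).2
          rw [hsw2, Finset.mem_sdiff, hT1]
          refine ⟨⟨?_, by tauto⟩, by simp⟩
          rcases hCcl _ hv.1 (.inl x) (by rw [hU, gU1]; exact Or.inr hxU) rfl with h5 | h5
          · exact h5
          · exact absurd ((hB1m x).2 ⟨hxU, h5⟩) hx1
        · exfalso
          rw [Finset.mem_sdiff, hT3, not_not, hm3] at hv
          exact Finset.disjoint_left.1 hCX hv.1 hv.2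
      apply Finset.sum_involution (fun v _ => sw v)
      · intro _ _; decide
      · intro v hv _; exact (hmem v hv).2
      · intro v hv; exact (hmem v hv).1
      · rintro (x | x | i) _ <;> rfl
    rw [Finset.sum_const, nsmul_eq_mul, mul_one, ZMod.natCast_eq_zero_iff_even] at hs
    exact hs
  obtain ⟨κ0, hκ0⟩ : ∃ κ0, κ0 = (U \ X) \ K.biUnion (fun C => C) := ⟨_, rfl⟩
  have hκ0m : ∀ v, v ∈ κ0 ↔ v ∈ U ∧ v ∉ X ∧ ∀ C ∈ K, v ∉ C := by
    intro v
    rw [hκ0, Finset.mem_sdiff, Finset.mem_sdiff, Finset.mem_biUnion]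
    push Not
    tauto
  have hκ0cl : ∀ x ∈ κ0, ∀ y ∈ U, (gam G R m).Adj x y → y ∈ κ0 ∨ y ∈ X := by
    intro x hx y hy hxy
    by_cases hyX : y ∈ X
    · exact Or.inr hyX
    · left
      rw [hκ0m] at hx ⊢
      refine ⟨hy, hyX, fun C hC hyC => ?_⟩
      rcases hcl C hC y hyC x hx.1 hxy.symm with h5 | h5
      · exact hx.2.2 C hC h5
      · exact hx.2.1 h5
  have hsum : ∑ C ∈ K, (C ∩ T).card + (κ0 ∩ T).card = T.card := by
    rw [← Finset.card_biUnion (fun C hC D hD hne => ((hpw C hC D hD hne).mono_left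
      Finset.inter_subset_left).mono_right Finset.inter_subset_left),
      ← Finset.card_union_of_disjoint]
    · congr 1
      ext v
      rw [Finset.mem_union, Finset.mem_biUnion, Finset.mem_inter, hκ0m]
      constructor
      · rintro (⟨C, -, hv⟩ | ⟨-, hv⟩)
        · exact (Finset.mem_inter.1 hv).2
        · exact hv
      · intro hv
        by_cases h5 : ∃ C ∈ K, v ∈ C
        · obtain ⟨C, hC, hvC⟩ := h5
          exact Or.inl ⟨C, hC, Finset.mem_inter.2 ⟨hvC, hv⟩⟩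
        · push Not at h5
          have h6 := Finset.mem_sdiff.1 (hTU hv)
          exact Or.inr ⟨⟨h6.1, h6.2, h5⟩, hv⟩
    · rw [Finset.disjoint_left]
      intro v hv hv'
      obtain ⟨C, hC, hvC⟩ := Finset.mem_biUnion.1 hv
      exact ((hκ0m v).1 (Finset.mem_inter.1 hv').1).2.2 C hC (Finset.mem_inter.1 hvC).1
  have hone : ∀ C ∈ K, 1 ≤ (C ∩ T).card := by
    intro C hC
    have h5 := hswap C (hK C hC).1 (hK C hC).2.1 (hcl C hC)
    have h6 := Finset.card_sdiff_add_card_inter C T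
    obtain ⟨k, hk⟩ := (hK C hC).2.2
    obtain ⟨l, hl⟩ := h5
    omega
  have hRc := h.card
  -- the bound for closed sets
  have M1 : ∀ v ∈ U \ X, ∃ C : Finset (V ⊕ V ⊕ Fin m), v ∈ C ∧ C ⊆ U ∧ Disjoint C X ∧
      (∀ x ∈ C, ∀ y ∈ U, (gam G R m).Adj x y → y ∈ C ∨ y ∈ X) ∧
      (C ∩ T).card + 2 * AX.card + 2 * (B1 ∩ B2).card + 2 * X3.card + 1 ≤ 2 * L.card := by
    intro v hv
    rw [Finset.mem_sdiff] at hv
    by_cases h5 : ∃ C ∈ K, v ∈ C
    · obtain ⟨C, hC, hvC⟩ := h5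
      refine ⟨C, hvC, (hK C hC).1, (hK C hC).2.1, hcl C hC, ?_⟩
      rw [← Finset.add_sum_erase K _ hC] at hsum
      have h6 : (K.erase C).card ≤ ∑ D ∈ K.erase C, (D ∩ T).card := by
        rw [Finset.card_eq_sum_ones]
        exact Finset.sum_le_sum (fun D hD => hone D (Finset.mem_of_mem_erase hD))
      rw [Finset.card_erase_of_mem hC] at h6
      have : 0 < K.card := Finset.card_pos.2 ⟨C, hC⟩
      omega
    · push Not at h5
      refine ⟨κ0, (hκ0m v).2 ⟨hv.1, hv.2, h5⟩, fun x hx => ((hκ0m x).1 hx).1, ?_, hκ0cl, ?_⟩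
      · rw [Finset.disjoint_left]; intro x hx; exact ((hκ0m x).1 hx).2.1
      · have h6 : K.card ≤ ∑ D ∈ K, (D ∩ T).card := by
          rw [Finset.card_eq_sum_ones]
          exact Finset.sum_le_sum (fun D hD => hone D hD)
        omega
  -- step (i)
  have hX3u : X3 = univ := by
    by_contra hne
    obtain ⟨i0, hi0⟩ : ∃ i0, i0 ∉ X3 := by
      by_contra hcon
      push Not at hcon
      exact hne (Finset.eq_univ_iff_forall.2 hcon)
    obtain ⟨C, hvC, hCU, hCX, hCcl, hCb⟩ := M1 (.inr (.inr i0)) (by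
      rw [Finset.mem_sdiff]; exact ⟨gU3 i0, fun h5 => hi0 ((hm3 i0).2 h5)⟩)
    have hRne : (R \ AX).Nonempty := by
      rw [Finset.nonempty_iff_ne_empty]
      intro he
      have : (R \ AX).card = 0 := by rw [he]; rfl
      rw [Finset.card_sdiff_of_subset hAXR] at this
      omega
    obtain ⟨r0, hr0⟩ := hRne
    have hC1 : ∀ r ∈ R \ AX, Sum.inl r ∈ C := by
      intro r hr
      rw [Finset.mem_sdiff] at hr
      rcases hCcl _ hvC (.inl r) (by rw [hU, gU1]; exact Or.inl hr.1) hr.1 with h5 | h5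
      · exact h5
      · exact absurd ((hAXm r).2 ⟨hr.1, h5⟩) hr.2
    have hC3 : ∀ i ∈ univ \ X3, Sum.inr (Sum.inr i) ∈ C := by
      intro i hi
      rw [Finset.mem_sdiff] at hi
      rcases hCcl _ (hC1 r0 hr0) (.inr (.inr i)) (gU3 i) (Finset.mem_sdiff.1 hr0).1 with h5 | h5
      · exact h5
      · exact absurd ((hm3 i).2 h5) hi.2
    have hsub : (R \ AX).disjSum ((∅ : Finset V).disjSum (univ \ X3)) ⊆ C ∩ T := by
      rintro (x | x | i) hx
      · simp only [Finset.inl_mem_disjSum] at hx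
        rw [Finset.mem_inter, hT1]
        exact ⟨hC1 x hx, Or.inl (Finset.mem_sdiff.1 hx)⟩
      · simp at hx
      · simp only [Finset.inr_mem_disjSum] at hx
        rw [Finset.mem_inter, hT3]
        exact ⟨hC3 i hx, (Finset.mem_sdiff.1 hx).2⟩
    have h5 := Finset.card_le_card hsub
    rw [Finset.card_disjSum, Finset.card_disjSum, Finset.card_sdiff_of_subset hAXR,
      Finset.card_sdiff_of_subset (Finset.subset_univ X3), Finset.card_univ, Fintype.card_fin,
      Finset.card_empty] at h5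
    omega
  have hX3c' : X3.card = m := by rw [hX3u, Finset.card_univ, Fintype.card_fin]
  have hT3' : ∀ i, Sum.inr (Sum.inr i) ∉ T := by
    intro i; rw [hT3, hX3u]; simp
  -- step (ii)
  have hO00 : ∀ o ∈ O, o ∉ B1 → o ∈ B2 := by
    intro o ho ho1
    by_contra ho2
    have hoX : Sum.inl o ∉ X := fun h5 => ho1 ((hB1m o).2 ⟨ho, h5⟩)
    obtain ⟨C, hvC, hCU, hCX, hCcl, hCb⟩ := M1 (.inl o) (by
      rw [Finset.mem_sdiff, hU, gU1]; exact ⟨Or.inr ho, hoX⟩)
    let p : V ⊕ V ⊕ Fin m → V := fun v => match v with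
      | .inl x => x
      | .inr (.inl x) => x
      | .inr (.inr _) => o
    have hp : ∀ v, v ∈ (C ∩ T).image p ↔ (Sum.inl v ∈ C ∧ (Sum.inl v : V ⊕ V ⊕ Fin m) ∈ T) ∨
        (Sum.inr (Sum.inl v) ∈ C ∧ (Sum.inr (Sum.inl v) : V ⊕ V ⊕ Fin m) ∈ T) := by
      intro v
      rw [Finset.mem_image]
      constructor
      · rintro ⟨(x | x | i), hx, rfl⟩
        · exact Or.inl (Finset.mem_inter.1 hx)
        · exact Or.inr (Finset.mem_inter.1 hx)
        · exact absurd (Finset.mem_inter.1 hx).2 (hT3' i)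
      · rintro (hv | hv)
        · exact ⟨.inl v, Finset.mem_inter.2 hv, rfl⟩
        · exact ⟨.inr (.inl v), Finset.mem_inter.2 hv, rfl⟩
    set D := O.filter (fun x => x ∉ B1 ∧ x ∉ B2 ∧ Sum.inl x ∈ C) with hD
    set N := AX ∪ (B1 ∩ B2) ∪ (C ∩ T).image p with hN
    have hNc : N.card ≤ 3 := by
      rw [hN]
      have e1 := Finset.card_union_le (AX ∪ (B1 ∩ B2)) ((C ∩ T).image p)
      have e2 := Finset.card_union_le AX (B1 ∩ B2)
      have e3 := Finset.card_image_le (s := C ∩ T) (f := p)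
      omega
    have hND : Disjoint D N := by
      rw [Finset.disjoint_left]
      intro x hx hx'
      rw [hD, Finset.mem_filter] at hx
      rw [hN, Finset.mem_union, Finset.mem_union, Finset.mem_inter, hp, hT1, hT2] at hx'
      have hxR := ((hOm x).1 hx.1).2
      have := fun h5 => hxR (hAXR h5)
      tauto
    obtain ⟨l, hl⟩ : L.Nonempty := Finset.card_pos.1 (by omega)
    have h5 := h4 D N ⟨o, by rw [hD, Finset.mem_filter]; exact ⟨ho, ho1, ho2, hvC⟩⟩ hND
      ⟨l, ?_, ?_⟩ ?_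
    · omega
    · intro h5
      rw [hD, Finset.mem_filter] at h5
      exact ((hOm l).1 h5.1).1 hl
    · intro h5
      have hlR : l ∉ R := fun h6 => Finset.disjoint_left.1 h.disj hl h6
      have hlO : l ∉ O := fun h6 => ((hOm l).1 h6).1 hl
      rw [hN, Finset.mem_union, Finset.mem_union, Finset.mem_inter, hp, hT1, hT2] at h5
      have h6 := fun h5 => hlR (hAXR h5)
      have h7 := fun h5 => hlO (hB1O h5)
      have h8 := fun h5 => hlO (hB2 h5)
      tauto
    · intro x hx y hxy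
      rw [hD, Finset.mem_filter] at hx
      obtain ⟨hxO, hx1, hx2, hxC⟩ := hx
      have hyL : y ∉ L := by
        intro hy
        exact ((hOm x).1 hxO).2 (h.closed y hy x hxy.symm)
      have hxC2 : Sum.inr (Sum.inl x) ∈ C := by
        rcases hCcl _ hxC (.inr (.inl x)) (by rw [hU, gU2]; exact hxO) rfl with h5 | h5
        · exact h5
        · exact absurd ((hm2 x).2 h5) hx2
      by_cases hyR : y ∈ R
      · right
        rw [hN, Finset.mem_union, Finset.mem_union]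
        by_cases hyA : y ∈ AX
        · exact Or.inl (Or.inl hyA)
        · right
          rw [hp]
          left
          rw [hT1]
          refine ⟨?_, Or.inl ⟨hyR, hyA⟩⟩
          rcases hCcl _ hxC (.inl y) (by rw [hU, gU1]; exact Or.inl hyR) hxy with h5 | h5
          · exact h5
          · exact absurd ((hAXm y).2 ⟨hyR, h5⟩) hyA
      · have hyO : y ∈ O := (hOm y).2 ⟨hyL, hyR⟩
        have hy1C : y ∉ B1 → Sum.inl y ∈ C := by
          intro hy1
          rcases hCcl _ hxC (.inl y) (by rw [hU, gU1]; exact Or.inr hyO) hxy with h5 | h5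
          · exact h5
          · exact absurd ((hB1m y).2 ⟨hyO, h5⟩) hy1
        have hy2C : y ∉ B2 → Sum.inr (Sum.inl y) ∈ C := by
          intro hy2
          rcases hCcl _ hxC2 (.inr (.inl y)) (by rw [hU, gU2]; exact hyO) hxy with h5 | h5
          · exact h5
          · exact absurd ((hm2 y).2 h5) hy2
        by_cases hy1 : y ∈ B1 <;> by_cases hy2 : y ∈ B2
        · right
          rw [hN, Finset.mem_union, Finset.mem_union, Finset.mem_inter]
          exact Or.inl (Or.inr ⟨hy1, hy2⟩)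
        · right
          rw [hN, Finset.mem_union, hp, hT2]
          exact Or.inr (Or.inr ⟨hy2C hy2, hy1, hy2⟩)
        · right
          rw [hN, Finset.mem_union, hp, hT1]
          exact Or.inr (Or.inl ⟨hy1C hy1, Or.inr ⟨hy2, hy1⟩⟩)
        · left
          rw [hD, Finset.mem_filter]
          exact ⟨hyO, hy1, hy2, hy1C hy1⟩
  -- step (iii)
  have hUT : U \ X ⊆ T := by
    rintro (x | x | i) hx
    · rw [Finset.mem_sdiff, hU, gU1] at hx
      rw [hT1]
      rcases hx.1 with h5 | h5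
      · exact Or.inl ⟨h5, fun h6 => hx.2 ((hAXm x).1 h6).2⟩
      · have h6 : x ∉ B1 := fun h6 => hx.2 ((hB1m x).1 h6).2
        exact Or.inr ⟨hO00 x h5 h6, h6⟩
    · rw [Finset.mem_sdiff, hU, gU2] at hx
      rw [hT2]
      have h6 : x ∉ B2 := fun h6 => hx.2 ((hm2 x).1 h6)
      refine ⟨?_, h6⟩
      by_contra h7
      exact h6 (hO00 x hx.1 h7)
    · rw [Finset.mem_sdiff, ← hm3, hX3u] at hx
      simp at hx
  have hCT : ∀ C ∈ K, C ∩ T = C := by
    intro C hC
    rw [Finset.inter_eq_left]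
    intro v hv
    exact hUT (Finset.mem_sdiff.2 ⟨(hK C hC).1 hv, Finset.disjoint_left.1 (hK C hC).2.1 hv⟩)
  have hκ0T : κ0 ∩ T = κ0 := by
    rw [Finset.inter_eq_left]
    intro v hv
    exact hUT (Finset.mem_sdiff.2 ⟨((hκ0m v).1 hv).1, ((hκ0m v).1 hv).2.1⟩)
  have hsum' : ∑ C ∈ K, C.card + κ0.card = T.card := by
    rw [← hsum, hκ0T]
    congr 1
    exact Finset.sum_congr rfl (fun C hC => by rw [hCT C hC])
  set Y := (U \ X).filter (fun v => ∃ w ∈ U \ X, (gam G R m).Adj v w) with hY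
  set Kb := K.filter (fun C => 3 ≤ C.card) with hKb
  set Ks := K.filter (fun C => ¬ 3 ≤ C.card) with hKs
  have hKbs : Kb.card + Ks.card = K.card := Finset.card_filter_add_card_filter_not _
  have hKsum : ∑ C ∈ Kb, C.card + ∑ C ∈ Ks, C.card = ∑ C ∈ K, C.card :=
    Finset.sum_filter_add_sum_filter_not _ _ _
  have hKs1 : Ks.card ≤ ∑ C ∈ Ks, C.card := by
    rw [Finset.card_eq_sum_ones]
    apply Finset.sum_le_sum
    intro C hC
    have h5 := hone C (Finset.mem_filter.1 hC).1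
    rwa [hCT C (Finset.mem_filter.1 hC).1] at h5
  have hKb3 : 3 * Kb.card ≤ ∑ C ∈ Kb, C.card := by
    rw [Finset.card_eq_sum_ones, Finset.mul_sum]
    apply Finset.sum_le_sum
    intro C hC
    have := (Finset.mem_filter.1 hC).2
    omega
  have hYc : Y.card ≤ κ0.card + ∑ C ∈ Kb, C.card := by
    calc Y.card ≤ (κ0 ∪ Kb.biUnion (fun C => C)).card := by
          apply Finset.card_le_card
          intro v hv
          rw [hY, Finset.mem_filter, Finset.mem_sdiff] at hv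
          obtain ⟨⟨hvU, hvX⟩, w, hw, hvw⟩ := hv
          rw [Finset.mem_sdiff] at hw
          rw [Finset.mem_union, Finset.mem_biUnion]
          by_cases h5 : ∃ C ∈ K, v ∈ C
          · obtain ⟨C, hC, hvC⟩ := h5
            right
            refine ⟨C, Finset.mem_filter.2 ⟨hC, ?_⟩, hvC⟩
            rcases hcl C hC v hvC w hw.1 hvw with h6 | h6
            · have h7 : 1 < C.card := Finset.one_lt_card.2 ⟨v, hvC, w, h6, hvw.ne⟩
              obtain ⟨k, hk⟩ := (hK C hC).2.2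
              omega
            · exact absurd h6 hw.2
          · push Not at h5
            exact Or.inl ((hκ0m v).2 ⟨hvU, hvX, h5⟩)
      _ ≤ κ0.card + (Kb.biUnion (fun C => C)).card := Finset.card_union_le _ _
      _ ≤ κ0.card + ∑ C ∈ Kb, C.card := by
          have := Finset.card_biUnion_le (s := Kb) (t := fun C => C)
          omega
  have hYfin : Y.card + 3 * (AX.card + (B1 ∩ B2).card) ≤ 3 := by omega
  refine ⟨fun v => decide (v ∈ R ∨ (v ∈ O ∧ v ∉ B1)), AX ∪ (B1 ∩ B2), ?_⟩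
  have hZc : (AX ∪ (B1 ∩ B2)).card ≤ AX.card + (B1 ∩ B2).card := Finset.card_union_le _ _
  have hYV : (univ.filter (fun x => ∃ y, G.Adj x y ∧ x ∉ AX ∪ (B1 ∩ B2) ∧ y ∉ AX ∪ (B1 ∩ B2) ∧
      decide (x ∈ R ∨ (x ∈ O ∧ x ∉ B1)) = decide (y ∈ R ∨ (y ∈ O ∧ y ∉ B1)))).card ≤ Y.card := by
    apply Finset.card_le_card_of_injOn
      (fun v => if v ∈ R ∨ (v ∈ O ∧ v ∉ B1) then Sum.inl v else Sum.inr (Sum.inl v))
    · intro x hx
      rw [Finset.mem_coe, Finset.mem_filter] at hx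
      obtain ⟨-, y, hxy, hxZ, hyZ, hc⟩ := hx
      rw [decide_eq_decide] at hc
      have hx5 : x ∉ L := by
        intro hx
        have h5 := h.closed x hx y hxy
        have h6 := hc.2 (Or.inl h5)
        rcases h6 with h6 | h6
        · exact Finset.disjoint_left.1 h.disj hx h6
        · exact ((hOm x).1 h6.1).1 hx
      have hy5 : y ∉ L := by
        intro hy
        have h5 := h.closed y hy x hxy.symm
        have h6 := hc.1 (Or.inl h5)
        rcases h6 with h6 | h6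
        · exact Finset.disjoint_left.1 h.disj hy h6
        · exact ((hOm y).1 h6.1).1 hy
      rw [Finset.mem_union, Finset.mem_inter] at hxZ hyZ
      push Not at hxZ hyZ
      have key1 : ∀ z, z ∉ AX → (z ∈ R ∨ (z ∈ O ∧ z ∉ B1)) →
          (Sum.inl z : V ⊕ V ⊕ Fin m) ∈ U \ X := by
        intro z hzA hz
        rw [Finset.mem_sdiff, hU, gU1]
        rcases hz with h5 | h5
        · exact ⟨Or.inl h5, fun h6 => hzA ((hAXm z).2 ⟨h5, h6⟩)⟩
        · exact ⟨Or.inr h5.1, fun h6 => h5.2 ((hB1m z).2 ⟨h5.1, h6⟩)⟩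
      have key2 : ∀ z, z ∉ L → (z ∈ B1 → z ∉ B2) → ¬ (z ∈ R ∨ (z ∈ O ∧ z ∉ B1)) →
          (Sum.inr (Sum.inl z) : V ⊕ V ⊕ Fin m) ∈ U \ X := by
        intro z hzL hzB hz
        push Not at hz
        have hzO : z ∈ O := (hOm z).2 ⟨hzL, hz.1⟩
        rw [Finset.mem_sdiff, hU, gU2]
        exact ⟨hzO, fun h6 => hzB (hz.2 hzO) ((hm2 z).2 h6)⟩
      rw [Finset.mem_coe, hY, Finset.mem_filter]
      by_cases hcx : x ∈ R ∨ (x ∈ O ∧ x ∉ B1)
      · simp only [hcx, if_true]
        exact ⟨key1 x hxZ.1 hcx, .inl y, key1 y hyZ.1 (hc.1 hcx), hxy⟩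
      · simp only [hcx, if_false]
        have hcy : ¬ (y ∈ R ∨ (y ∈ O ∧ y ∉ B1)) := fun h5 => hcx (hc.2 h5)
        exact ⟨key2 x hx5 hxZ.2 hcx, .inr (.inl y), key2 y hy5 hyZ.2 hcy, hxy⟩
    · intro x _ y _ hxy
      simp only at hxy
      split_ifs at hxy <;> simpa using hxy
  refine le_trans (Nat.add_le_add_right hYV _) ?_
  omega

end Run7.h543
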